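import Mathlib

set_option autoImplicit false

namespace Pool.Agent.Work.MP_41f3d4_co

open Relation

/-- Data of a finite rooted forest: a parent function and a depth function.  `par a` really is the
parent of `a` when `dep (par a) < dep a`; otherwise `a` is a root. -/
structure RT (ι : Type) where
  par : ι → ι
  dep : ι → ℕ

namespace RT

variable {ι : Type} (R : RT ι)

/-- `b` is the parent of `a`. -/
def step (a b : ι) : Prop := R.par a = b ∧ R.dep b < R.dep a

/-- `x` is an ancestor of `y` (or equal to it). -/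
def anc (x y : ι) : Prop := ReflTransGen R.step y x

variable {R}

theorem anc_refl (x : ι) : R.anc x x := ReflTransGen.refl

theorem anc_trans {x y z : ι} (h : R.anc x y) (h' : R.anc y z) : R.anc x z :=
  ReflTransGen.trans h' h

theorem anc_dep {x y : ι} (h : R.anc x y) : R.dep x ≤ R.dep y := by
  unfold anc at h
  induction h with
  | refl => exact le_rfl
  | tail _ h2 ih => exact h2.2.le.trans ih

theorem step_anc {a b : ι} (h : R.step a b) : R.anc b a := ReflTransGen.single h

theorem anc_cases {x y : ι} (h : R.anc x y) : x = y ∨ (R.step y (R.par y) ∧ R.anc x (R.par y)) := by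
  rcases ReflTransGen.cases_head h with h | ⟨c, hc, hcx⟩
  · exact Or.inl h.symm
  · refine Or.inr ⟨⟨rfl, ?_⟩, ?_⟩
    · rw [hc.1]; exact hc.2
    · rw [hc.1]; exact hcx

theorem anc_antisymm {x y : ι} (h : R.anc x y) (h' : R.dep y ≤ R.dep x) : x = y := by
  rcases anc_cases h with h | ⟨h1, h2⟩
  · exact h
  · have := anc_dep h2
    have := h1.2
    omega

theorem anc_antisymm' {x y : ι} (h : R.anc x y) (h' : R.anc y x) : x = y :=
  anc_antisymm h (anc_dep h')

theorem anc_total {x y z : ι} (h : R.anc x z) (h' : R.anc y z) : R.anc x y ∨ R.anc y x := by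
  unfold anc at h
  induction h using ReflTransGen.head_induction_on with
  | refl => exact Or.inr h'
  | head h1 h2 ih =>
    rcases anc_cases h' with e | ⟨h3, h4⟩
    · subst e
      exact Or.inl (ReflTransGen.head h1 h2)
    · apply ih
      rw [h1.1] at h4
      exact h4

variable (R) in
/-- `S` is (the vertex set of) a subtree with top node `t`. -/
def IsSub (S : Finset ι) (t : ι) : Prop :=
  t ∈ S ∧ ∀ i ∈ S, i = t ∨ (R.dep (R.par i) < R.dep i ∧ R.par i ∈ S)

theorem IsSub.anc {S : Finset ι} {t : ι} (h : R.IsSub S t) {i : ι} (hi : i ∈ S) : R.anc t i := by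
  induction hn : R.dep i using Nat.strong_induction_on generalizing i with
  | _ n ih =>
    rcases h.2 i hi with e | ⟨h1, h2⟩
    · subst e; exact anc_refl _
    · exact anc_trans (ih _ (hn ▸ h1) h2 rfl) (step_anc ⟨rfl, h1⟩)

theorem IsSub.mid {S : Finset ι} {t : ι} (h : R.IsSub S t) {i x : ι} (hi : i ∈ S)
    (h1 : R.anc x i) (h2 : R.anc t x) : x ∈ S := by
  unfold RT.anc at h1
  induction h1 using ReflTransGen.head_induction_on with
  | refl => exact hi
  | @head a c hac hcx ih =>
    apply ih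
    rcases h.2 a hi with e | ⟨h3, h4⟩
    · exfalso
      subst e
      have := anc_dep (R := R) hcx
      have := anc_dep h2
      have := hac.2
      omega
    · rw [← hac.1]; exact h4

theorem IsSub.of_mid {S : Finset ι} {t : ι} (ht : t ∈ S) (h : ∀ i ∈ S, R.anc t i)
    (h' : ∀ i ∈ S, ∀ x, R.anc x i → R.anc t x → x ∈ S) : R.IsSub S t := by
  refine ⟨ht, fun i hi => ?_⟩
  rcases anc_cases (h i hi) with e | ⟨h1, h2⟩
  · exact Or.inl e.symm
  · exact Or.inr ⟨h1.2, h' i hi _ (step_anc h1) h2⟩

/-- If two subtrees meet then the lower of the two top nodes is in both. -/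
theorem IsSub.top_mem {S S' : Finset ι} {t t' : ι} (h : R.IsSub S t) (h' : R.IsSub S' t')
    {i : ι} (hi : i ∈ S) (hi' : i ∈ S') :
    (R.anc t t' ∧ t' ∈ S) ∨ (R.anc t' t ∧ t ∈ S') := by
  rcases anc_total (h.anc hi) (h'.anc hi') with e | e
  · exact Or.inl ⟨e, h.mid hi (h'.anc hi') e⟩
  · exact Or.inr ⟨e, h'.mid hi' (h.anc hi) e⟩

/-- Helly property for three subtrees. -/
theorem IsSub.helly {S1 S2 S3 : Finset ι} {t1 t2 t3 : ι} (h1 : R.IsSub S1 t1)
    (h2 : R.IsSub S2 t2) (h3 : R.IsSub S3 t3) (h12 : ∃ i, i ∈ S1 ∧ i ∈ S2)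
    (h13 : ∃ i, i ∈ S1 ∧ i ∈ S3) (h23 : ∃ i, i ∈ S2 ∧ i ∈ S3) :
    ∃ i, i ∈ S1 ∧ i ∈ S2 ∧ i ∈ S3 := by
  obtain ⟨a, ha1, ha2⟩ := h12
  obtain ⟨b, hb1, hb3⟩ := h13
  obtain ⟨c, hc2, hc3⟩ := h23
  rcases h1.top_mem h2 ha1 ha2 with ⟨e12, m12⟩ | ⟨e12, m12⟩
  · rcases h2.top_mem h3 hc2 hc3 with ⟨e23, m23⟩ | ⟨e23, m23⟩
    · rcases h1.top_mem h3 hb1 hb3 with ⟨e13, m13⟩ | ⟨e13, m13⟩
      · exact ⟨t3, m13, m23, h3.1⟩
      · have e : t1 = t3 := anc_antisymm' (anc_trans e12 e23) e13
        subst e
        exact ⟨t1, h1.1, m23, h3.1⟩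
    · exact ⟨t2, m12, h2.1, m23⟩
  · rcases h1.top_mem h3 hb1 hb3 with ⟨e13, m13⟩ | ⟨e13, m13⟩
    · rcases h2.top_mem h3 hc2 hc3 with ⟨e23, m23⟩ | ⟨e23, m23⟩
      · exact ⟨t3, m13, m23, h3.1⟩
      · have e : t1 = t3 := anc_antisymm' e13 (anc_trans e23 e12)
        subst e
        exact ⟨t1, h1.1, m12, h3.1⟩
    · exact ⟨t1, h1.1, m12, m13⟩

theorem IsSub.inter [DecidableEq ι] {S S' : Finset ι} {t t' : ι} (h : R.IsSub S t)
    (h' : R.IsSub S' t') {i : ι} (hi : i ∈ S) (hi' : i ∈ S') : ∃ s, R.IsSub (S ∩ S') s := by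
  rcases h.top_mem h' hi hi' with ⟨e, m⟩ | ⟨e, m⟩
  · refine ⟨t', IsSub.of_mid (Finset.mem_inter.2 ⟨m, h'.1⟩) ?_ ?_⟩
    · intro j hj; exact h'.anc (Finset.mem_inter.1 hj).2
    · intro j hj x hx1 hx2
      rw [Finset.mem_inter] at hj ⊢
      exact ⟨h.mid hj.1 hx1 (anc_trans e hx2), h'.mid hj.2 hx1 hx2⟩
  · refine ⟨t, IsSub.of_mid (Finset.mem_inter.2 ⟨h.1, m⟩) ?_ ?_⟩
    · intro j hj; exact h.anc (Finset.mem_inter.1 hj).1
    · intro j hj x hx1 hx2
      rw [Finset.mem_inter] at hj ⊢
      exact ⟨h.mid hj.1 hx1 hx2, h'.mid hj.2 hx1 (anc_trans e hx2)⟩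

private theorem union_aux [DecidableEq ι] {S S' : Finset ι} {t t' : ι} (h : R.IsSub S t)
    (h' : R.IsSub S' t') (e : R.anc t t') (m : t' ∈ S) : R.IsSub (S ∪ S') t := by
  refine IsSub.of_mid (Finset.mem_union_left _ h.1) ?_ ?_
  · intro j hj
    rcases Finset.mem_union.1 hj with hj | hj
    · exact h.anc hj
    · exact anc_trans e (h'.anc hj)
  · intro j hj x hx1 hx2
    rcases Finset.mem_union.1 hj with hj | hj
    · exact Finset.mem_union_left _ (h.mid hj hx1 hx2)
    · rcases anc_total hx1 (h'.anc hj) with e' | e'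
      · exact Finset.mem_union_left _ (h.mid m e' hx2)
      · exact Finset.mem_union_right _ (h'.mid hj hx1 e')

theorem IsSub.union [DecidableEq ι] {S S' : Finset ι} {t t' : ι} (h : R.IsSub S t)
    (h' : R.IsSub S' t') {i : ι} (hi : i ∈ S) (hi' : i ∈ S') : ∃ s, R.IsSub (S ∪ S') s := by
  rcases h.top_mem h' hi hi' with ⟨e, m⟩ | ⟨e, m⟩
  · exact ⟨t, union_aux h h' e m⟩
  · refine ⟨t', ?_⟩
    rw [Finset.union_comm]
    exact union_aux h' h e m

theorem isSub_singleton (t : ι) : R.IsSub {t} t := by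
  refine ⟨Finset.mem_singleton_self t, fun i hi => Or.inl (Finset.mem_singleton.1 hi)⟩

end RT

/-! ### From a tree to a rooted tree -/

section convert

open SimpleGraph

variable {ι : Type} [Fintype ι] {T : SimpleGraph ι}

open Classical in
/-- The rooted tree obtained from a tree `T` and a root `r`. -/
noncomputable def toRT (T : SimpleGraph ι) (r : ι) : RT ι where
  par := fun i => if h : ∃ j, T.Adj i j ∧ T.dist r i = T.dist r j + 1 then h.choose else i
  dep := fun i => T.dist r i

theorem par_unique (hT : T.IsTree) (r : ι) {y x x' : ι} (h : T.Adj y x)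
    (hd : T.dist r y = T.dist r x + 1) (h' : T.Adj y x') (hd' : T.dist r y = T.dist r x' + 1) :
    x = x' := by
  obtain ⟨p, hp, hpl⟩ := hT.1.exists_path_of_dist x r
  obtain ⟨p', hp', hpl'⟩ := hT.1.exists_path_of_dist x' r
  have key : ∀ (z : ι) (q : T.Walk z r), q.length = T.dist z r → ∀ w ∈ q.support,
      T.dist r w ≤ T.dist r z := by
    intro z q hq w hw
    have h1 : T.dist w r ≤ q.length := by
      classical
      have := T.dist_le (q.dropUntil w hw)
      have h2 : (q.dropUntil w hw).length ≤ q.length := by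
        exact Walk.length_dropUntil_le q hw
      omega
    rw [T.dist_comm (u := r) (v := w), T.dist_comm (u := r) (v := z)]
    omega
  have n1 : y ∉ p.support := by
    intro hy
    have := key x p hpl y hy
    omega
  have n2 : y ∉ p'.support := by
    intro hy
    have := key x' p' hpl' y hy
    omega
  have q1 : (Walk.cons h p).IsPath := Walk.IsPath.cons hp n1
  have q2 : (Walk.cons h' p').IsPath := Walk.IsPath.cons hp' n2
  have := hT.2.path_unique ⟨_, q1⟩ ⟨_, q2⟩
  have e := congrArg Subtype.val this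
  simp only at e
  cases e
  rfl

theorem toRT_step (hT : T.IsTree) (r : ι) {a b : ι} (h : T.Adj a b)
    (hd : T.dist r a = T.dist r b + 1) : (toRT T r).step a b := by
  classical
  have hex : ∃ j, T.Adj a j ∧ T.dist r a = T.dist r j + 1 := ⟨b, h, hd⟩
  refine ⟨?_, ?_⟩
  · show (if h : ∃ j, T.Adj a j ∧ T.dist r a = T.dist r j + 1 then h.choose else a) = b
    rw [dif_pos hex]
    exact par_unique hT r hex.choose_spec.1 hex.choose_spec.2 h hd
  · show T.dist r b < T.dist r a
    omega

theorem toRT_adj (hT : T.IsTree) (r : ι) {a b : ι} (h : T.Adj a b) :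
    (toRT T r).step a b ∨ (toRT T r).step b a := by
  rcases hT.dist_eq_dist_add_one_of_adj r h with e | e
  · exact Or.inl (toRT_step hT r h e)
  · exact Or.inr (toRT_step hT r h.symm e)

theorem toRT_anc_root (hT : T.IsTree) (r : ι) (i : ι) : (toRT T r).anc r i := by
  induction hn : T.dist r i using Nat.strong_induction_on generalizing i with
  | _ n ih =>
    by_cases hir : i = r
    · subst hir; exact RT.anc_refl _
    · obtain ⟨p, hp, hpl⟩ := hT.1.exists_path_of_dist i r
      cases p with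
      | nil => exact absurd rfl hir
      | @cons _ c _ hc q =>
        have h1 : T.dist c r ≤ q.length := T.dist_le q
        rw [Walk.length_cons] at hpl
        have h2 : T.dist r i = T.dist r c + 1 := by
          rcases hT.dist_eq_dist_add_one_of_adj r hc with e | e
          · exact e
          · rw [T.dist_comm (u := r) (v := c), T.dist_comm (u := r) (v := i)] at e
            omega
        exact RT.anc_trans (ih _ (by omega) c rfl) (RT.step_anc (toRT_step hT r hc h2))

/-- A nonempty set of nodes in which any two nodes are joined by a walk inside the set is a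
subtree. -/
theorem toRT_isSub (hT : T.IsTree) (r : ι) (S : Finset ι) (hne : S.Nonempty)
    (hS : ∀ i ∈ S, ∀ j ∈ S, ∃ p : T.Walk i j, ∀ x ∈ p.support, x ∈ S) :
    ∃ t, (toRT T r).IsSub S t := by
  obtain ⟨t, ht, hmin⟩ := S.exists_min_image (fun i => T.dist r i) hne
  refine ⟨t, ht, fun i hi => ?_⟩
  by_contra hcon
  push Not at hcon
  obtain ⟨hit, hpar⟩ := hcon
  -- every node reached from `i` inside `S` is a descendant of `i`
  have key : ∀ (a b : ι) (p : T.Walk a b), (∀ x ∈ p.support, x ∈ S) → (toRT T r).anc i a →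
      (toRT T r).anc i b := by
    intro a b p
    induction p with
    | nil => exact fun _ h => h
    | @cons a c b hac q ih =>
      intro hsup ha
      have hc : c ∈ S := hsup c (by simp [Walk.support_cons])
      apply ih (fun x hx => hsup x (by simp [Walk.support_cons, hx]))
      rcases toRT_adj hT r hac with e | e
      · rcases RT.anc_cases ha with e' | ⟨h1, h2⟩
        · subst e'
          exfalso
          apply hpar ?_
          · rw [e.1]; exact hc
          · rw [e.1]; exact e.2
        · rw [e.1] at h2; exact h2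
      · exact RT.anc_trans ha (RT.step_anc e)
  obtain ⟨p, hp⟩ := hS i hi t ht
  have h1 := key i t p hp (RT.anc_refl i)
  have h2 : (toRT T r).dep t ≤ (toRT T r).dep i := hmin i hi
  exact hit (RT.anc_antisymm h1 h2)

end convert

end Pool.Agent.Work.MP_41f3d4_co
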