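import Mathlib

set_option autoImplicit false

namespace Pool.Agent.Work.MP_41f3d4_co

open SimpleGraph

variable {V : Type} [Fintype V] [DecidableEq V]

/-- `(s, b)` is an induced matching: the edges `v -- b v`, `v ∈ s`, are pairwise anticomplete. -/
def IM (G : SimpleGraph V) (s : Finset V) (b : V → V) : Prop :=
  (∀ v ∈ s, G.Adj v (b v)) ∧
    ∀ u ∈ s, ∀ v ∈ s, u ≠ v → ¬ G.Adj u v ∧ ¬ G.Adj u (b v) ∧ ¬ G.Adj (b u) (b v)

omit [Fintype V] [DecidableEq V] in
theorem IM.congr {G : SimpleGraph V} {s : Finset V} {b b' : V → V} (h : IM G s b)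
    (hb : ∀ v ∈ s, b v = b' v) : IM G s b' := by
  refine ⟨fun v hv => hb v hv ▸ h.1 v hv, fun u hu v hv huv => ?_⟩
  rw [← hb u hu, ← hb v hv]
  exact h.2 u hu v hv huv

omit [Fintype V] in
/-- adding an edge anticomplete to an induced matching -/
theorem IM.insert {G : SimpleGraph V} {s : Finset V} {b : V → V} (h : IM G s b) {x y : V}
    (hxy : G.Adj x y) (hx : ∀ v ∈ s, ¬ G.Adj v x ∧ ¬ G.Adj v y ∧ ¬ G.Adj (b v) x ∧ ¬ G.Adj (b v) y) :
    x ∉ s ∧ IM G (Insert.insert x s) (Function.update b x y) := by
  have hxs : x ∉ s := fun hxs => (hx x hxs).2.1 hxy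
  refine ⟨hxs, ?_, ?_⟩
  · intro v hv
    rcases Finset.mem_insert.1 hv with e | hv
    · subst e; simpa using hxy
    · have : v ≠ x := fun e => hxs (e ▸ hv)
      simpa [this] using h.1 v hv
  · intro u hu v hv huv
    rcases Finset.mem_insert.1 hu with e | hu
    · subst e
      rcases Finset.mem_insert.1 hv with e' | hv
      · exact absurd e'.symm huv
      · have h1 : v ≠ u := huv.symm
        have h2 := hx v hv
        simp only [Function.update_self, Function.update_of_ne h1]
        exact ⟨fun h => h2.1 h.symm, fun h => h2.2.2.1 h.symm, fun h => h2.2.2.2 h.symm⟩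
    · have h1 : u ≠ x := fun e => hxs (e ▸ hu)
      rcases Finset.mem_insert.1 hv with e' | hv
      · have h2 := hx u hu
        subst e'
        simp only [Function.update_self, Function.update_of_ne h1]
        exact ⟨h2.1, h2.2.1, h2.2.2.2⟩
      · have h2 : v ≠ x := fun e => hxs (e ▸ hv)
        simp only [Function.update_of_ne h1, Function.update_of_ne h2]
        exact h.2 u hu v hv huv

/-- **Wagon's theorem.**  If `G` has no clique of size `m + 1` and no induced matching of size
`k + 1` inside `X`, then `G[X]` has a proper colouring with `m ^ (2k)` colours. -/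
theorem wagon (G : SimpleGraph V) (m : ℕ) (hcf : G.CliqueFree (m + 1)) :
    ∀ (k : ℕ) (X : Finset V),
      (∀ s ⊆ X, ∀ b : V → V, (∀ v ∈ s, b v ∈ X) → IM G s b → s.card ≤ k) →
      ∃ f : V → ℕ, (∀ v ∈ X, f v < m ^ (2 * k)) ∧ ∀ u ∈ X, ∀ v ∈ X, G.Adj u v → f u ≠ f v := by
  classical
  intro k
  induction k with
  | zero =>
    intro X hX
    refine ⟨fun _ => 0, fun v _ => by simp, fun u hu v hv huv => ?_⟩
    exfalso
    have := hX {u} (by simpa using hu) (fun _ => v) (by simpa using hv)
      ⟨by simpa using huv, by
        intro a ha b hb hab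
        rw [Finset.mem_singleton] at ha hb
        exact absurd (ha.trans hb.symm) hab⟩
    simp at this
  | succ k ih =>
    intro X hX
    rcases X.eq_empty_or_nonempty with rfl | ⟨x0, hx0⟩
    · exact ⟨fun _ => 0, by simp, by simp⟩
    -- a maximum clique inside `X`
    obtain ⟨K, hK, hmax⟩ := (X.powerset.filter (fun K : Finset V => G.IsClique (K : Set V))).exists_max_image
      Finset.card ⟨∅, by simp⟩
    rw [Finset.mem_filter, Finset.mem_powerset] at hK
    obtain ⟨hKX, hKc⟩ := hK
    have hmax' : ∀ K' : Finset V, K' ⊆ X → G.IsClique (K' : Set V) → K'.card ≤ K.card :=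
      fun K' h1 h2 => hmax K' (by rw [Finset.mem_filter, Finset.mem_powerset]; exact ⟨h1, h2⟩)
    have hcard : ∀ K' : Finset V, G.IsClique (K' : Set V) → K'.card ≤ m := by
      intro K' h
      by_contra hcon
      push Not at hcon
      obtain ⟨K'', h1, h2⟩ := Finset.exists_subset_card_eq (Nat.succ_le_of_lt hcon)
      exact hcf K'' ⟨h.subset (by exact_mod_cast h1), h2⟩
    have hm : 1 ≤ m := by
      have := hcard {x0} (by simp)
      simpa using this
    have hKm := hcard K hKc
    -- numbering of `K`
    obtain ⟨e, he1, he2⟩ : ∃ e : V → ℕ, (∀ x ∈ K, e x < m) ∧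
        ∀ x ∈ K, ∀ y ∈ K, e x = e y → x = y := by
      refine ⟨fun x => if h : x ∈ K then (K.equivFin ⟨x, h⟩ : ℕ) else 0, ?_, ?_⟩
      · intro x hx
        simp only [hx, dif_pos]
        exact lt_of_lt_of_le (K.equivFin ⟨x, hx⟩).2 hKm
      · intro x hx y hy hxy
        simp only [hx, hy, dif_pos] at hxy
        have := K.equivFin.injective (Fin.ext hxy)
        simpa using this
    -- non-neighbours in `K`
    have hNN : ∀ v ∈ X, ∃ p : V × V, p.1 ∈ K ∧ p.2 ∈ K ∧ ¬ G.Adj v p.1 ∧ ¬ G.Adj v p.2 ∧
        (p.1 = p.2 → ∀ z ∈ K, ¬ G.Adj v z → z = p.1) := by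
      intro v hv
      have h1 : ∃ x ∈ K, ¬ G.Adj v x := by
        by_cases hvK : v ∈ K
        · exact ⟨v, hvK, fun h => h.ne rfl⟩
        · by_contra hcon
          push Not at hcon
          have h2 : G.IsClique ((Insert.insert v K : Finset V) : Set V) := by
            rw [Finset.coe_insert]
            exact hKc.insert (fun b hb _ => hcon b hb)
          have h3 := hmax' _ (Finset.insert_subset hv hKX) h2
          rw [Finset.card_insert_of_notMem hvK] at h3
          omega
      obtain ⟨x, hx, hvx⟩ := h1
      by_cases h2 : ∃ y ∈ K, ¬ G.Adj v y ∧ y ≠ x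
      · obtain ⟨y, hy, hvy, hyx⟩ := h2
        exact ⟨(x, y), hx, hy, hvx, hvy, fun h => absurd h.symm hyx⟩
      · push Not at h2
        exact ⟨(x, x), hx, hx, hvx, hvx, fun _ z hz hvz => h2 z hz hvz⟩
    choose! p hp1 hp2 hp3 hp4 hp5 using hNN
    -- colourings of the sets anticomplete to an edge of `K`
    have hA : ∀ x ∈ K, ∀ y ∈ K, x ≠ y → ∃ f : V → ℕ,
        (∀ v ∈ X.filter (fun v => ¬ G.Adj v x ∧ ¬ G.Adj v y), f v < m ^ (2 * k)) ∧
        ∀ u ∈ X.filter (fun v => ¬ G.Adj v x ∧ ¬ G.Adj v y),
          ∀ v ∈ X.filter (fun v => ¬ G.Adj v x ∧ ¬ G.Adj v y), G.Adj u v → f u ≠ f v := by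
      intro x hx y hy hxy
      apply ih
      intro s hs b hb him
      have hadj : G.Adj x y := hKc (by exact_mod_cast hx) (by exact_mod_cast hy) hxy
      have hprop : ∀ v ∈ s, ¬ G.Adj v x ∧ ¬ G.Adj v y ∧ ¬ G.Adj (b v) x ∧ ¬ G.Adj (b v) y := by
        intro v hv
        have h1 := (Finset.mem_filter.1 (hs hv)).2
        have h2 := (Finset.mem_filter.1 (hb v hv)).2
        exact ⟨h1.1, h1.2, h2.1, h2.2⟩
      obtain ⟨h1, h2⟩ := him.insert hadj hprop
      have h3 := hX (Insert.insert x s) ?_ _ ?_ h2
      · rw [Finset.card_insert_of_notMem h1] at h3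
        omega
      · intro v hv
        rcases Finset.mem_insert.1 hv with e' | hv
        · exact e' ▸ hKX hx
        · exact (Finset.mem_filter.1 (hs hv)).1
      · intro v hv
        by_cases hvx : v = x
        · subst hvx; simpa using hKX hy
        · have : v ∈ s := by
            rcases Finset.mem_insert.1 hv with e' | hv
            · exact absurd e' hvx
            · exact hv
          simpa [hvx] using (Finset.mem_filter.1 (hb v this)).1
    choose! c hc1 hc2 using hA
    set M := m ^ (2 * k) with hM
    have hMpos : 0 < M := Nat.pow_pos (by omega)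
    let i : V → ℕ := fun v => if (p v).1 = (p v).2 then 0 else c (p v).1 (p v).2 v
    have hi : ∀ v ∈ X, i v < M := by
      intro v hv
      simp only [i]
      split_ifs with h
      · exact hMpos
      · exact hc1 _ (hp1 v hv) _ (hp2 v hv) h v
          (Finset.mem_filter.2 ⟨hv, hp3 v hv, hp4 v hv⟩)
    refine ⟨fun v => (e (p v).1 * m + e (p v).2) * M + i v, ?_, ?_⟩
    · intro v hv
      have h1 := he1 _ (hp1 v hv)
      have h2 := he1 _ (hp2 v hv)
      have h3 := hi v hv
      have h4 : e (p v).1 * m + e (p v).2 + 1 ≤ m * m := by nlinarith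
      have h5 : m ^ (2 * (k + 1)) = (m * m) * M := by rw [hM]; ring
      rw [h5]
      show (e (p v).1 * m + e (p v).2) * M + i v < m * m * M
      nlinarith
    · intro u hu v hv huv heq
      simp only at heq
      have h1 : (e (p u).1 * m + e (p u).2) = (e (p v).1 * m + e (p v).2) ∧ i u = i v := by
        have hu' := hi u hu
        have hv' := hi v hv
        have e1 : (i u + (e (p u).1 * m + e (p u).2) * M) / M = e (p u).1 * m + e (p u).2 := by
          rw [Nat.add_mul_div_right _ _ hMpos, Nat.div_eq_of_lt hu', zero_add]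
        have e2 : (i v + (e (p v).1 * m + e (p v).2) * M) / M = e (p v).1 * m + e (p v).2 := by
          rw [Nat.add_mul_div_right _ _ hMpos, Nat.div_eq_of_lt hv', zero_add]
        have e3 : i u + (e (p u).1 * m + e (p u).2) * M
            = i v + (e (p v).1 * m + e (p v).2) * M := by omega
        have e4 : (e (p u).1 * m + e (p u).2) = (e (p v).1 * m + e (p v).2) := by
          rw [← e1, ← e2, e3]
        refine ⟨e4, ?_⟩
        rw [e4] at e3
        omega
      obtain ⟨h1, h2⟩ := h1
      have h3 : e (p u).1 = e (p v).1 ∧ e (p u).2 = e (p v).2 := by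
        have a1 := he1 _ (hp2 u hu)
        have a2 := he1 _ (hp2 v hv)
        have e1 : (e (p u).2 + e (p u).1 * m) / m = e (p u).1 := by
          rw [Nat.add_mul_div_right _ _ (by omega), Nat.div_eq_of_lt a1, zero_add]
        have e2 : (e (p v).2 + e (p v).1 * m) / m = e (p v).1 := by
          rw [Nat.add_mul_div_right _ _ (by omega), Nat.div_eq_of_lt a2, zero_add]
        have e3 : e (p u).2 + e (p u).1 * m = e (p v).2 + e (p v).1 * m := by omega
        have e4 : e (p u).1 = e (p v).1 := by rw [← e1, ← e2, e3]
        refine ⟨e4, ?_⟩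
        rw [e4] at e3
        omega
      have h4 : (p u).1 = (p v).1 := he2 _ (hp1 u hu) _ (hp1 v hv) h3.1
      have h5 : (p u).2 = (p v).2 := he2 _ (hp2 u hu) _ (hp2 v hv) h3.2
      by_cases hxy : (p u).1 = (p u).2
      · -- both have the same unique non-neighbour
        have hxy' : (p v).1 = (p v).2 := by rw [← h4, ← h5]; exact hxy
        have g1 := hp5 u hu hxy
        have g2 := hp5 v hv hxy'
        rw [← h4] at g2
        set x := (p u).1 with hx
        have hxK : x ∈ K := hp1 u hu
        have hu' : u ∉ K.erase x := by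
          intro h
          rw [Finset.mem_erase] at h
          exact h.1 (g1 u h.2 (fun h' => h'.ne rfl))
        have hv' : v ∉ K.erase x := by
          intro h
          rw [Finset.mem_erase] at h
          exact h.1 (g2 v h.2 (fun h' => h'.ne rfl))
        have cl1 : G.IsClique ((Insert.insert v (K.erase x) : Finset V) : Set V) := by
          rw [Finset.coe_insert]
          refine (hKc.subset (by simp)).insert ?_
          intro b hb _
          have hb' : b ∈ K.erase x := by exact_mod_cast hb
          rw [Finset.mem_erase] at hb'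
          by_contra hcon
          exact hb'.1 (g2 b hb'.2 hcon)
        have cl2 : G.IsClique ((Insert.insert u (Insert.insert v (K.erase x)) : Finset V) : Set V) := by
          rw [Finset.coe_insert]
          refine cl1.insert ?_
          intro b hb _
          have hb' : b ∈ Insert.insert v (K.erase x) := by exact_mod_cast hb
          rcases Finset.mem_insert.1 hb' with e' | hb'
          · rw [e']; exact huv
          · rw [Finset.mem_erase] at hb'
            by_contra hcon
            exact hb'.1 (g1 b hb'.2 hcon)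
        have h6 := hmax' _ ?_ cl2
        · rw [Finset.card_insert_of_notMem, Finset.card_insert_of_notMem hv',
            Finset.card_erase_of_mem hxK] at h6
          · have := Finset.card_pos.2 ⟨x, hxK⟩
            omega
          · intro h
            rcases Finset.mem_insert.1 h with e' | h
            · exact huv.ne e'
            · exact hu' h
        · intro z hz
          rcases Finset.mem_insert.1 hz with e' | hz
          · exact e' ▸ hu
          · rcases Finset.mem_insert.1 hz with e' | hz
            · exact e' ▸ hv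
            · exact hKX (Finset.mem_of_mem_erase hz)
      · have hxy' : (p v).1 ≠ (p v).2 := by rw [← h4, ← h5]; exact hxy
        simp only [i, if_neg hxy, if_neg hxy'] at h2
        rw [← h4, ← h5] at h2
        refine hc2 _ (hp1 u hu) _ (hp2 u hu) hxy u ?_ v ?_ huv h2
        · exact Finset.mem_filter.2 ⟨hu, hp3 u hu, hp4 u hu⟩
        · refine Finset.mem_filter.2 ⟨hv, ?_, ?_⟩
          · rw [h4]; exact hp3 v hv
          · rw [h5]; exact hp4 v hv

end Pool.Agent.Work.MP_41f3d4_co
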