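import Mathlib
import Pool.Agent.Work.MP_41f3d4_co.Tree
import Pool.Agent.Work.MP_41f3d4_co.Wagon

set_option autoImplicit false

namespace Pool.Agent.Work.MP_41f3d4_co

open SimpleGraph

variable {V ι : Type} [Fintype V] [DecidableEq V] [Fintype ι] [DecidableEq ι]

/-- `B v` is the subtree of the node set carried by `v`. -/
structure IsTD (R : RT ι) (G : SimpleGraph V) (B : V → Finset ι) : Prop where
  sub : ∀ v, ∃ t, R.IsSub (B v) t
  edge : ∀ u v, G.Adj u v → ∃ i, i ∈ B u ∧ i ∈ B v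

/-- every induced matching all of whose edges meet a bag has at most `k` edges -/
def MuLE (G : SimpleGraph V) (B : V → Finset ι) (k : ℕ) : Prop :=
  ∀ t : ι, ∀ s : Finset V, ∀ b : V → V, (∀ v ∈ s, t ∈ B v) → IM G s b → s.card ≤ k

/-- no node can be removed from any subtree -/
def IsMin (R : RT ι) (G : SimpleGraph V) (B : V → Finset ι) : Prop :=
  ∀ v a, a ∈ B v → (∃ t, R.IsSub ((B v).erase a) t) →
    ∃ y, G.Adj v y ∧ ∀ i, i ∈ B y → i ∈ B v → i = a

theorem exists_min (R : RT ι) (G : SimpleGraph V) (B : V → Finset ι) (k : ℕ)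
    (hB : IsTD R G B) (hmu : MuLE G B k) :
    ∃ B' : V → Finset ι, IsTD R G B' ∧ MuLE G B' k ∧ IsMin R G B' := by
  classical
  obtain ⟨B', hB', hmin⟩ := ((Finset.univ : Finset (V → Finset ι)).filter
    (fun B => IsTD R G B ∧ MuLE G B k)).exists_min_image (fun B => ∑ v, (B v).card)
    ⟨B, by simpa using ⟨hB, hmu⟩⟩
  rw [Finset.mem_filter] at hB'
  obtain ⟨_, hTD, hM⟩ := hB'
  refine ⟨B', hTD, hM, ?_⟩
  intro v a hav ⟨t, ht⟩
  by_contra hcon
  push Not at hcon
  let C : V → Finset ι := Function.update B' v ((B' v).erase a)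
  have hCsub : ∀ w, C w ⊆ B' w := by
    intro w
    by_cases hw : w = v
    · subst hw; simp only [C, Function.update_self]; exact Finset.erase_subset _ _
    · simp only [C, Function.update_of_ne hw]; exact Finset.Subset.refl _
  have h1 : IsTD R G C := by
    refine ⟨fun w => ?_, fun u w huw => ?_⟩
    · by_cases hw : w = v
      · subst hw; simp only [C, Function.update_self]; exact ⟨t, ht⟩
      · simp only [C, Function.update_of_ne hw]; exact hTD.sub w
    · by_cases hu : u = v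
      · subst hu
        have hwu : w ≠ u := huw.ne'
        obtain ⟨i, hi1, hi2, hi3⟩ := hcon w huw
        refine ⟨i, ?_, ?_⟩
        · simp only [C, Function.update_self]; exact Finset.mem_erase.2 ⟨hi3, hi2⟩
        · simp only [C, Function.update_of_ne hwu]; exact hi1
      · by_cases hw : w = v
        · subst hw
          obtain ⟨i, hi1, hi2, hi3⟩ := hcon u huw.symm
          refine ⟨i, ?_, ?_⟩
          · simp only [C, Function.update_of_ne hu]; exact hi1
          · simp only [C, Function.update_self]; exact Finset.mem_erase.2 ⟨hi3, hi2⟩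
        · simp only [C, Function.update_of_ne hu, Function.update_of_ne hw]
          exact hTD.edge u w huw
  have h2 : MuLE G C k := fun t s b hs him => hM t s b (fun v hv => hCsub v (hs v hv)) him
  have h3 := hmin C (by simpa using ⟨h1, h2⟩)
  have h4 : ∑ w, (C w).card < ∑ w, (B' w).card := by
    apply Finset.sum_lt_sum (fun w _ => Finset.card_le_card (hCsub w))
    refine ⟨v, Finset.mem_univ v, ?_⟩
    simp only [C, Function.update_self]
    exact Finset.card_erase_lt_of_mem hav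
  omega

omit [Fintype V] [DecidableEq V] [Fintype ι] in
/-- existence of a removable node outside the union of the other subtrees -/
theorem exists_end (R : RT ι) (B : V → Finset ι) (hsub : ∀ v, ∃ t, R.IsSub (B v) t)
    (s : Finset V) (t : ι) (ht : ∀ v ∈ s, t ∈ B v) (v : V) (hv : v ∈ s)
    (hother : ∃ u ∈ s, u ≠ v) (hpriv : ∃ a ∈ B v, ∀ u ∈ s, u ≠ v → a ∉ B u) :
    ∃ a ∈ B v, (∀ u ∈ s, u ≠ v → a ∉ B u) ∧ ∃ t', R.IsSub ((B v).erase a) t' := by
  obtain ⟨t0, h0⟩ := hsub v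
  have hv0t : R.anc t0 t := h0.anc (ht v hv)
  by_cases hcase : ∃ x ∈ B v, (∀ u ∈ s, u ≠ v → x ∉ B u) ∧ ¬ R.anc x t
  · obtain ⟨x, hxv, hxu, hxt⟩ := hcase
    classical
    obtain ⟨a, ha, hamax⟩ := ((B v).filter (fun a => R.anc x a)).exists_max_image (fun a => R.dep a)
      ⟨x, Finset.mem_filter.2 ⟨hxv, RT.anc_refl x⟩⟩
    rw [Finset.mem_filter] at ha
    refine ⟨a, ha.1, ?_, t0, ?_, ?_⟩
    · intro u hu huv hau
      obtain ⟨tu, htu⟩ := hsub u
      rcases RT.anc_total ha.2 (htu.anc hau) with e | e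
      · exact hxt (RT.anc_trans e (htu.anc (ht u hu)))
      · exact hxu u hu huv (htu.mid hau ha.2 e)
    · rw [Finset.mem_erase]
      refine ⟨?_, h0.1⟩
      intro e
      have h1 : R.anc t0 x := h0.anc hxv
      have h2 : x = t0 := RT.anc_antisymm' (e ▸ ha.2) h1
      exact hxt (h2 ▸ hv0t)
    · intro i hi
      rw [Finset.mem_erase] at hi
      rcases h0.2 i hi.2 with e | ⟨h1, h2⟩
      · exact Or.inl e
      · refine Or.inr ⟨h1, Finset.mem_erase.2 ⟨?_, h2⟩⟩
        intro e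
        have h3 : R.anc x i := RT.anc_trans ha.2 (RT.step_anc ⟨e, e ▸ h1⟩)
        have h4 := hamax i (Finset.mem_filter.2 ⟨hi.2, h3⟩)
        have h4' : R.dep i ≤ R.dep a := h4
        rw [e] at h1
        omega
  · push Not at hcase
    obtain ⟨x, hxv, hxu⟩ := hpriv
    have hxt := hcase x hxv hxu
    have h1 : R.anc t0 x := h0.anc hxv
    have ht0 : ∀ u ∈ s, u ≠ v → t0 ∉ B u := by
      intro u hu huv h
      obtain ⟨tu, htu⟩ := hsub u
      exact hxu u hu huv (htu.mid (ht u hu) hxt (RT.anc_trans (htu.anc h) h1))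
    obtain ⟨u0, hu0, hu0v⟩ := hother
    have hne : t0 ≠ t := fun e => ht0 u0 hu0 hu0v (e ▸ ht u0 hu0)
    -- the child of `t0` towards `t`
    obtain ⟨c, hc1, hc2⟩ : ∃ c, R.step c t0 ∧ R.anc c t := by
      rcases Relation.ReflTransGen.cases_tail hv0t with e | ⟨c, hc, hct⟩
      · exact absurd e hne
      · exact ⟨c, hct, hc⟩
    have hcB : c ∈ B v := h0.mid (ht v hv) hc2 (RT.step_anc hc1)
    refine ⟨t0, h0.1, ht0, c, ?_, ?_⟩
    · rw [Finset.mem_erase]
      refine ⟨?_, hcB⟩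
      intro e
      have := hc1.2
      rw [e] at this
      omega
    · intro i hi
      rw [Finset.mem_erase] at hi
      rcases h0.2 i hi.2 with e | ⟨g1, g2⟩
      · exact absurd e hi.1
      · by_cases hpi : R.par i = t0
        · left
          by_contra hic
          -- `i` is a child of `t0` which is not an ancestor of `t`
          have hnot : ¬ R.anc i t := by
            intro g4
            rcases RT.anc_total hc2 g4 with e' | e'
            · rcases RT.anc_cases e' with e'' | ⟨g5, g6⟩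
              · exact hic e''.symm
              · rw [hpi] at g6
                have := RT.anc_dep g6
                have := hc1.2
                omega
            · rcases RT.anc_cases e' with e'' | ⟨g5, g6⟩
              · exact hic e''
              · rw [hc1.1] at g6
                have := RT.anc_dep g6
                rw [hpi] at g1
                omega
          apply hnot
          apply hcase i hi.2
          intro u hu huv hiu
          obtain ⟨tu, htu⟩ := hsub u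
          rcases RT.anc_cases (htu.anc hiu) with e | ⟨g5, g6⟩
          · exact hnot (e ▸ htu.anc (ht u hu))
          · rw [hpi] at g6
            exact ht0 u hu huv (htu.mid hiu (RT.step_anc ⟨hpi, hpi ▸ g1⟩) g6)
        · exact Or.inr ⟨g1, Finset.mem_erase.2 ⟨hpi, g2⟩⟩


omit [Fintype V] [Fintype ι] in
/-- An irredundant independent subset of a bag has at most `k` elements (for `k ≥ 1`). -/
theorem irred_card {R : RT ι} {G : SimpleGraph V} {B : V → Finset ι} {k : ℕ}
    (hTD : IsTD R G B) (hmu : MuLE G B k) (hmin : IsMin R G B) (hk : 1 ≤ k)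
    (s : Finset V) (t : ι) (ht : ∀ v ∈ s, t ∈ B v)
    (hind : ∀ u ∈ s, ∀ v ∈ s, ¬ G.Adj u v)
    (hirr : ∀ v ∈ s, ∃ a ∈ B v, ∀ u ∈ s, u ≠ v → a ∉ B u) : s.card ≤ k := by
  by_cases h2 : s.card ≤ 1
  · omega
  push Not at h2
  have hother : ∀ v ∈ s, ∃ u ∈ s, u ≠ v := fun v _ => Finset.exists_mem_ne h2 v
  have h1 : ∀ v ∈ s, ∃ a ∈ B v, (∀ u ∈ s, u ≠ v → a ∉ B u) ∧
      ∃ y, G.Adj v y ∧ ∀ i, i ∈ B y → i ∈ B v → i = a := by
    intro v hv
    obtain ⟨a, ha1, ha2, ha3⟩ := exists_end R B hTD.sub s t ht v hv (hother v hv) (hirr v hv)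
    exact ⟨a, ha1, ha2, hmin v a ha1 ha3⟩
  haveI : Nonempty ι := ⟨t⟩
  choose! a ha1 ha2 y hy1 hy2 using h1
  have hmem : ∀ v ∈ s, a v ∈ B (y v) := by
    intro v hv
    obtain ⟨i, hi1, hi2⟩ := hTD.edge _ _ (hy1 v hv)
    have := hy2 v hv i hi2 hi1
    exact this ▸ hi2
  -- `y v` does not meet the other subtrees
  have hdis : ∀ u ∈ s, ∀ v ∈ s, u ≠ v → ∀ i, i ∈ B u → i ∉ B (y v) := by
    intro u hu v hv huv i hi1 hi2
    obtain ⟨tu, htu⟩ := hTD.sub u
    obtain ⟨tv, htv⟩ := hTD.sub v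
    obtain ⟨ty, hty⟩ := hTD.sub (y v)
    obtain ⟨j, hj1, hj2, hj3⟩ := htu.helly htv hty ⟨t, ht u hu, ht v hv⟩ ⟨i, hi1, hi2⟩
      ⟨a v, ha1 v hv, hmem v hv⟩
    have := hy2 v hv j hj3 hj2
    exact ha2 v hv u hu huv (this ▸ hj1)
  refine hmu t s y ht ⟨hy1, fun u hu v hv huv => ⟨hind u hu v hv, ?_, ?_⟩⟩
  · intro h
    obtain ⟨i, hi1, hi2⟩ := hTD.edge _ _ h
    exact hdis u hu v hv huv i hi1 hi2
  · intro h
    obtain ⟨i, hi1, hi2⟩ := hTD.edge _ _ h
    obtain ⟨tu, htu⟩ := hTD.sub u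
    obtain ⟨tv, htv⟩ := hTD.sub v
    obtain ⟨tyu, htyu⟩ := hTD.sub (y u)
    obtain ⟨tyv, htyv⟩ := hTD.sub (y v)
    obtain ⟨tw, htw⟩ := htu.union htv (ht u hu) (ht v hv)
    obtain ⟨j, hj1, hj2, hj3⟩ := htw.helly htyu htyv
      ⟨a u, Finset.mem_union_left _ (ha1 u hu), hmem u hu⟩
      ⟨a v, Finset.mem_union_right _ (ha1 v hv), hmem v hv⟩ ⟨i, hi1, hi2⟩
    rcases Finset.mem_union.1 hj1 with h1 | h1
    · exact hdis u hu v hv huv j h1 hj3
    · exact hdis v hv u hu huv.symm j h1 hj2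

omit [Fintype V] [Fintype ι] in
/-- Either `B u` is a single node, or `u` has a neighbour `y` whose subtree meets `B u` in exactly
one node `a`; the second case is stated as: every vertex meeting `B u` and adjacent to `y`
contains `a`. -/
theorem exists_private {R : RT ι} {G : SimpleGraph V} {B : V → Finset ι}
    (hTD : IsTD R G B) (hmin : IsMin R G B) (u : V) :
    ∃ a ∈ B u, (∀ v, (∃ i, i ∈ B u ∧ i ∈ B v) → a ∈ B v) ∨
      ∃ y, G.Adj u y ∧ ∀ v, (∃ i, i ∈ B u ∧ i ∈ B v) → G.Adj v y → a ∈ B v := by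
  obtain ⟨t, ht⟩ := hTD.sub u
  by_cases h1 : B u = {t}
  · refine ⟨t, ht.1, Or.inl ?_⟩
    rintro v ⟨i, hi1, hi2⟩
    rw [h1, Finset.mem_singleton] at hi1
    exact hi1 ▸ hi2
  · -- a deepest node of `B u` is removable
    obtain ⟨a, ha, hamax⟩ := (B u).exists_max_image (fun a => R.dep a) ⟨t, ht.1⟩
    have hne : t ≠ a := by
      rintro rfl
      apply h1
      ext i
      rw [Finset.mem_singleton]
      refine ⟨fun hi => ?_, fun hi => hi ▸ ha⟩
      exact (RT.anc_antisymm (ht.anc hi) (hamax i hi)).symm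
    have hsub : R.IsSub ((B u).erase a) t := by
      refine ⟨Finset.mem_erase.2 ⟨hne, ht.1⟩, fun i hi => ?_⟩
      rw [Finset.mem_erase] at hi
      rcases ht.2 i hi.2 with e | ⟨g1, g2⟩
      · exact Or.inl e
      · refine Or.inr ⟨g1, Finset.mem_erase.2 ⟨?_, g2⟩⟩
        intro e
        have := hamax i hi.2
        rw [e] at g1
        omega
    obtain ⟨y, hy1, hy2⟩ := hmin u a ha ⟨t, hsub⟩
    refine ⟨a, ha, Or.inr ⟨y, hy1, ?_⟩⟩
    rintro v ⟨i, hi1, hi2⟩ hvy
    obtain ⟨tv, htv⟩ := hTD.sub v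
    obtain ⟨ty, hty⟩ := hTD.sub y
    obtain ⟨j, hj1, hj2, hj3⟩ := ht.helly htv hty ⟨i, hi1, hi2⟩ (hTD.edge _ _ hy1)
      (hTD.edge _ _ hvy)
    have := hy2 j hj3 hj1
    exact this ▸ hj2

/-- the graph `G` with all edges not inside `M` deleted -/
def restrictTo (G : SimpleGraph V) (M : Finset V) : SimpleGraph V where
  Adj u v := G.Adj u v ∧ u ∈ M ∧ v ∈ M
  symm := ⟨fun _ _ h => ⟨h.1.symm, h.2.2, h.2.1⟩⟩
  loopless := ⟨fun _ h => h.1.ne rfl⟩

omit [Fintype V] [Fintype ι] in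
/-- Vertices anticomplete to an edge `x y` which meet the subtree of the edge form a graph with a
smaller parameter. -/
theorem restrict_edge {R : RT ι} {G : SimpleGraph V} {B : V → Finset ι} {k : ℕ}
    (hTD : IsTD R G B) (hmu : MuLE G B (k + 1)) {x y : V} (hxy : G.Adj x y) (M : Finset V)
    (hM : ∀ v ∈ M, ¬ G.Adj v x ∧ ¬ G.Adj v y ∧ ∃ i, i ∈ B v ∧ i ∈ B x ∪ B y) :
    ∃ B' : V → Finset ι, IsTD R (restrictTo G M) B' ∧ MuLE (restrictTo G M) B' k := by
  classical
  obtain ⟨tx, htx⟩ := hTD.sub x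
  obtain ⟨ty, hty⟩ := hTD.sub y
  obtain ⟨i0, hi0x, hi0y⟩ := hTD.edge _ _ hxy
  obtain ⟨tw, htw⟩ := htx.union hty hi0x hi0y
  refine ⟨fun v => if v ∈ M then B v ∩ (B x ∪ B y) else {i0}, ⟨?_, ?_⟩, ?_⟩
  · intro v
    by_cases hv : v ∈ M
    · simp only [hv, if_true]
      obtain ⟨tv, htv⟩ := hTD.sub v
      obtain ⟨i, hi1, hi2⟩ := (hM v hv).2.2
      exact htv.inter htw hi1 hi2
    · simp only [hv, if_false]
      exact ⟨i0, RT.isSub_singleton i0⟩
  · rintro u v ⟨huv, hu, hv⟩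
    simp only [hu, hv, if_true]
    obtain ⟨tu, htu⟩ := hTD.sub u
    obtain ⟨tv, htv⟩ := hTD.sub v
    obtain ⟨j, hj1, hj2, hj3⟩ := htu.helly htv htw (hTD.edge _ _ huv) (hM u hu).2.2 (hM v hv).2.2
    exact ⟨j, Finset.mem_inter.2 ⟨hj1, hj3⟩, Finset.mem_inter.2 ⟨hj2, hj3⟩⟩
  · intro t s b hs him
    rcases s.eq_empty_or_nonempty with rfl | ⟨v0, hv0⟩
    · simp
    have hsM : ∀ v ∈ s, v ∈ M ∧ b v ∈ M := fun v hv => (him.1 v hv).2
    have htB : ∀ v ∈ s, t ∈ B v ∧ t ∈ B x ∪ B y := by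
      intro v hv
      have := hs v hv
      simp only [(hsM v hv).1, if_true] at this
      exact Finset.mem_inter.1 this
    have him' : IM G s b := by
      refine ⟨fun v hv => (him.1 v hv).1, fun u hu v hv huv => ?_⟩
      obtain ⟨h1, h2, h3⟩ := him.2 u hu v hv huv
      exact ⟨fun h => h1 ⟨h, (hsM u hu).1, (hsM v hv).1⟩,
        fun h => h2 ⟨h, (hsM u hu).1, (hsM v hv).2⟩,
        fun h => h3 ⟨h, (hsM u hu).2, (hsM v hv).2⟩⟩
    rcases Finset.mem_union.1 (htB v0 hv0).2 with ht | ht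
    · obtain ⟨h1, h2⟩ := him'.insert hxy (fun v hv =>
        ⟨(hM v (hsM v hv).1).1, (hM v (hsM v hv).1).2.1, (hM _ (hsM v hv).2).1,
          (hM _ (hsM v hv).2).2.1⟩)
      have h3 := hmu t _ _ ?_ h2
      · rw [Finset.card_insert_of_notMem h1] at h3
        omega
      · intro v hv
        rcases Finset.mem_insert.1 hv with e | hv
        · exact e ▸ ht
        · exact (htB v hv).1
    · obtain ⟨h1, h2⟩ := him'.insert hxy.symm (fun v hv =>
        ⟨(hM v (hsM v hv).1).2.1, (hM v (hsM v hv).1).1, (hM _ (hsM v hv).2).2.1,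
          (hM _ (hsM v hv).2).1⟩)
      have h3 := hmu t _ _ ?_ h2
      · rw [Finset.card_insert_of_notMem h1] at h3
        omega
      · intro v hv
        rcases Finset.mem_insert.1 hv with e | hv
        · exact e ▸ ht
        · exact (htB v hv).1

omit [Fintype ι] in
/-- colouring of a bag -/
theorem bag_coloring {G : SimpleGraph V} {B : V → Finset ι} {k m : ℕ}
    (hmu : MuLE G B k) (hcf : G.CliqueFree (m + 1)) (X : Finset V) (t : ι)
    (hX : ∀ v ∈ X, t ∈ B v) :
    ∃ f : V → ℕ, (∀ v ∈ X, f v < m ^ (2 * k)) ∧ ∀ u ∈ X, ∀ v ∈ X, G.Adj u v → f u ≠ f v :=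
  wagon G m hcf k X (fun s hs b _ him => hmu t s b (fun v hv => hX v (hs hv)) him)

end Pool.Agent.Work.MP_41f3d4_co
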