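import Mathlib
import Pool.Agent.Work.MP_41f3d4_co.Decomp

set_option autoImplicit false

namespace Pool.Agent.Work.MP_41f3d4_co

open SimpleGraph

/-- the tree decompositions of the frozen statement give rooted ones -/
theorem convert {V : Type} [Fintype V] [DecidableEq V] (G : SimpleGraph V) (k n : ℕ)
    (T : SimpleGraph (Fin n)) (bag : Fin n → Finset V) (hT : T.IsTree)
    (h1 : ∀ v : V, ∃ i : Fin n, v ∈ bag i)
    (h2 : ∀ u v : V, G.Adj u v → ∃ i : Fin n, u ∈ bag i ∧ v ∈ bag i)
    (h3 : ∀ v : V, ∀ i j : Fin n, v ∈ bag i → v ∈ bag j →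
      ∃ p : T.Walk i j, ∀ x ∈ p.support, v ∈ bag x)
    (h4 : ∀ i : Fin n, ∀ S : Finset V,
      (∀ v ∈ S, ∃! u : V, u ∈ S ∧ G.Adj v u) →
      (∀ v ∈ S, ∃ u ∈ S, G.Adj v u ∧ (v ∈ bag i ∨ u ∈ bag i)) → S.card ≤ 2 * k) :
    ∃ (R : RT (Fin n)) (r : Fin n) (B : V → Finset (Fin n)),
      (∀ i, R.anc r i) ∧ IsTD R G B ∧ MuLE G B k := by
  classical
  obtain ⟨r⟩ : Nonempty (Fin n) := hT.1.nonempty
  refine ⟨toRT T r, r, fun v => Finset.univ.filter (fun i => v ∈ bag i), toRT_anc_root hT r,
    ⟨?_, ?_⟩, ?_⟩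
  · intro v
    obtain ⟨i, hi⟩ := h1 v
    apply toRT_isSub hT r _ ⟨i, by simpa using hi⟩
    intro i hi j hj
    simp only [Finset.mem_filter, Finset.mem_univ, true_and] at hi hj ⊢
    exact h3 v i j hi hj
  · intro u v huv
    obtain ⟨i, hi1, hi2⟩ := h2 u v huv
    exact ⟨i, by simpa using hi1, by simpa using hi2⟩
  · intro t s b hs him
    simp only [Finset.mem_filter, Finset.mem_univ, true_and] at hs
    have hdisj : Disjoint s (s.image b) := by
      rw [Finset.disjoint_left]
      intro v hv hv'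
      obtain ⟨w, hw, hwv⟩ := Finset.mem_image.1 hv'
      by_cases hvw : v = w
      · subst hvw
        exact (him.1 v hv).ne hwv.symm
      · have := him.1 w hw
        rw [hwv] at this
        exact (him.2 w hw v hv (fun e => hvw e.symm)).1 this
    have hinj : Set.InjOn b s := by
      intro u hu v hv huv
      by_contra hne
      have h5 := (him.2 u hu v hv hne).2.1
      exact h5 (huv ▸ him.1 u hu)
    have hcard : (s ∪ s.image b).card = 2 * s.card := by
      rw [Finset.card_union_of_disjoint hdisj, Finset.card_image_of_injOn hinj]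
      ring
    have h5 := h4 t (s ∪ s.image b) ?_ ?_
    · rw [hcard] at h5; omega
    · intro v hv
      rcases Finset.mem_union.1 hv with hv | hv
      · refine ⟨b v, ⟨Finset.mem_union_right _ (Finset.mem_image_of_mem b hv), him.1 v hv⟩, ?_⟩
        rintro u ⟨hu, huv⟩
        rcases Finset.mem_union.1 hu with hu | hu
        · exact absurd huv (him.2 v hv u hu huv.ne).1
        · obtain ⟨w, hw, rfl⟩ := Finset.mem_image.1 hu
          by_cases hvw : v = w
          · rw [hvw]
          · exact absurd huv (him.2 v hv w hw hvw).2.1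
      · obtain ⟨w, hw, rfl⟩ := Finset.mem_image.1 hv
        refine ⟨w, ⟨Finset.mem_union_left _ hw, (him.1 w hw).symm⟩, ?_⟩
        rintro u ⟨hu, huv⟩
        rcases Finset.mem_union.1 hu with hu | hu
        · by_contra hne
          exact (him.2 u hu w hw hne).2.1 huv.symm
        · obtain ⟨w', hw', rfl⟩ := Finset.mem_image.1 hu
          by_cases hww : w = w'
          · subst hww
            exact absurd rfl huv.ne
          · exact absurd huv (him.2 w hw w' hw' hww).2.2
    · intro v hv
      rcases Finset.mem_union.1 hv with hv | hv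
      · exact ⟨b v, Finset.mem_union_right _ (Finset.mem_image_of_mem b hv), him.1 v hv,
          Or.inl (hs v hv)⟩
      · obtain ⟨w, hw, rfl⟩ := Finset.mem_image.1 hv
        exact ⟨w, Finset.mem_union_left _ hw, (him.1 w hw).symm, Or.inr (hs w hw)⟩

end Pool.Agent.Work.MP_41f3d4_co
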