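import Mathlib
import Pool.Agent.Work.MP_41f3d4_co.Decomp

set_option autoImplicit false

namespace Pool.Agent.Work.MP_41f3d4_co

open SimpleGraph

theorem extend_inj {Λ : Type} [DecidableEq Λ] (A : Finset Λ) (ψ : Λ → ℕ) (g : ℕ)
    (hinj : Set.InjOn ψ A) (hlt : ∀ a ∈ A, ψ a < g) :
    ∀ S : Finset Λ, Disjoint A S → (A ∪ S).card ≤ g →
      ∃ ψ' : Λ → ℕ, (∀ a ∈ A, ψ' a = ψ a) ∧ Set.InjOn ψ' (A ∪ S : Finset Λ) ∧
        ∀ a ∈ A ∪ S, ψ' a < g := by
  intro S
  induction S using Finset.induction_on with
  | empty =>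
    intro _ _
    rw [Finset.union_empty]
    exact ⟨ψ, fun _ _ => rfl, hinj, hlt⟩
  | insert x S hxS ih =>
    intro hd hc
    rw [Finset.disjoint_insert_right] at hd
    have hx : x ∉ A ∪ S := by
      rw [Finset.mem_union]
      push Not
      exact ⟨hd.1, hxS⟩
    rw [Finset.union_insert, Finset.card_insert_of_notMem hx] at hc
    obtain ⟨ψ', h1, h2, h3⟩ := ih hd.2 (by omega)
    have hc' : ((A ∪ S).image ψ').card < (Finset.range g).card := by
      rw [Finset.card_range]
      exact lt_of_le_of_lt Finset.card_image_le (by omega)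
    obtain ⟨c, hc1, hc2⟩ := Finset.exists_mem_notMem_of_card_lt_card hc'
    rw [Finset.mem_range] at hc1
    refine ⟨Function.update ψ' x c, ?_, ?_, ?_⟩
    · intro a ha
      rw [Function.update_of_ne (ne_of_mem_of_not_mem (Finset.mem_union_left _ ha) hx), h1 a ha]
    · rw [Finset.union_insert]
      intro a ha b hb hab
      rw [Finset.mem_coe, Finset.mem_insert] at ha hb
      rcases ha with e | ha
      · rcases hb with e' | hb
        · rw [e, e']
        · exfalso
          rw [e, Function.update_self, Function.update_of_ne (ne_of_mem_of_not_mem hb hx)] at hab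
          exact hc2 (Finset.mem_image.2 ⟨b, hb, hab.symm⟩)
      · rcases hb with e' | hb
        · exfalso
          rw [e', Function.update_self, Function.update_of_ne (ne_of_mem_of_not_mem ha hx)] at hab
          exact hc2 (Finset.mem_image.2 ⟨a, ha, hab⟩)
        · rw [Function.update_of_ne (ne_of_mem_of_not_mem ha hx),
            Function.update_of_ne (ne_of_mem_of_not_mem hb hx)] at hab
          exact h2 ha hb hab
    · intro a ha
      rw [Finset.union_insert, Finset.mem_insert] at ha
      rcases ha with e | ha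
      · rw [e, Function.update_self]; exact hc1
      · rw [Function.update_of_ne (ne_of_mem_of_not_mem ha hx)]
        exact h3 a ha

variable {V ι : Type} [Fintype V] [DecidableEq V] [Fintype ι] [DecidableEq ι]

/-- A proper labelling such that every bag sees at most `g` labels yields a `g`-colouring. -/
theorem label_coloring {R : RT ι} {G : SimpleGraph V} {B : V → Finset ι} (hTD : IsTD R G B)
    {Λ : Type} [DecidableEq Λ] (L : V → Λ) (hL : ∀ u v, G.Adj u v → L u ≠ L v) (g : ℕ)
    (hg : ∀ t, ((Finset.univ.filter (fun v => t ∈ B v)).image L).card ≤ g) :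
    G.Colorable g := by
  classical
  choose top htop using hTD.sub
  have key : ∀ n : ℕ, ∃ φ : V → ℕ, ∀ t, R.dep t < n → (∀ v, t ∈ B v → φ v < g) ∧
      (∀ u v, t ∈ B u → t ∈ B v → (φ u = φ v ↔ L u = L v)) := by
    intro n
    induction n with
    | zero => exact ⟨fun _ => 0, fun t ht => absurd ht (by omega)⟩
    | succ n ih =>
      obtain ⟨φ, hφ⟩ := ih
      have hpar : ∀ v t, t ∈ B v → top v ≠ t → R.dep (R.par t) < R.dep t ∧ R.par t ∈ B v := by
        intro v t ht hne
        rcases (htop v).2 t ht with e | h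
        · exact absurd e.symm hne
        · exact h
      have hext : ∀ t, R.dep t = n → ∃ ψ : Λ → ℕ, (∀ v, t ∈ B v → top v ≠ t → ψ (L v) = φ v) ∧
          Set.InjOn ψ ((Finset.univ.filter (fun v => t ∈ B v)).image L : Finset Λ) ∧
          ∀ v, t ∈ B v → ψ (L v) < g := by
        intro t ht
        let A : Finset Λ := (Finset.univ.filter (fun v => t ∈ B v ∧ top v ≠ t)).image L
        let D : Finset Λ := (Finset.univ.filter (fun v => t ∈ B v)).image L
        have hAD : A ⊆ D := by
          intro a ha
          simp only [A, D, Finset.mem_image, Finset.mem_filter, Finset.mem_univ, true_and] at ha ⊢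
          obtain ⟨v, ⟨hv, _⟩, hva⟩ := ha
          exact ⟨v, hv, hva⟩
        let ψ0 : Λ → ℕ := fun a =>
          if h : ∃ v, (t ∈ B v ∧ top v ≠ t) ∧ L v = a then φ h.choose else 0
        have hψ0 : ∀ v, t ∈ B v → top v ≠ t → ψ0 (L v) = φ v := by
          intro v hv hvt
          have h : ∃ v', (t ∈ B v' ∧ top v' ≠ t) ∧ L v' = L v := ⟨v, ⟨hv, hvt⟩, rfl⟩
          simp only [ψ0, dif_pos h]
          obtain ⟨⟨h1, h2⟩, h3⟩ := h.choose_spec
          have h4 := hpar _ _ h1 h2
          have h5 := hpar _ _ hv hvt
          exact ((hφ (R.par t) (by omega)).2 _ _ h4.2 h5.2).2 h3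
        have hA : ∀ a ∈ A, ∃ v, t ∈ B v ∧ top v ≠ t ∧ L v = a := by
          intro a ha
          simp only [A, Finset.mem_image, Finset.mem_filter, Finset.mem_univ, true_and] at ha
          obtain ⟨v, ⟨h1, h2⟩, h3⟩ := ha
          exact ⟨v, h1, h2, h3⟩
        have hsd : A ∪ (D \ A) = D := Finset.union_sdiff_of_subset hAD
        obtain ⟨ψ, h1, h2, h3⟩ := extend_inj A ψ0 g (by
          intro a ha b hb hab
          obtain ⟨u, hu1, hu2, rfl⟩ := hA a ha
          obtain ⟨v, hv1, hv2, rfl⟩ := hA b hb
          rw [hψ0 u hu1 hu2, hψ0 v hv1 hv2] at hab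
          have h4 := hpar _ _ hu1 hu2
          have h5 := hpar _ _ hv1 hv2
          exact ((hφ (R.par t) (by omega)).2 _ _ h4.2 h5.2).1 hab) (by
          intro a ha
          obtain ⟨u, hu1, hu2, rfl⟩ := hA a ha
          rw [hψ0 u hu1 hu2]
          have h4 := hpar _ _ hu1 hu2
          exact (hφ (R.par t) (by omega)).1 _ h4.2) (D \ A) Finset.disjoint_sdiff
          (by rw [hsd]; exact hg t)
        rw [hsd] at h2 h3
        refine ⟨ψ, ?_, h2, ?_⟩
        · intro v hv hvt
          rw [h1 _ (Finset.mem_image.2 ⟨v, Finset.mem_filter.2 ⟨Finset.mem_univ _, hv, hvt⟩, rfl⟩)]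
          exact hψ0 v hv hvt
        · intro v hv
          exact h3 _ (Finset.mem_image.2 ⟨v, Finset.mem_filter.2 ⟨Finset.mem_univ _, hv⟩, rfl⟩)
      choose! ψ hψ1 hψ2 hψ3 using hext
      refine ⟨fun v => if R.dep (top v) = n then ψ (top v) (L v) else φ v, ?_⟩
      intro t ht
      have hval : R.dep t = n → ∀ v, t ∈ B v →
          (if R.dep (top v) = n then ψ (top v) (L v) else φ v) = ψ t (L v) := by
        intro hn v hv
        by_cases hvt : top v = t
        · rw [hvt, if_pos hn]
        · have h1 := hpar v t hv hvt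
          have h2 := RT.anc_dep ((htop v).anc h1.2)
          rw [if_neg (by omega), hψ1 t hn v hv hvt]
      have hval' : R.dep t < n → ∀ v, t ∈ B v →
          (if R.dep (top v) = n then ψ (top v) (L v) else φ v) = φ v := by
        intro hn v hv
        have h2 := RT.anc_dep ((htop v).anc hv)
        rw [if_neg (by omega)]
      rcases Nat.lt_or_ge (R.dep t) n with hn | hn
      · refine ⟨?_, ?_⟩
        · intro v hv
          beta_reduce
          rw [hval' hn v hv]
          exact (hφ t hn).1 v hv
        · intro u v hu hv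
          beta_reduce
          rw [hval' hn v hv, hval' hn u hu]
          exact (hφ t hn).2 u v hu hv
      · have hn' : R.dep t = n := by omega
        refine ⟨?_, ?_⟩
        · intro v hv
          beta_reduce
          rw [hval hn' v hv]
          exact hψ3 t hn' v hv
        · intro u v hu hv
          beta_reduce
          rw [hval hn' v hv, hval hn' u hu]
          constructor
          · intro h
            exact hψ2 t hn' (Finset.mem_coe.2 (Finset.mem_image.2
              ⟨u, Finset.mem_filter.2 ⟨Finset.mem_univ _, hu⟩, rfl⟩))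
              (Finset.mem_coe.2 (Finset.mem_image.2
              ⟨v, Finset.mem_filter.2 ⟨Finset.mem_univ _, hv⟩, rfl⟩)) h
          · intro h
            rw [h]
  obtain ⟨φ, hφ⟩ := key (Finset.univ.sup R.dep + 1)
  have hall : ∀ t, R.dep t < Finset.univ.sup R.dep + 1 := fun t =>
    Nat.lt_succ_of_le (Finset.le_sup (f := R.dep) (Finset.mem_univ t))
  refine ⟨Coloring.mk (fun v => ⟨φ v, (hφ (top v) (hall _)).1 v (htop v).1⟩) ?_⟩
  intro u v huv h
  obtain ⟨t, ht1, ht2⟩ := hTD.edge u v huv
  have h' : φ u = φ v := congrArg Fin.val h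
  exact hL u v huv (((hφ t (hall _)).2 u v ht1 ht2).1 h')

end Pool.Agent.Work.MP_41f3d4_co
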