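import Mathlib
import Pool.Agent.Work.MP_41f3d4_co.Decomp

set_option autoImplicit false

namespace Pool.Agent.Work.MP_41f3d4_co

open SimpleGraph

/-- recursion along the parent map -/
theorem rec_exists {ι α : Type} (R : RT ι) (F : ι → α → α) (base : ι → α) :
    ∃ g : ι → α, ∀ t, g t = if R.dep (R.par t) < R.dep t then F t (g (R.par t)) else base t := by
  classical
  let g : ι → α := (measure R.dep).wf.fix
    (fun t r => if h : R.dep (R.par t) < R.dep t then F t (r (R.par t) h) else base t)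
  refine ⟨g, fun t => ?_⟩
  have h : g t = _ := (measure R.dep).wf.fix_eq
    (fun t r => if h : R.dep (R.par t) < R.dep t then F t (r (R.par t) h) else base t) t
  rw [h]
  by_cases h1 : R.dep (R.par t) < R.dep t
  · rw [dif_pos h1, if_pos h1]
  · rw [dif_neg h1, if_neg h1]

variable {V ι : Type} [Fintype V] [DecidableEq V] [Fintype ι] [DecidableEq ι]

/-- `gen` assigns to every node the top node of its region (generation) with respect to `W`. -/
def IsGen (R : RT ι) (B : V → Finset ι) (W : Finset V) (gen : ι → ι) : Prop :=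
  (∀ t, R.dep (R.par t) < R.dep t → (∃ v ∈ W, gen (R.par t) ∈ B v ∧ t ∈ B v) →
    gen t = gen (R.par t)) ∧
  (∀ t, ¬ (R.dep (R.par t) < R.dep t ∧ ∃ v ∈ W, gen (R.par t) ∈ B v ∧ t ∈ B v) → gen t = t)

omit [Fintype V] [DecidableEq V] [Fintype ι] [DecidableEq ι] in
theorem exists_gen (R : RT ι) (B : V → Finset ι) (W : Finset V) :
    ∃ gen : ι → ι, IsGen R B W gen := by
  classical
  obtain ⟨g, hg⟩ := rec_exists R
    (fun t x => if ∃ v ∈ W, x ∈ B v ∧ t ∈ B v then x else t) (fun t => t)
  refine ⟨g, ?_, ?_⟩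
  · intro t h1 h2
    rw [hg t, if_pos h1, if_pos h2]
  · intro t h
    rw [hg t]
    by_cases h1 : R.dep (R.par t) < R.dep t
    · rw [if_pos h1, if_neg (fun h2 => h ⟨h1, h2⟩)]
    · rw [if_neg h1]

section gen

variable {R : RT ι} {B : V → Finset ι} {W : Finset V} {gen : ι → ι}

omit [Fintype V] [DecidableEq V] [Fintype ι] [DecidableEq ι] in
theorem IsGen.cases (hg : IsGen R B W gen) (t : ι) :
    gen t = t ∨ (R.dep (R.par t) < R.dep t ∧ (∃ v ∈ W, gen (R.par t) ∈ B v ∧ t ∈ B v) ∧
      gen t = gen (R.par t)) := by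
  by_cases h : R.dep (R.par t) < R.dep t ∧ ∃ v ∈ W, gen (R.par t) ∈ B v ∧ t ∈ B v
  · exact Or.inr ⟨h.1, h.2, hg.1 t h.1 h.2⟩
  · exact Or.inl (hg.2 t h)

omit [Fintype V] [DecidableEq V] [Fintype ι] [DecidableEq ι] in
theorem IsGen.facts (hg : IsGen R B W gen) (t : ι) :
    R.anc (gen t) t ∧ gen (gen t) = gen t ∧
      ∀ x, R.anc (gen t) x → R.anc x t → gen x = gen t := by
  induction hn : R.dep t using Nat.strong_induction_on generalizing t with
  | _ n ih =>
    rcases hg.cases t with h | ⟨h1, h2, h3⟩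
    · refine ⟨?_, ?_, ?_⟩
      · rw [h]; exact RT.anc_refl t
      · rw [h, h]
      · intro x hx1 hx2
        rw [h] at hx1
        rw [RT.anc_antisymm' hx2 hx1]
    · obtain ⟨i1, i2, i3⟩ := ih _ (hn ▸ h1) (R.par t) rfl
      refine ⟨?_, ?_, ?_⟩
      · rw [h3]; exact RT.anc_trans i1 (RT.step_anc ⟨rfl, h1⟩)
      · rw [h3, i2]
      · intro x hx1 hx2
        rcases RT.anc_cases hx2 with e | ⟨_, e⟩
        · rw [e]
        · rw [h3] at hx1 ⊢
          exact i3 x hx1 e

omit [Fintype V] [DecidableEq V] [Fintype ι] [DecidableEq ι] in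
theorem IsGen.witness (hg : IsGen R B W gen) {v : V} (hv : v ∈ W) {t : ι} (ht : t ∈ B v) :
    ∃ v' ∈ W, gen t ∈ B v' ∧ t ∈ B v' := by
  rcases hg.cases t with h | ⟨_, h2, h3⟩
  · exact ⟨v, hv, by rw [h]; exact ht, ht⟩
  · rw [h3]; exact h2

omit [Fintype V] [DecidableEq V] [Fintype ι] [DecidableEq ι] in
/-- A vertex lives in its own region and in the child regions only. -/
theorem IsGen.two (hg : IsGen R B W gen) {v : V} (hv : v ∈ W) {tv : ι} (htv : R.IsSub (B v) tv)
    {t : ι} (ht : t ∈ B v) :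
    gen t = gen tv ∨ (gen t ∈ B v ∧ R.dep (R.par (gen t)) < R.dep (gen t) ∧
      gen (R.par (gen t)) = gen tv) := by
  obtain ⟨h1, h2, h3⟩ := hg.facts t
  rcases RT.anc_total h1 (htv.anc ht) with e | e
  · exact Or.inl (h3 tv e (htv.anc ht)).symm
  · by_cases hne : gen t = tv
    · left
      rw [← hne, h2]
    · right
      have hmem : gen t ∈ B v := htv.mid ht h1 e
      rcases htv.2 _ hmem with e' | ⟨e1, e2⟩
      · exact absurd e' hne
      · refine ⟨hmem, e1, ?_⟩
        obtain ⟨g1, g2, g3⟩ := hg.facts (R.par (gen t))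
        rcases RT.anc_total g1 (htv.anc e2) with e3 | e3
        · exact (g3 tv e3 (htv.anc e2)).symm
        · exfalso
          have hq : gen (R.par (gen t)) ∈ B v := htv.mid e2 g1 e3
          have := hg.1 (gen t) e1 ⟨v, hv, hq, hmem⟩
          rw [h2] at this
          rw [← this] at g1
          have := RT.anc_dep g1
          omega

end gen

end Pool.Agent.Work.MP_41f3d4_co
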