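import Mathlib
import Pool.Agent.Work.MP_41f3d4_co.Decomp
import Pool.Agent.Work.MP_41f3d4_co.Gen

set_option autoImplicit false

namespace Pool.Agent.Work.MP_41f3d4_co

open SimpleGraph

variable {V ι : Type} [Fintype V] [DecidableEq V] [Fintype ι] [DecidableEq ι]

/-- `Q` is a clique -/
def Clq (G : SimpleGraph V) (Q : Finset V) : Prop := ∀ x ∈ Q, ∀ y ∈ Q, x ≠ y → G.Adj x y

/-- every clique inside `A` has at most `a` elements -/
def CL (G : SimpleGraph V) (A : Finset V) (a : ℕ) : Prop :=
  ∀ Q : Finset V, Q ⊆ A → Clq G Q → Q.card ≤ a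

omit [Fintype V] [DecidableEq V] in
theorem exists_max_clique (G : SimpleGraph V) (A : Finset V) :
    ∃ Q : Finset V, Q ⊆ A ∧ Clq G Q ∧ CL G A Q.card := by
  classical
  obtain ⟨Q, hQ, hmax⟩ := (A.powerset.filter (fun Q => Clq G Q)).exists_max_image
    (fun Q => Q.card) ⟨∅, Finset.mem_filter.2 ⟨Finset.empty_mem_powerset _, by simp [Clq]⟩⟩
  rw [Finset.mem_filter, Finset.mem_powerset] at hQ
  refine ⟨Q, hQ.1, hQ.2, ?_⟩
  intro Q' h1 h2
  exact hmax Q' (Finset.mem_filter.2 ⟨Finset.mem_powerset.2 h1, h2⟩)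

omit [Fintype ι] in
/-- minimal covers are thin -/
theorem min_cover {R : RT ι} {G : SimpleGraph V} {B : V → Finset ι} {k m : ℕ}
    (hTD : IsTD R G B) (hmu : MuLE G B k) (hmin : IsMin R G B) (hk : 1 ≤ k)
    (hcf : G.CliqueFree (m + 1)) (A : Finset V) :
    ∃ C ⊆ A, (∀ v ∈ A, ∀ t ∈ B v, ∃ u ∈ C, t ∈ B u) ∧
      ∀ t, (C.filter (fun v => t ∈ B v)).card ≤ k * m ^ (2 * k) := by
  classical
  obtain ⟨C, hC, hCmin⟩ := (A.powerset.filter (fun D => D.biUnion B = A.biUnion B)).exists_min_image
    (fun D => D.card) ⟨A, by simp⟩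
  rw [Finset.mem_filter, Finset.mem_powerset] at hC
  obtain ⟨hCA, hCU⟩ := hC
  have hirr : ∀ v ∈ C, ∃ a ∈ B v, ∀ x ∈ C, x ≠ v → a ∉ B x := by
    intro v hv
    by_contra hcon
    push Not at hcon
    have h1 := hCmin (C.erase v) ?_
    · have := Finset.card_erase_lt_of_mem hv
      have h1' : C.card ≤ (C.erase v).card := h1
      omega
    · rw [Finset.mem_filter, Finset.mem_powerset]
      refine ⟨(Finset.erase_subset _ _).trans hCA, ?_⟩
      rw [← hCU]
      ext i
      simp only [Finset.mem_biUnion, Finset.mem_erase]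
      constructor
      · rintro ⟨x, ⟨_, hx⟩, hi⟩
        exact ⟨x, hx, hi⟩
      · rintro ⟨x, hx, hi⟩
        by_cases hxv : x = v
        · subst hxv
          obtain ⟨y, hy1, hy2, hy3⟩ := hcon i hi
          exact ⟨y, ⟨hy2, hy1⟩, hy3⟩
        · exact ⟨x, ⟨hxv, hx⟩, hi⟩
  refine ⟨C, hCA, ?_, ?_⟩
  · intro v hv t ht
    have : t ∈ C.biUnion B := by
      rw [hCU]
      exact Finset.mem_biUnion.2 ⟨v, hv, ht⟩
    exact Finset.mem_biUnion.1 this
  · intro t
    obtain ⟨f, hf1, hf2⟩ := bag_coloring hmu hcf (C.filter (fun v => t ∈ B v)) t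
      (fun v hv => (Finset.mem_filter.1 hv).2)
    rw [Finset.card_eq_sum_card_fiberwise (f := f) (t := Finset.range (m ^ (2 * k)))
      (fun v hv => Finset.mem_coe.2 (Finset.mem_range.2 (hf1 v hv)))]
    calc ∑ c ∈ Finset.range (m ^ (2 * k)),
          ((C.filter (fun v => t ∈ B v)).filter (fun v => f v = c)).card
        ≤ ∑ c ∈ Finset.range (m ^ (2 * k)), k := by
          apply Finset.sum_le_sum
          intro c _
          apply irred_card hTD hmu hmin hk _ t
            (fun v hv => (Finset.mem_filter.1 (Finset.mem_filter.1 hv).1).2)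
          · intro x hx y hy hxy
            rw [Finset.mem_filter] at hx hy
            exact hf2 x hx.1 y hy.1 hxy (hx.2.trans hy.2.symm)
          · intro v hv
            rw [Finset.mem_filter, Finset.mem_filter] at hv
            obtain ⟨a, ha1, ha2⟩ := hirr v hv.1.1
            refine ⟨a, ha1, fun x hx hxv => ha2 x ?_ hxv⟩
            rw [Finset.mem_filter, Finset.mem_filter] at hx
            exact hx.1.1
      _ = k * m ^ (2 * k) := by
          rw [Finset.sum_const, Finset.card_range, smul_eq_mul, mul_comm]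

/-- the subtrees meet, but there is no edge -/
def Fake (G : SimpleGraph V) (B : V → Finset ι) (s v : V) : Prop :=
  v ≠ s ∧ ¬ G.Adj v s ∧ ∃ i, i ∈ B s ∧ i ∈ B v

/-- Output of the process: a kernel `U` and a labelling `σ`. -/
structure Out (G : SimpleGraph V) (B : V → Finset ι) (W U : Finset V) (σ : V → V)
    (c1 c2 h : ℕ) : Prop where
  sub : U ⊆ W
  cover : ∀ v ∈ W, ∀ t ∈ B v, ∃ u ∈ U, t ∈ B u
  lab : ∀ v ∈ W, σ v = v ∨ Fake G B (σ v) v
  thin : ∀ t a, CL G (U.filter (fun v => t ∈ B v)) a →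
    (U.filter (fun v => t ∈ B v)).card ≤ c1 * h * a
  few : ∀ t a, CL G (U.filter (fun v => t ∈ B v)) a →
    ((W.filter (fun v => t ∈ B v)).image σ).card ≤ c2 * h * a

omit [Fintype V] [Fintype ι] in
theorem process {R : RT ι} {G : SimpleGraph V} {B : V → Finset ι} (hTD : IsTD R G B)
    (P m : ℕ) (hmc : ∀ A : Finset V, ∃ C ⊆ A, (∀ v ∈ A, ∀ t ∈ B v, ∃ u ∈ C, t ∈ B u) ∧
      ∀ t, (C.filter (fun v => t ∈ B v)).card ≤ P) :
    ∀ h, h ≤ m → ∀ W : Finset V, CL G W h →
      ∃ (U : Finset V) (σ : V → V), Out G B W U σ (3 * P) (2 * (3 * P * m * m)) h := by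
  classical
  intro h
  induction h with
  | zero =>
    intro _ W hW
    have : W = ∅ := by
      by_contra hne
      obtain ⟨v, hv⟩ := Finset.nonempty_iff_ne_empty.2 hne
      have := hW {v} (by simpa using hv) (by
        intro a ha b hb hab
        rw [Finset.mem_singleton] at ha hb
        exact absurd (ha.trans hb.symm) hab)
      simp at this
    subst this
    exact ⟨∅, id, ⟨by simp, by simp, by simp, by simp, by simp⟩⟩
  | succ h IH =>
    intro hm W hW
    obtain ⟨gen, hg⟩ := exists_gen R B W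
    choose top htop using hTD.sub
    have IH' : ∀ A : Finset V, ∃ (U : Finset V) (σ : V → V), U ⊆ A ∧
        (CL G A h → Out G B A U σ (3 * P) (2 * (3 * P * m * m)) h) := by
      intro A
      by_cases hA : CL G A h
      · obtain ⟨U, σ, hU⟩ := IH (by omega) A hA
        exact ⟨U, σ, hU.sub, fun _ => hU⟩
      · exact ⟨∅, id, by simp, fun h => absurd h hA⟩
    choose UP sP hUP1 hUP2 using IH'
    choose mc hmc1 hmc2 hmc3 using hmc
    -- the new vertices
    obtain ⟨New, hNew⟩ : ∃ New : ι → Finset V, ∀ q v, v ∈ New q ↔ v ∈ W ∧ top v = q :=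
      ⟨fun q => W.filter (fun v => top v = q), fun q v => by simp⟩
    obtain ⟨Sf, hSf⟩ : ∃ Sf : ι → Finset V → Finset V, ∀ q K v,
        v ∈ Sf q K ↔ (v ∈ K ∧ q ∈ B v) ∨ v ∈ mc (New q) :=
      ⟨fun q K => K.filter (fun v => q ∈ B v) ∪ mc (New q), fun q K v => by simp⟩
    obtain ⟨Gf, hGf⟩ : ∃ Gf : ι → Finset V → Finset V, ∀ q K v,
        v ∈ Gf q K ↔ v ∈ W ∧ gen (top v) = q ∧ v ∉ Sf q K ∧
          ∀ s ∈ Sf q K, (∃ i, i ∈ B s ∧ i ∈ B v) → G.Adj v s :=
      ⟨fun q K => W.filter (fun v => gen (top v) = q ∧ v ∉ Sf q K ∧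
          ∀ s ∈ Sf q K, (∃ i, i ∈ B s ∧ i ∈ B v) → G.Adj v s), fun q K v => by simp⟩
    obtain ⟨Bf, hBf⟩ : ∃ Bf : ι → Finset V → Finset V, ∀ q K v,
        v ∈ Bf q K ↔ v ∈ W ∧ gen (top v) = q ∧ v ∉ Sf q K ∧
          ¬ ∀ s ∈ Sf q K, (∃ i, i ∈ B s ∧ i ∈ B v) → G.Adj v s :=
      ⟨fun q K => W.filter (fun v => gen (top v) = q ∧ v ∉ Sf q K ∧
          ¬ ∀ s ∈ Sf q K, (∃ i, i ∈ B s ∧ i ∈ B v) → G.Adj v s), fun q K v => by
            simp only [Finset.mem_filter]⟩
    obtain ⟨ker, hker⟩ := rec_exists R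
      (fun t K => if gen t = t then UP (Gf t K) ∪ mc (Bf t K) else K)
      (fun t => UP (Gf t ∅) ∪ mc (Bf t ∅))
    obtain ⟨pk, hpk1, hpk2⟩ : ∃ pk : ι → Finset V,
        (∀ q, R.dep (R.par q) < R.dep q → pk q = ker (R.par q)) ∧
        (∀ q, ¬ R.dep (R.par q) < R.dep q → pk q = ∅) :=
      ⟨fun q => if R.dep (R.par q) < R.dep q then ker (R.par q) else ∅,
        fun q hq => if_pos hq, fun q hq => if_neg hq⟩
    have hk1 : ∀ q, gen q = q → ker q = UP (Gf q (pk q)) ∪ mc (Bf q (pk q)) := by
      intro q hq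
      rw [hker q]
      by_cases h1 : R.dep (R.par q) < R.dep q
      · rw [if_pos h1, if_pos hq, hpk1 q h1]
      · rw [if_neg h1, hpk2 q h1]
    have hk2 : ∀ t, ker t = ker (gen t) := by
      intro t
      induction hn : R.dep t using Nat.strong_induction_on generalizing t with
      | _ n ih =>
        rcases hg.cases t with h1 | ⟨h1, h2, h3⟩
        · rw [h1]
        · by_cases h4 : gen t = t
          · rw [h4]
          · have h5 : ker t = ker (R.par t) := by
              rw [hker t, if_pos h1, if_neg h4]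
            rw [h5, ih _ (hn ▸ h1) (R.par t) rfl, h3]
    obtain ⟨S, hS⟩ : ∃ S : ι → Finset V, ∀ q, S q = Sf q (pk q) := ⟨_, fun _ => rfl⟩
    obtain ⟨Good, hGood⟩ : ∃ Good : ι → Finset V, ∀ q, Good q = Gf q (pk q) := ⟨_, fun _ => rfl⟩
    obtain ⟨Bad, hBad⟩ : ∃ Bad : ι → Finset V, ∀ q, Bad q = Bf q (pk q) := ⟨_, fun _ => rfl⟩
    have hSm : ∀ q v, v ∈ S q ↔ (v ∈ pk q ∧ q ∈ B v) ∨ v ∈ mc (New q) := by
      intro q v; rw [hS, hSf]
    have hGm : ∀ q v, v ∈ Good q ↔ v ∈ W ∧ gen (top v) = q ∧ v ∉ S q ∧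
          ∀ s ∈ S q, (∃ i, i ∈ B s ∧ i ∈ B v) → G.Adj v s := by
      intro q v; rw [hGood, hGf, hS]
    have hBm : ∀ q v, v ∈ Bad q ↔ v ∈ W ∧ gen (top v) = q ∧ v ∉ S q ∧
          ¬ ∀ s ∈ S q, (∃ i, i ∈ B s ∧ i ∈ B v) → G.Adj v s := by
      intro q v; rw [hBad, hBf, hS]
    have hk1' : ∀ q, gen q = q → ker q = UP (Good q) ∪ mc (Bad q) := by
      intro q hq; rw [hk1 q hq, hGood, hBad]
    have hgg : ∀ t, gen (gen t) = gen t := fun t => (hg.facts t).2.1
    have hkerm : ∀ t z, z ∈ ker t → z ∈ W ∧ gen (top z) = gen t := by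
      intro t z hz
      rw [hk2 t, hk1' _ (hgg t), Finset.mem_union] at hz
      rcases hz with hz | hz
      · have := (hGm _ _).1 (hUP1 _ hz)
        exact ⟨this.1, this.2.1⟩
      · have := (hBm _ _).1 (hmc1 _ hz)
        exact ⟨this.1, this.2.1⟩
    have hNm : ∀ q z, z ∈ mc (New q) → z ∈ W ∧ top z = q :=
      fun q z hz => (hNew q z).1 (hmc1 _ hz)
    have hpkm : ∀ q z, z ∈ pk q → R.dep (R.par q) < R.dep q ∧ z ∈ ker (R.par q) := by
      intro q z hz
      by_cases h1 : R.dep (R.par q) < R.dep q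
      · rw [hpk1 q h1] at hz; exact ⟨h1, hz⟩
      · rw [hpk2 q h1] at hz; exact absurd hz (Finset.notMem_empty z)
    have hSW : ∀ q v, v ∈ S q → v ∈ W ∧ q ∈ B v := by
      intro q v hv
      rcases (hSm q v).1 hv with ⟨h1, h2⟩ | h1
      · exact ⟨(hkerm _ _ (hpkm q v h1).2).1, h2⟩
      · have := hNm q v h1
        refine ⟨this.1, ?_⟩
        rw [← this.2]
        exact (htop v).1
    have hpar_ne : ∀ q, R.dep (R.par q) < R.dep q → gen (R.par q) ≠ q := by
      intro q h1 h2
      have := RT.anc_dep (hg.facts (R.par q)).1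
      rw [h2] at this
      omega
    -- the vertices of a region do not reach the top of the region from above
    have htopq : ∀ v, ∀ q, gen (top v) = q → q ∈ B v → top v = q := by
      intro v q h1 h2
      exact (RT.anc_antisymm' (h1 ▸ (hg.facts (top v)).1) ((htop v).anc h2)).symm
    have hT : ∀ q, gen q = q → CL G (Good q) h ∧
        ∀ t, gen t = q → (∃ v ∈ W, t ∈ B v) → ∃ s ∈ S q, t ∈ B s := by
      intro q
      induction hn : R.dep q using Nat.strong_induction_on generalizing q with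
      | _ n ih =>
        intro hq
        have hcov : ∀ t, gen t = q → (∃ v ∈ W, t ∈ B v) → ∃ s ∈ S q, t ∈ B s := by
          rintro t ht ⟨v', hv'W, hv't⟩
          obtain ⟨v, hvW, hvq, hvt⟩ := hg.witness hv'W hv't
          rw [ht] at hvq
          by_cases htv : top v = q
          · obtain ⟨s, hs1, hs2⟩ := hmc2 (New q) v ((hNew q v).2 ⟨hvW, htv⟩) t hvt
            exact ⟨s, (hSm q s).2 (Or.inr hs1), hs2⟩
          · rcases hg.two hvW (htop v) hvq with h1 | ⟨_, h2, h3⟩
            · rw [hq] at h1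
              exact absurd (htopq v q h1.symm hvq) htv
            · rw [hq] at h2 h3
              -- the parent region
              have hp : gen (gen (R.par q)) = gen (R.par q) := hgg _
              have hpd : R.dep (gen (R.par q)) < R.dep q :=
                lt_of_le_of_lt (RT.anc_dep (hg.facts (R.par q)).1) h2
              obtain ⟨ihC, ihcov⟩ := ih _ (hn ▸ hpd) (gen (R.par q)) rfl hp
              have hvS : v ∉ S (gen (R.par q)) := by
                intro hvS
                have h4 := (hSW _ _ hvS).2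
                have h5 := hg.1 q h2 ⟨v, hvW, h4, hvq⟩
                rw [hq] at h5
                exact hpar_ne q h2 h5.symm
              have hz : ∃ z ∈ ker (R.par q), t ∈ B z := by
                rw [hk2, hk1' _ hp]
                by_cases hall : ∀ s ∈ S (gen (R.par q)), (∃ i, i ∈ B s ∧ i ∈ B v) → G.Adj v s
                · obtain ⟨z, hz1, hz2⟩ := (hUP2 _ ihC).cover v
                    ((hGm _ _).2 ⟨hvW, h3.symm, hvS, hall⟩) t hvt
                  exact ⟨z, Finset.mem_union_left _ hz1, hz2⟩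
                · obtain ⟨z, hz1, hz2⟩ := hmc2 _ v
                    ((hBm _ _).2 ⟨hvW, h3.symm, hvS, hall⟩) t hvt
                  exact ⟨z, Finset.mem_union_right _ hz1, hz2⟩
              obtain ⟨z, hz1, hz2⟩ := hz
              obtain ⟨hzW, hzg⟩ := hkerm _ _ hz1
              refine ⟨z, (hSm q z).2 (Or.inl ⟨?_, ?_⟩), hz2⟩
              · rw [hpk1 q h2]; exact hz1
              · rcases hg.two hzW (htop z) hz2 with h4 | ⟨h4, _, _⟩
                · rw [ht, hzg] at h4
                  exact absurd h4.symm (hpar_ne q h2)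
                · rw [ht] at h4; exact h4
        refine ⟨?_, hcov⟩
        intro Q hQ hQc
        rcases Q.eq_empty_or_nonempty with rfl | hne
        · simp
        obtain ⟨z, hz, hzmax⟩ := Q.exists_max_image (fun v => R.dep (top v)) hne
        have hzQ := (hGm _ _).1 (hQ hz)
        have hall : ∀ y ∈ Q, top z ∈ B y := by
          intro y hy
          by_cases hyz : y = z
          · rw [hyz]; exact (htop z).1
          · obtain ⟨i, hi1, hi2⟩ := hTD.edge _ _ (hQc y hy z hz hyz)
            rcases (htop y).top_mem (htop z) hi1 hi2 with ⟨_, e⟩ | ⟨e1, e2⟩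
            · exact e
            · have : top z = top y := RT.anc_antisymm e1 (hzmax y hy)
              rw [this]; exact (htop y).1
        obtain ⟨s, hs1, hs2⟩ := hcov (top z) hzQ.2.1 ⟨z, hzQ.1, (htop z).1⟩
        have hsQ : s ∉ Q := fun hs => ((hGm _ _).1 (hQ hs)).2.2.1 hs1
        have h1 := hW (insert s Q) ?_ ?_
        · rw [Finset.card_insert_of_notMem hsQ] at h1
          omega
        · intro x hx
          rcases Finset.mem_insert.1 hx with e | hx
          · rw [e]; exact (hSW _ _ hs1).1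
          · exact ((hGm _ _).1 (hQ hx)).1
        · intro x hx y hy hxy
          rcases Finset.mem_insert.1 hx with e | hx
          · rcases Finset.mem_insert.1 hy with e' | hy
            · exact absurd (e.trans e'.symm) hxy
            · rw [e]
              exact (((hGm _ _).1 (hQ hy)).2.2.2 s hs1 ⟨top z, hs2, hall y hy⟩).symm
          · rcases Finset.mem_insert.1 hy with e' | hy
            · rw [e']
              exact ((hGm _ _).1 (hQ hx)).2.2.2 s hs1 ⟨top z, hs2, hall x hx⟩
            · exact hQc x hx y hy hxy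
    have hO : ∀ q, gen q = q → Out G B (Good q) (UP (Good q)) (sP (Good q)) (3 * P)
        (2 * (3 * P * m * m)) h := fun q hq => hUP2 _ (hT q hq).1
    -- the kernel
    obtain ⟨U, hU⟩ : ∃ U : Finset V, ∀ v, v ∈ U ↔
        ∃ q, gen q = q ∧ (v ∈ mc (New q) ∨ v ∈ ker q) := by
      refine ⟨W.filter (fun v => ∃ q, gen q = q ∧ (v ∈ mc (New q) ∨ v ∈ ker q)), fun v => ?_⟩
      rw [Finset.mem_filter]
      refine ⟨fun h => h.2, fun h => ⟨?_, h⟩⟩
      obtain ⟨q, _, h1 | h1⟩ := h
      · exact (hNm _ _ h1).1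
      · exact (hkerm _ _ h1).1
    have hUW : ∀ v, v ∈ U → v ∈ W := by
      intro v hv
      obtain ⟨q, _, h1 | h1⟩ := (hU v).1 hv
      · exact (hNm _ _ h1).1
      · exact (hkerm _ _ h1).1
    have hSU : ∀ q, gen q = q → ∀ v, v ∈ S q → v ∈ U := by
      intro q hq v hv
      rcases (hSm q v).1 hv with ⟨h1, _⟩ | h1
      · have h2 := (hpkm q v h1).2
        rw [hk2] at h2
        exact (hU v).2 ⟨_, hgg _, Or.inr h2⟩
      · exact (hU v).2 ⟨q, hq, Or.inl h1⟩
    have hUcov : ∀ v ∈ W, ∀ t ∈ B v, ∃ u ∈ U, t ∈ B u := by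
      intro v hv t ht
      obtain ⟨s, hs1, hs2⟩ := (hT (gen t) (hgg t)).2 t rfl ⟨v, hv, ht⟩
      exact ⟨s, hSU _ (hgg t) s hs1, hs2⟩
    -- the label
    have hsel : ∀ v, ∃ s, v ∈ Bad (gen (top v)) → s ∈ S (gen (top v)) ∧ Fake G B s v := by
      intro v
      by_cases hv : v ∈ Bad (gen (top v))
      · obtain ⟨h1, _, h3, h4⟩ := (hBm _ _).1 hv
        push Not at h4
        obtain ⟨s, hs1, hs2, hs3⟩ := h4
        exact ⟨s, fun _ => ⟨hs1, fun e => h3 (e ▸ hs1), hs3, hs2⟩⟩
      · exact ⟨v, fun h => absurd h hv⟩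
    choose sel hsel using hsel
    obtain ⟨σ, hσ1, hσ2, hσ3⟩ : ∃ σ : V → V,
        (∀ v, v ∈ Good (gen (top v)) → σ v = sP (Good (gen (top v))) v) ∧
        (∀ v, v ∈ Bad (gen (top v)) → σ v = sel v) ∧
        (∀ v, v ∈ S (gen (top v)) → σ v = v) := by
      refine ⟨fun v => if v ∈ Good (gen (top v)) then sP (Good (gen (top v))) v else
        if v ∈ Bad (gen (top v)) then sel v else v, ?_, ?_, ?_⟩
      · intro v hv
        exact if_pos hv
      · intro v hv
        have h1 : v ∉ Good (gen (top v)) := fun h =>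
          ((hBm _ _).1 hv).2.2.2 ((hGm _ _).1 h).2.2.2
        show (if v ∈ Good (gen (top v)) then sP (Good (gen (top v))) v else
          if v ∈ Bad (gen (top v)) then sel v else v) = sel v
        rw [if_neg h1, if_pos hv]
      · intro v hv
        have h1 : v ∉ Good (gen (top v)) := fun h => ((hGm _ _).1 h).2.2.1 hv
        have h2 : v ∉ Bad (gen (top v)) := fun h => ((hBm _ _).1 h).2.2.1 hv
        show (if v ∈ Good (gen (top v)) then sP (Good (gen (top v))) v else
          if v ∈ Bad (gen (top v)) then sel v else v) = v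
        rw [if_neg h1, if_neg h2]
    have hcl : ∀ v ∈ W, v ∈ Good (gen (top v)) ∨ v ∈ Bad (gen (top v)) ∨
        v ∈ S (gen (top v)) := by
      intro v hv
      by_cases h1 : v ∈ S (gen (top v))
      · exact Or.inr (Or.inr h1)
      · by_cases h2 : ∀ s ∈ S (gen (top v)), (∃ i, i ∈ B s ∧ i ∈ B v) → G.Adj v s
        · exact Or.inl ((hGm _ _).2 ⟨hv, rfl, h1, h2⟩)
        · exact Or.inr (Or.inl ((hBm _ _).2 ⟨hv, rfl, h1, h2⟩))
    -- what is alive at a node
    have halive : ∀ t v, v ∈ W → t ∈ B v → gen (top v) = gen t ∨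
        (gen t ∈ B v ∧ R.dep (R.par (gen t)) < R.dep (gen t) ∧
          gen (top v) = gen (R.par (gen t))) := by
      intro t v hv ht
      rcases hg.two hv (htop v) ht with h1 | ⟨h1, h2, h3⟩
      · exact Or.inl h1.symm
      · exact Or.inr ⟨h1, h2, h3.symm⟩
    have hUalive : ∀ t v, v ∈ U → t ∈ B v → v ∈ mc (New (gen t)) ∨ v ∈ ker (gen t) ∨
        (R.dep (R.par (gen t)) < R.dep (gen t) ∧ gen t ∈ B v ∧ v ∈ ker (R.par (gen t))) := by
      intro t v hv ht
      obtain ⟨q, hq, h1⟩ := (hU v).1 hv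
      have hvq : gen (top v) = q := by
        rcases h1 with h1 | h1
        · rw [(hNm _ _ h1).2, hq]
        · rw [(hkerm _ _ h1).2, hq]
      rcases halive t v (hUW v hv) ht with h2 | ⟨h2, h3, h4⟩
      · rw [hvq] at h2
        subst h2
        rcases h1 with h1 | h1
        · exact Or.inl h1
        · exact Or.inr (Or.inl h1)
      · right; right
        refine ⟨h3, h2, ?_⟩
        rw [hk2, ← h4, hvq]
        rcases h1 with h1 | h1
        · exfalso
          have h5 := (hNm _ _ h1).2
          have h6 : q ∈ B v := by rw [← h5]; exact (htop v).1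
          rw [← hvq, h4] at h6
          have h7 := hg.1 (gen t) h3 ⟨v, hUW v hv, h6, h2⟩
          rw [hgg] at h7
          exact hpar_ne _ h3 h7.symm
        · exact h1
    -- adding cliques
    have hadd : ∀ t a, CL G (U.filter (fun v => t ∈ B v)) a → ∀ Q1 Q2 : Finset V,
        Clq G Q1 → Clq G Q2 → (∀ z ∈ Q1, z ∈ UP (Good (gen t)) ∧ t ∈ B z) →
        (∀ z ∈ Q2, z ∈ S (gen t) ∧ t ∈ B z) → Q1.card + Q2.card ≤ a := by
      intro t a ha Q1 Q2 hc1 hc2 h1 h2
      have hG1 : ∀ z ∈ Q1, z ∈ Good (gen t) := fun z hz => hUP1 _ (h1 z hz).1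
      have hd : Disjoint Q1 Q2 := by
        rw [Finset.disjoint_left]
        intro z hz1 hz2
        exact ((hGm _ _).1 (hG1 z hz1)).2.2.1 (h2 z hz2).1
      rw [← Finset.card_union_of_disjoint hd]
      apply ha
      · intro z hz
        rcases Finset.mem_union.1 hz with hz | hz
        · refine Finset.mem_filter.2 ⟨(hU z).2 ⟨_, hgg t, Or.inr ?_⟩, (h1 z hz).2⟩
          rw [hk1' _ (hgg t)]
          exact Finset.mem_union_left _ (h1 z hz).1
        · exact Finset.mem_filter.2 ⟨hSU _ (hgg t) z (h2 z hz).1, (h2 z hz).2⟩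
      · intro x hx y hy hxy
        rcases Finset.mem_union.1 hx with hx | hx
        · rcases Finset.mem_union.1 hy with hy | hy
          · exact hc1 x hx y hy hxy
          · exact ((hGm _ _).1 (hG1 x hx)).2.2.2 y (h2 y hy).1 ⟨t, (h2 y hy).2, (h1 x hx).2⟩
        · rcases Finset.mem_union.1 hy with hy | hy
          · exact (((hGm _ _).1 (hG1 y hy)).2.2.2 x (h2 x hx).1
              ⟨t, (h2 x hx).2, (h1 y hy).2⟩).symm
          · exact hc2 x hx y hy hxy
    -- the data coming from the parent region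
    have hparent : ∀ t, ∃ (X Y : Finset V) (L : Finset V) (S' : Finset V),
        (∀ z ∈ X, z ∈ S (gen t) ∧ t ∈ B z) ∧ (∀ a, CL G X a → X.card ≤ 3 * P * h * a) ∧
        Y.card ≤ P ∧ (∀ a, CL G X a → L.card ≤ 2 * (3 * P * m * m) * h * a) ∧
        (S' = ∅ ∨ ∃ q, gen q = q ∧ S' = S q) ∧
        (∀ v, v ∈ ker (R.par (gen t)) → R.dep (R.par (gen t)) < R.dep (gen t) → t ∈ B v →
          gen t ∈ B v → v ∈ X ∨ v ∈ Y) ∧
        (∀ v ∈ W, t ∈ B v → gen (top v) ≠ gen t → σ v ∈ L ∨ σ v ∈ S') := by
      intro t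
      by_cases hs : R.dep (R.par (gen t)) < R.dep (gen t)
      · have hp := hgg (R.par (gen t))
        set q := gen (R.par (gen t)) with hq
        refine ⟨(UP (Good q)).filter (fun v => t ∈ B v), (mc (Bad q)).filter (fun v => t ∈ B v),
          ((Good q).filter (fun v => t ∈ B v)).image (sP (Good q)), S q, ?_, ?_, ?_, ?_, ?_, ?_, ?_⟩
        · intro z hz
          rw [Finset.mem_filter] at hz
          refine ⟨(hSm _ _).2 (Or.inl ⟨?_, ?_⟩), hz.2⟩
          · rw [hpk1 _ hs, hk2, ← hq, hk1' _ hp]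
            exact Finset.mem_union_left _ hz.1
          · have hzG := (hGm _ _).1 (hUP1 _ hz.1)
            rcases halive t z hzG.1 hz.2 with h1 | ⟨h1, _, _⟩
            · rw [hzG.2.1] at h1
              exact absurd h1 (hpar_ne _ hs)
            · exact h1
        · intro a ha
          exact (hO q hp).thin t a ha
        · exact hmc3 _ t
        · intro a ha
          exact (hO q hp).few t a ha
        · exact Or.inr ⟨q, hp, rfl⟩
        · intro v hv _ htv _
          rw [hk2, ← hq, hk1' _ hp, Finset.mem_union] at hv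
          rcases hv with hv | hv
          · exact Or.inl (Finset.mem_filter.2 ⟨hv, htv⟩)
          · exact Or.inr (Finset.mem_filter.2 ⟨hv, htv⟩)
        · intro v hv htv hne
          rcases halive t v hv htv with h1 | ⟨_, _, h3⟩
          · exact absurd h1 hne
          · rw [← hq] at h3
            rcases hcl v hv with h4 | h4 | h4
            · left
              rw [hσ1 v h4, h3]
              rw [h3] at h4
              exact Finset.mem_image.2 ⟨v, Finset.mem_filter.2 ⟨h4, htv⟩, rfl⟩
            · right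
              rw [hσ2 v h4]
              have := (hsel v h4).1
              rw [h3] at this
              exact this
            · right
              rw [hσ3 v h4]
              rw [h3] at h4
              exact h4
      · refine ⟨∅, ∅, ∅, ∅, by simp, by simp, by simp, by simp, Or.inl rfl, ?_, ?_⟩
        · intro v _ h1
          exact absurd h1 hs
        · intro v hv htv hne
          rcases halive t v hv htv with h1 | ⟨_, h2, _⟩
          · exact absurd h1 hne
          · exact absurd h2 hs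
    have hpos : ∀ t a, CL G (U.filter (fun v => t ∈ B v)) a → ∀ u ∈ U, t ∈ B u → 1 ≤ a := by
      intro t a ha u hu htu
      have := ha {u} (by
        intro x hx
        rw [Finset.mem_singleton] at hx
        rw [hx]
        exact Finset.mem_filter.2 ⟨hu, htu⟩) (by
        intro x hx y hy hxy
        rw [Finset.mem_singleton] at hx hy
        exact absurd (hx.trans hy.symm) hxy)
      simpa using this
    have hthin : ∀ t a, CL G (U.filter (fun v => t ∈ B v)) a →
        (U.filter (fun v => t ∈ B v)).card ≤ 3 * P * (h + 1) * a := by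
      intro t a ha
      rcases (U.filter (fun v => t ∈ B v)).eq_empty_or_nonempty with h0 | ⟨u, hu⟩
      · rw [h0]; simp
      have ha1 := hpos t a ha u (Finset.mem_filter.1 hu).1 (Finset.mem_filter.1 hu).2
      obtain ⟨X, Y, L, S', hX1, hX2, hY, _, _, hXY, _⟩ := hparent t
      obtain ⟨Q1, hQ1, hQ1c, hQ1m⟩ := exists_max_clique G
        ((UP (Good (gen t))).filter (fun v => t ∈ B v))
      obtain ⟨Q2, hQ2, hQ2c, hQ2m⟩ := exists_max_clique G X
      have hsum := hadd t a ha Q1 Q2 hQ1c hQ2c (fun z hz => Finset.mem_filter.1 (hQ1 hz))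
        (fun z hz => hX1 z (hQ2 hz))
      have hsub : U.filter (fun v => t ∈ B v) ⊆
          ((mc (New (gen t))).filter (fun v => t ∈ B v) ∪
          (mc (Bad (gen t))).filter (fun v => t ∈ B v)) ∪
          ((UP (Good (gen t))).filter (fun v => t ∈ B v) ∪ (X ∪ Y)) := by
        intro v hv
        obtain ⟨hvU, hvt⟩ := Finset.mem_filter.1 hv
        simp only [Finset.mem_union, Finset.mem_filter]
        rcases hUalive t v hvU hvt with h1 | h1 | ⟨h1, h2, h3⟩
        · exact Or.inl (Or.inl ⟨h1, hvt⟩)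
        · rw [hk1' _ (hgg t), Finset.mem_union] at h1
          rcases h1 with h1 | h1
          · exact Or.inr (Or.inl ⟨h1, hvt⟩)
          · exact Or.inl (Or.inr ⟨h1, hvt⟩)
        · exact Or.inr (Or.inr (hXY v h3 h1 hvt h2))
      have hc := Finset.card_le_card hsub
      have hc1 := Finset.card_union_le ((mc (New (gen t))).filter (fun v => t ∈ B v) ∪
          (mc (Bad (gen t))).filter (fun v => t ∈ B v))
          ((UP (Good (gen t))).filter (fun v => t ∈ B v) ∪ (X ∪ Y))
      have hc2 := Finset.card_union_le ((mc (New (gen t))).filter (fun v => t ∈ B v))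
          ((mc (Bad (gen t))).filter (fun v => t ∈ B v))
      have hc3 := Finset.card_union_le ((UP (Good (gen t))).filter (fun v => t ∈ B v)) (X ∪ Y)
      have hc4 := Finset.card_union_le X Y
      have hc5 := hmc3 (New (gen t)) t
      have hc6 := hmc3 (Bad (gen t)) t
      have hc7 := (hO (gen t) (hgg t)).thin t _ hQ1m
      have hc8 := hX2 _ hQ2m
      calc (U.filter (fun v => t ∈ B v)).card
          ≤ 3 * P * 1 + 3 * P * h * (Q1.card + Q2.card) := by
            rw [mul_add]
            omega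
        _ ≤ 3 * P * a + 3 * P * h * a :=
            add_le_add (Nat.mul_le_mul_left _ ha1) (Nat.mul_le_mul_left _ hsum)
        _ = 3 * P * (h + 1) * a := by ring
    have hScard : ∀ q, gen q = q → (S q).card ≤ 3 * P * m * m := by
      intro q hq
      have h1 : S q ⊆ U.filter (fun v => q ∈ B v) := fun v hv =>
        Finset.mem_filter.2 ⟨hSU q hq v hv, (hSW q v hv).2⟩
      refine (Finset.card_le_card h1).trans ?_
      have h2 : CL G (U.filter (fun v => q ∈ B v)) (h + 1) := fun Q hQ hQc =>
        hW Q (fun x hx => hUW x (Finset.mem_filter.1 (hQ hx)).1) hQc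
      refine (hthin q (h + 1) h2).trans ?_
      exact Nat.mul_le_mul (Nat.mul_le_mul_left _ hm) hm
    refine ⟨U, σ, fun v hv => hUW v hv, hUcov, ?_, hthin, ?_⟩
    · intro v hv
      rcases hcl v hv with h1 | h1 | h1
      · rw [hσ1 v h1]
        exact (hO _ (hgg _)).lab v h1
      · rw [hσ2 v h1]
        exact Or.inr (hsel v h1).2
      · exact Or.inl (hσ3 v h1)
    · intro t a ha
      rcases (W.filter (fun v => t ∈ B v)).eq_empty_or_nonempty with h0 | ⟨v0, hv0⟩
      · rw [h0]; simp
      obtain ⟨u, hu1, hu2⟩ := hUcov v0 (Finset.mem_filter.1 hv0).1 t (Finset.mem_filter.1 hv0).2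
      have ha1 := hpos t a ha u hu1 hu2
      obtain ⟨X, Y, L, S', hX1, _, _, hL, hS', _, hσL⟩ := hparent t
      obtain ⟨Q1, hQ1, hQ1c, hQ1m⟩ := exists_max_clique G
        ((UP (Good (gen t))).filter (fun v => t ∈ B v))
      obtain ⟨Q2, hQ2, hQ2c, hQ2m⟩ := exists_max_clique G X
      have hsum := hadd t a ha Q1 Q2 hQ1c hQ2c (fun z hz => Finset.mem_filter.1 (hQ1 hz))
        (fun z hz => hX1 z (hQ2 hz))
      have hsub : (W.filter (fun v => t ∈ B v)).image σ ⊆ (S (gen t) ∪ S') ∪
          (((Good (gen t)).filter (fun v => t ∈ B v)).image (sP (Good (gen t))) ∪ L) := by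
        intro x hx
        obtain ⟨v, hv, rfl⟩ := Finset.mem_image.1 hx
        obtain ⟨hvW, hvt⟩ := Finset.mem_filter.1 hv
        simp only [Finset.mem_union]
        by_cases hvg : gen (top v) = gen t
        · rcases hcl v hvW with h1 | h1 | h1
          · right; left
            rw [hσ1 v h1, hvg]
            rw [hvg] at h1
            exact Finset.mem_image.2 ⟨v, Finset.mem_filter.2 ⟨h1, hvt⟩, rfl⟩
          · left; left
            rw [hσ2 v h1, ← hvg]
            exact (hsel v h1).1
          · left; left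
            rw [hσ3 v h1, ← hvg]
            exact h1
        · rcases hσL v hvW hvt hvg with h1 | h1
          · exact Or.inr (Or.inr h1)
          · exact Or.inl (Or.inr h1)
      have hc := Finset.card_le_card hsub
      have hc1 := Finset.card_union_le (S (gen t) ∪ S')
          (((Good (gen t)).filter (fun v => t ∈ B v)).image (sP (Good (gen t))) ∪ L)
      have hc2 := Finset.card_union_le (S (gen t)) S'
      have hc3 := Finset.card_union_le
          (((Good (gen t)).filter (fun v => t ∈ B v)).image (sP (Good (gen t)))) L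
      have hc4 := hScard _ (hgg t)
      have hc5 : S'.card ≤ 3 * P * m * m := by
        rcases hS' with e | ⟨q, hq, e⟩
        · rw [e]; simp
        · rw [e]; exact hScard q hq
      have hc6 := (hO (gen t) (hgg t)).few t _ hQ1m
      have hc7 := hL _ hQ2m
      set c := 3 * P * m * m with hcdef
      calc ((W.filter (fun v => t ∈ B v)).image σ).card
          ≤ 2 * c * 1 + 2 * c * h * (Q1.card + Q2.card) := by
            rw [mul_add]
            omega
        _ ≤ 2 * c * a + 2 * c * h * a :=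
            add_le_add (Nat.mul_le_mul_left _ ha1) (Nat.mul_le_mul_left _ hsum)
        _ = 2 * c * (h + 1) * a := by ring

end Pool.Agent.Work.MP_41f3d4_co
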