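import Mathlib
import Pool.Agent.Work.MP_41f3d4_co.Decomp
import Pool.Agent.Work.MP_41f3d4_co.Label
import Pool.Agent.Work.MP_41f3d4_co.Process

set_option autoImplicit false

namespace Pool.Agent.Work.MP_41f3d4_co

open SimpleGraph

variable {V ι : Type} [Fintype V] [DecidableEq V] [Fintype ι] [DecidableEq ι]

/-- the chi-bounding polynomial -/
def F : ℕ → ℕ → ℕ
  | 0, _ => 1
  | k + 1, m => (2 * (3 * ((k + 1) * m ^ (2 * (k + 1))) * m * m) * m * m) *
      (F k m + m ^ (2 * (k + 1)) + 1)

omit [Fintype ι] in
/-- colouring of the vertices meeting the subtree of `u` and not adjacent to `u` -/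
theorem fake_coloring {R : RT ι} {G : SimpleGraph V} {B : V → Finset ι} {k m c : ℕ}
    (hTD : IsTD R G B) (hmu : MuLE G B (k + 1)) (hmin : IsMin R G B)
    (hcf : G.CliqueFree (m + 1))
    (IH : ∀ (G' : SimpleGraph V) (B' : V → Finset ι), IsTD R G' B' → MuLE G' B' k →
      G'.CliqueFree (m + 1) → G'.Colorable c) (u : V) :
    ∃ f : V → ℕ, (∀ v, Fake G B u v → f v < c + m ^ (2 * (k + 1))) ∧
      ∀ v w, Fake G B u v → Fake G B u w → G.Adj v w → f v ≠ f w := by
  classical
  obtain ⟨a, ha, hcase | ⟨y, hy1, hy2⟩⟩ := exists_private hTD hmin u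
  · obtain ⟨f, hf1, hf2⟩ := bag_coloring hmu hcf
      (Finset.univ.filter (fun v => Fake G B u v)) a (by
        intro v hv
        exact hcase v (Finset.mem_filter.1 hv).2.2.2)
    refine ⟨f, ?_, ?_⟩
    · intro v hv
      have := hf1 v (Finset.mem_filter.2 ⟨Finset.mem_univ _, hv⟩)
      omega
    · intro v w hv hw hvw
      exact hf2 v (Finset.mem_filter.2 ⟨Finset.mem_univ _, hv⟩) w
        (Finset.mem_filter.2 ⟨Finset.mem_univ _, hw⟩) hvw
  · obtain ⟨f, hf1, hf2⟩ := bag_coloring hmu hcf
      (Finset.univ.filter (fun v => Fake G B u v ∧ G.Adj v y)) a (by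
        intro v hv
        have := (Finset.mem_filter.1 hv).2
        exact hy2 v this.1.2.2 this.2)
    obtain ⟨B', hB'1, hB'2⟩ := restrict_edge hTD hmu hy1
      (Finset.univ.filter (fun v => Fake G B u v ∧ ¬ G.Adj v y)) (by
        intro x hx
        have hx' := (Finset.mem_filter.1 hx).2
        obtain ⟨i, hi1, hi2⟩ := hx'.1.2.2
        exact ⟨hx'.1.2.1, hx'.2, i, hi2, Finset.mem_union_left _ hi1⟩)
    obtain ⟨C⟩ := IH _ B' hB'1 hB'2 (hcf.anti (fun x y h => h.1))
    refine ⟨fun v => if G.Adj v y then c + f v else (C v : ℕ), ?_, ?_⟩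
    · intro v hv
      beta_reduce
      split_ifs with h
      · have := hf1 v (Finset.mem_filter.2 ⟨Finset.mem_univ _, hv, h⟩)
        omega
      · have := (C v).2
        omega
    · intro v w hv hw hvw
      beta_reduce
      by_cases h1 : G.Adj v y
      · rw [if_pos h1]
        by_cases h2 : G.Adj w y
        · rw [if_pos h2]
          have := hf2 v (Finset.mem_filter.2 ⟨Finset.mem_univ _, hv, h1⟩) w
            (Finset.mem_filter.2 ⟨Finset.mem_univ _, hw, h2⟩) hvw
          omega
        · rw [if_neg h2]
          have := (C w).2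
          omega
      · rw [if_neg h1]
        by_cases h2 : G.Adj w y
        · rw [if_pos h2]
          have := (C v).2
          omega
        · rw [if_neg h2]
          intro h3
          have h4 : C v = C w := Fin.ext h3
          exact C.valid (v := v) (w := w) ⟨hvw,
            Finset.mem_filter.2 ⟨Finset.mem_univ _, hv, h1⟩,
            Finset.mem_filter.2 ⟨Finset.mem_univ _, hw, h2⟩⟩ h4

/-- **Main theorem.** -/
theorem main_color (R : RT ι) (m : ℕ) : ∀ (k : ℕ) (G : SimpleGraph V) (B : V → Finset ι),
    IsTD R G B → MuLE G B k → G.CliqueFree (m + 1) → G.Colorable (F k m) := by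
  classical
  intro k
  induction k with
  | zero =>
    intro G B hTD hmu _
    refine ⟨Coloring.mk (fun _ => (⟨0, Nat.one_pos⟩ : Fin 1)) ?_⟩
    intro x y hxy
    exfalso
    obtain ⟨i, hi1, hi2⟩ := hTD.edge _ _ hxy
    have := hmu i {x} (fun _ => y) (by simpa using hi1) ⟨by simpa using hxy, by
      intro a ha c hc hac
      rw [Finset.mem_singleton] at ha hc
      exact absurd (ha.trans hc.symm) hac⟩
    simp at this
  | succ k IH =>
    intro G B0 hTD0 hmu0 hcf
    obtain ⟨B, hTD, hmu, hmin⟩ := exists_min R G B0 (k + 1) hTD0 hmu0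
    obtain ⟨U, σ, hO⟩ := process hTD ((k + 1) * m ^ (2 * (k + 1))) m
      (fun A => min_cover hTD hmu hmin (by omega) hcf A) m le_rfl Finset.univ (by
        intro Q _ hQ
        by_contra hcon
        push Not at hcon
        obtain ⟨s, hs, hscard⟩ := Finset.exists_subset_card_eq (show m + 1 ≤ _ from hcon)
        refine hcf s ⟨?_, hscard⟩
        intro x hx y hy hxy
        exact hQ x (hs hx) y (hs hy) hxy)
    choose c hc1 hc2 using fun u => fake_coloring hTD hmu hmin hcf IH u
    set b := F k m + m ^ (2 * (k + 1)) with hb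
    have hlab : ∀ v, σ v = v ∨ Fake G B (σ v) v := fun v => hO.lab v (Finset.mem_univ v)
    let L : V → V × ℕ := fun v => (σ v, if σ v = v then b else c (σ v) v)
    have hL2 : ∀ v, (L v).2 < b + 1 := by
      intro v
      show (if σ v = v then b else c (σ v) v) < b + 1
      split_ifs with h
      · omega
      · rcases hlab v with h1 | h1
        · exact absurd h1 h
        · have := hc1 _ v h1
          omega
    have hcol := label_coloring hTD L (g := (2 * (3 * ((k + 1) * m ^ (2 * (k + 1))) * m * m) * m * m) *
      (b + 1)) ?_ ?_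
    · exact hcol
    · intro u v huv h
      have h1 : σ u = σ v := congrArg Prod.fst h
      have h2 : (if σ u = u then b else c (σ u) u) = (if σ v = v then b else c (σ v) v) :=
        congrArg Prod.snd h
      by_cases hu : σ u = u
      · by_cases hv : σ v = v
        · exact huv.ne (hu.symm.trans (h1.trans hv))
        · rw [if_pos hu, if_neg hv] at h2
          have hf : Fake G B (σ v) v := (hlab v).resolve_left hv
          have := hc1 _ v hf
          omega
      · have hfu : Fake G B (σ u) u := (hlab u).resolve_left hu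
        by_cases hv : σ v = v
        · rw [if_neg hu, if_pos hv] at h2
          have := hc1 _ u hfu
          omega
        · have hfv : Fake G B (σ v) v := (hlab v).resolve_left hv
          rw [if_neg hu, if_neg hv, h1] at h2
          rw [h1] at hfu
          exact hc2 (σ v) u v hfu hfv huv h2
    · intro t
      have h1 : (Finset.univ.filter (fun v => t ∈ B v)).image L ⊆
          ((Finset.univ.filter (fun v => t ∈ B v)).image σ) ×ˢ Finset.range (b + 1) := by
        intro l hl
        obtain ⟨v, hv, rfl⟩ := Finset.mem_image.1 hl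
        rw [Finset.mem_product, Finset.mem_range]
        exact ⟨Finset.mem_image.2 ⟨v, hv, rfl⟩, hL2 v⟩
      refine (Finset.card_le_card h1).trans ?_
      rw [Finset.card_product, Finset.card_range]
      apply Nat.mul_le_mul_right
      apply hO.few t m
      intro Q _ hQ
      by_contra hcon
      push Not at hcon
      obtain ⟨s, hs, hscard⟩ := Finset.exists_subset_card_eq (show m + 1 ≤ _ from hcon)
      refine hcf s ⟨?_, hscard⟩
      intro x hx y hy hxy
      exact hQ x (hs hx) y (hs hy) hxy

end Pool.Agent.Work.MP_41f3d4_co
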