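import Mathlib
import Pool.Agent.Work.MP_41f3d4_co.Decomp

set_option autoImplicit false

namespace Pool.Agent.Work.MP_41f3d4_co

open SimpleGraph

variable {V ι : Type} [Fintype V] [DecidableEq V] [Fintype ι] [DecidableEq ι]

/-- `C` is an independent set. -/
def Indep (G : SimpleGraph V) (C : Finset V) : Prop := ∀ u ∈ C, ∀ v ∈ C, ¬ G.Adj u v

/-- **Price measure.**  For vertex weights `b ≥ 0` there is a nonnegative measure `α` on the nodes,
whose total mass is the weight of some independent set, and such that for every subtree `S` and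
every independent set `C` living inside `S`, the mass of `S` is at least the weight of `C`. -/
theorem exists_measure {R : RT ι} {G : SimpleGraph V} {B : V → Finset ι} {r : ι}
    (hr : ∀ i, R.anc r i) (hTD : IsTD R G B) (b : V → ℝ) :
    ∃ α : ι → ℝ, (∀ t, 0 ≤ α t) ∧ (∃ C, Indep G C ∧ ∑ t, α t = ∑ v ∈ C, b v) ∧
      ∀ (S : Finset ι) (t : ι), R.IsSub S t → ∀ C : Finset V, Indep G C → (∀ v ∈ C, B v ⊆ S) →
        ∑ v ∈ C, b v ≤ ∑ s ∈ S, α s := by
  classical
  choose top htop using hTD.sub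
  -- weights of best independent sets below a node
  let W : ι → Finset (Finset V) := fun t =>
    Finset.univ.filter (fun C => Indep G C ∧ ∀ v ∈ C, R.anc t (top v))
  have hWne : ∀ t, (W t).Nonempty := fun t =>
    ⟨∅, Finset.mem_filter.2 ⟨Finset.mem_univ _, by simp [Indep], by simp⟩⟩
  let D : ι → ℝ := fun t => (W t).sup' (hWne t) (fun C => ∑ v ∈ C, b v)
  have hDle : ∀ t C, Indep G C → (∀ v ∈ C, R.anc t (top v)) → ∑ v ∈ C, b v ≤ D t := by
    intro t C h1 h2
    exact Finset.le_sup' (fun C => ∑ v ∈ C, b v) 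
      (Finset.mem_filter.2 ⟨Finset.mem_univ _, h1, h2⟩)
  have hDeq : ∀ t, ∃ C, Indep G C ∧ (∀ v ∈ C, R.anc t (top v)) ∧ ∑ v ∈ C, b v = D t := by
    intro t
    obtain ⟨C, hC, hC'⟩ := Finset.exists_mem_eq_sup' (hWne t) (fun C => ∑ v ∈ C, b v)
    simp only [W, Finset.mem_filter, Finset.mem_univ, true_and] at hC
    exact ⟨C, hC.1, hC.2, hC'.symm⟩
  choose Cx hCx1 hCx2 hCx3 using hDeq
  -- the gluing inequality
  have key : ∀ (t : ι) (Ex : Finset ι) (C0 : Finset V), Indep G C0 →
      (∀ v ∈ C0, R.anc t (top v)) → (∀ x ∈ Ex, R.anc t x) →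
      (∀ x ∈ Ex, ∀ y ∈ Ex, R.anc x y → x = y) →
      (∀ v ∈ C0, ∀ x ∈ Ex, ∀ i ∈ B v, ¬ R.anc x i) →
      ∑ v ∈ C0, b v + ∑ x ∈ Ex, D x ≤ D t := by
    intro t Ex C0 h1 h2 h3 h4 h5
    have hin : ∀ x ∈ Ex, ∀ v ∈ Cx x, ∀ i ∈ B v, R.anc x i := fun x _ v hv i hi =>
      RT.anc_trans (hCx2 x v hv) ((htop v).anc hi)
    have hsep : ∀ x ∈ Ex, ∀ y ∈ Ex, x ≠ y → ∀ u ∈ Cx x, ∀ v ∈ Cx y, ∀ i, i ∈ B u → i ∉ B v := by
      intro x hx y hy hxy u hu v hv i hi hi'
      rcases RT.anc_total (hin x hx u hu i hi) (hin y hy v hv i hi') with e | e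
      · exact hxy (h4 x hx y hy e)
      · exact hxy (h4 y hy x hx e).symm
    have hd1 : (Ex : Set ι).PairwiseDisjoint Cx := by
      intro x hx y hy hxy
      rw [Function.onFun, Finset.disjoint_left]
      intro v hv hv'
      exact hsep x hx y hy hxy v hv v hv' (top v) (htop v).1 (htop v).1
    have hd2 : Disjoint C0 (Ex.biUnion Cx) := by
      rw [Finset.disjoint_left]
      intro v hv hv'
      obtain ⟨x, hx, hvx⟩ := Finset.mem_biUnion.1 hv'
      exact h5 v hv x hx (top v) (htop v).1 (hCx2 x v hvx)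
    have hle := hDle t (C0 ∪ Ex.biUnion Cx) ?_ ?_
    · rw [Finset.sum_union hd2, Finset.sum_biUnion hd1] at hle
      have : ∑ x ∈ Ex, ∑ v ∈ Cx x, b v = ∑ x ∈ Ex, D x :=
        Finset.sum_congr rfl (fun x _ => hCx3 x)
      rw [this] at hle
      exact hle
    · intro u hu v hv huv
      obtain ⟨i, hi1, hi2⟩ := hTD.edge _ _ huv
      rcases Finset.mem_union.1 hu with hu | hu
      · rcases Finset.mem_union.1 hv with hv | hv
        · exact h1 u hu v hv huv
        · obtain ⟨x, hx, hvx⟩ := Finset.mem_biUnion.1 hv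
          exact h5 u hu x hx i hi1 (hin x hx v hvx i hi2)
      · obtain ⟨x, hx, hux⟩ := Finset.mem_biUnion.1 hu
        rcases Finset.mem_union.1 hv with hv | hv
        · exact h5 v hv x hx i hi2 (hin x hx u hux i hi1)
        · obtain ⟨y, hy, hvy⟩ := Finset.mem_biUnion.1 hv
          by_cases hxy : x = y
          · subst hxy
            exact hCx1 x u hux v hvy huv
          · exact hsep x hx y hy hxy u hux v hvy i hi1 hi2
    · intro v hv
      rcases Finset.mem_union.1 hv with hv | hv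
      · exact h2 v hv
      · obtain ⟨x, hx, hvx⟩ := Finset.mem_biUnion.1 hv
        exact RT.anc_trans (h3 x hx) (hCx2 x v hvx)
  let ch : ι → Finset ι := fun s => Finset.univ.filter (fun c => R.step c s)
  have hchdisj : ∀ S : Finset ι, (S : Set ι).PairwiseDisjoint ch := by
    intro S x _ y _ hxy
    rw [Function.onFun, Finset.disjoint_left]
    intro c hc hc'
    simp only [ch, Finset.mem_filter, Finset.mem_univ, true_and] at hc hc'
    exact hxy (hc.1.symm.trans hc'.1)
  let α : ι → ℝ := fun t => D t - ∑ c ∈ ch t, D c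
  -- the mass of a subtree
  have hmass : ∀ (S : Finset ι) (t : ι), R.IsSub S t →
      ∑ s ∈ S, α s = D t - ∑ c ∈ (Finset.univ.filter (fun c => c ∉ S ∧ ∃ s ∈ S, R.step c s)), D c := by
    intro S t hS
    have e1 : ∑ s ∈ S, α s = ∑ s ∈ S, D s - ∑ c ∈ S.biUnion ch, D c := by
      rw [Finset.sum_biUnion (hchdisj S), ← Finset.sum_sub_distrib]
    have e2 : S.biUnion ch = (S.erase t) ∪
        (Finset.univ.filter (fun c => c ∉ S ∧ ∃ s ∈ S, R.step c s)) := by
      ext c
      simp only [ch, Finset.mem_biUnion, Finset.mem_filter, Finset.mem_univ, true_and,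
        Finset.mem_union, Finset.mem_erase]
      constructor
      · rintro ⟨s, hs, hcs⟩
        by_cases hc : c ∈ S
        · left
          refine ⟨?_, hc⟩
          rintro rfl
          have := RT.anc_dep (hS.anc hs)
          have := hcs.2
          omega
        · exact Or.inr ⟨hc, s, hs, hcs⟩
      · rintro (⟨h1, h2⟩ | ⟨_, h⟩)
        · rcases hS.2 c h2 with e | ⟨g1, g2⟩
          · exact absurd e h1
          · exact ⟨R.par c, g2, rfl, g1⟩
        · exact h
    have e3 : Disjoint (S.erase t)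
        (Finset.univ.filter (fun c => c ∉ S ∧ ∃ s ∈ S, R.step c s)) := by
      rw [Finset.disjoint_left]
      intro c hc hc'
      simp only [Finset.mem_filter, Finset.mem_univ, true_and] at hc'
      exact hc'.1 (Finset.mem_of_mem_erase hc)
    rw [e1, e2, Finset.sum_union e3, ← Finset.sum_erase_add _ _ hS.1]
    ring
  have hexit : ∀ (S : Finset ι) (t : ι), R.IsSub S t → ∀ C : Finset V, Indep G C →
      (∀ v ∈ C, B v ⊆ S) → ∑ v ∈ C, b v ≤ ∑ s ∈ S, α s := by
    intro S t hS C hC hCS
    rw [hmass S t hS, le_sub_iff_add_le]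
    have hanc : ∀ c ∈ (Finset.univ.filter (fun c => c ∉ S ∧ ∃ s ∈ S, R.step c s)),
        c ∉ S ∧ R.anc t c ∧ R.par c ∈ S ∧ R.step c (R.par c) := by
      intro c hc
      simp only [Finset.mem_filter, Finset.mem_univ, true_and] at hc
      obtain ⟨h1, s, hs, hcs⟩ := hc
      refine ⟨h1, RT.anc_trans (hS.anc hs) (RT.step_anc hcs), ?_, ?_⟩
      · rw [hcs.1]; exact hs
      · rw [hcs.1]; exact hcs
    apply key t _ C hC
    · intro v hv
      exact hS.anc (hCS v hv (htop v).1)
    · intro x hx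
      exact (hanc x hx).2.1
    · intro x hx y hy hxy
      obtain ⟨hx1, hx2, hx3, hx4⟩ := hanc x hx
      obtain ⟨hy1, hy2, hy3, hy4⟩ := hanc y hy
      rcases RT.anc_cases hxy with e | ⟨_, e⟩
      · exact e
      · exact absurd (hS.mid hy3 e hx2) hx1
    · intro v hv x hx i hi hxi
      obtain ⟨hx1, hx2, hx3, hx4⟩ := hanc x hx
      exact hx1 (hS.mid (hCS v hv hi) hxi hx2)
  refine ⟨α, ?_, ?_, hexit⟩
  · intro t
    simp only [α, sub_nonneg]
    have := key t (ch t) ∅ (by simp [Indep]) (by simp) ?_ ?_ (by simp)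
    · simpa using this
    · intro x hx
      simp only [ch, Finset.mem_filter, Finset.mem_univ, true_and] at hx
      exact RT.step_anc hx
    · intro x hx y hy hxy
      simp only [ch, Finset.mem_filter, Finset.mem_univ, true_and] at hx hy
      rcases RT.anc_cases hxy with e | ⟨_, e⟩
      · exact e
      · rw [hy.1] at e
        have := RT.anc_dep e
        have := hx.2
        omega
  · have hsub : R.IsSub Finset.univ r := by
      refine ⟨Finset.mem_univ _, fun i _ => ?_⟩
      rcases RT.anc_cases (hr i) with e | ⟨e, _⟩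
      · exact Or.inl e.symm
      · exact Or.inr ⟨e.2, Finset.mem_univ _⟩
    refine ⟨Cx r, hCx1 r, ?_⟩
    rw [hmass _ _ hsub, hCx3 r]
    have : (Finset.univ.filter (fun c => c ∉ (Finset.univ : Finset ι) ∧
        ∃ s ∈ (Finset.univ : Finset ι), R.step c s)) = ∅ := by
      ext c; simp
    rw [this]
    simp

end Pool.Agent.Work.MP_41f3d4_co
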