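import Mathlib
import Pool.Agent.Work.MP_41f3d4_co.Measure

set_option autoImplicit false

namespace Pool.Agent.Work.MP_41f3d4_co

open SimpleGraph

/-- From independent sets that are heavy for every weight function to an `a : b` colouring. -/
theorem multicoloring_of_weighted {V : Type} [Fintype V] [DecidableEq V] (G : SimpleGraph V)
    (P : ℕ) (hP : 1 ≤ P)
    (h : ∀ b : V → ℝ, (∀ v, 0 ≤ b v) → ∃ C : Finset V, Indep G C ∧
      ∑ v, b v ≤ P * ∑ v ∈ C, b v) :
    ∃ a b : ℕ, 0 < b ∧ a ≤ 2 * P * b ∧ ∃ f : V → Finset (Fin a),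
      (∀ v, (f v).card = b) ∧ ∀ u v, G.Adj u v → Disjoint (f u) (f v) := by
  classical
  let ind : Finset V → (V → ℝ) := fun C v => if v ∈ C then 1 else 0
  let s : Finset (V → ℝ) := (Finset.univ.filter (fun C => Indep G C)).image ind
  have hPr : (1 : ℝ) ≤ P := by exact_mod_cast hP
  have hmem : ∃ x ∈ convexHull ℝ (s : Set (V → ℝ)), ∀ v, 1 / (P : ℝ) ≤ x v := by
    by_contra hcon
    push Not at hcon
    let t : Set (V → ℝ) := {x | ∀ v, 1 / (P : ℝ) ≤ x v}
    have ht1 : Convex ℝ t := by
      intro x hx y hy p q hp hq hpq v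
      have h1 := hx v
      have h2 := hy v
      simp only [Pi.add_apply, Pi.smul_apply, smul_eq_mul]
      have h3 := mul_le_mul_of_nonneg_left h1 hp
      have h4 := mul_le_mul_of_nonneg_left h2 hq
      calc 1 / (P : ℝ) = p * (1 / P) + q * (1 / P) := by rw [← add_mul, hpq, one_mul]
        _ ≤ _ := add_le_add h3 h4
    have ht2 : IsClosed t := by
      have : t = ⋂ v, {x : V → ℝ | 1 / (P : ℝ) ≤ x v} := by
        ext x; simp [t]
      rw [this]
      exact isClosed_iInter (fun v => isClosed_le continuous_const (continuous_apply v))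
    obtain ⟨f, u, w, hf1, huw, hf2⟩ := geometric_hahn_banach_compact_closed
      (convex_convexHull ℝ (s : Set (V → ℝ))) (s.finite_toSet.isCompact_convexHull (𝕜 := ℝ)) ht1 ht2
      (by
        rw [Set.disjoint_left]
        intro x hx hx'
        obtain ⟨v, hv⟩ := hcon x hx
        exact absurd (hx' v) (not_le.2 hv))
    let b : V → ℝ := fun v => f (Pi.single v 1)
    have hfb : ∀ x : V → ℝ, f x = ∑ v, x v * b v := by
      intro x
      conv_lhs => rw [← Finset.univ_sum_single x]
      rw [map_sum]
      apply Finset.sum_congr rfl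
      intro v _
      have : (Pi.single v (x v) : V → ℝ) = x v • Pi.single v 1 := by
        rw [← Pi.single_smul, smul_eq_mul, mul_one]
      rw [this, map_smul, smul_eq_mul]
    have hb : ∀ v, 0 ≤ b v := by
      intro v
      by_contra hneg
      push Not at hneg
      let x0 : V → ℝ := fun _ => 1 / (P : ℝ)
      obtain ⟨n, hn⟩ := exists_nat_gt ((f x0 - w) / (- b v))
      have h1 : x0 + (n : ℝ) • Pi.single v 1 ∈ t := by
        intro v'
        simp only [Pi.add_apply, Pi.smul_apply, smul_eq_mul, x0]
        have : 0 ≤ (n : ℝ) * (Pi.single v 1 : V → ℝ) v' := by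
          apply mul_nonneg (Nat.cast_nonneg n)
          by_cases hv : v' = v
          · subst hv; simp
          · simp [hv]
        linarith
      have h2 := hf2 _ h1
      rw [map_add, map_smul, smul_eq_mul] at h2
      rw [div_lt_iff₀ (by linarith)] at hn
      have : f (Pi.single v 1) = b v := rfl
      rw [this] at h2
      linarith
    obtain ⟨C, hC1, hC2⟩ := h b hb
    have h1 : ind C ∈ convexHull ℝ (s : Set (V → ℝ)) := by
      apply subset_convexHull
      simp only [s, Finset.coe_image, Set.mem_image, Finset.mem_coe, Finset.mem_filter,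
        Finset.mem_univ, true_and]
      exact ⟨C, hC1, rfl⟩
    have h2 := hf1 _ h1
    have h3 := hf2 (fun _ => 1 / (P : ℝ)) (fun v => le_refl _)
    rw [hfb] at h2 h3
    have h4 : ∑ v, ind C v * b v = ∑ v ∈ C, b v := by
      simp [ind, ite_mul, Finset.sum_ite_mem]
    rw [h4] at h2
    rw [← Finset.mul_sum] at h3
    have h5 : 1 / (P : ℝ) * ∑ v, b v ≤ ∑ v ∈ C, b v := by
      rw [one_div, inv_mul_le_iff₀ (by linarith)]
      exact hC2
    linarith
  obtain ⟨x, hx, hxv⟩ := hmem
  rw [Finset.mem_convexHull'] at hx
  obtain ⟨y, hy0, hy1, hyx⟩ := hx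
  -- independent sets
  have hs : ∀ z ∈ s, ∀ u v, G.Adj u v → z u = 1 → z v = 1 → False := by
    intro z hz u v huv hu hv
    simp only [s, Finset.mem_image, Finset.mem_filter, Finset.mem_univ, true_and] at hz
    obtain ⟨C, hC, rfl⟩ := hz
    simp only [ind] at hu hv
    have hu' : u ∈ C := by
      by_contra h; rw [if_neg h] at hu; norm_num at hu
    have hv' : v ∈ C := by
      by_contra h; rw [if_neg h] at hv; norm_num at hv
    exact hC u hu' v hv' huv
  have hs01 : ∀ z ∈ s, ∀ v, z v = 0 ∨ z v = 1 := by
    intro z hz v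
    simp only [s, Finset.mem_image, Finset.mem_filter, Finset.mem_univ, true_and] at hz
    obtain ⟨C, hC, rfl⟩ := hz
    simp only [ind]
    by_cases h : v ∈ C
    · right; rw [if_pos h]
    · left; rw [if_neg h]
  have hsne : 0 < s.card := by
    rw [Finset.card_pos]
    refine ⟨ind ∅, ?_⟩
    simp only [s, Finset.mem_image, Finset.mem_filter, Finset.mem_univ, true_and]
    exact ⟨∅, by simp [Indep], rfl⟩
  set N := s.card with hN
  let n : (V → ℝ) → ℕ := fun z => ⌈(N : ℝ) * P * y z⌉₊
  let I := Σ z : s, Fin (n z)
  let col : V → Finset I := fun v => Finset.univ.filter (fun i => i.1.1 v = 1)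
  have hcol : ∀ v, N ≤ (col v).card := by
    intro v
    have h1 : ((col v).card : ℝ) = ∑ z ∈ s, z v * n z := by
      have e1 : (col v) = (Finset.univ.filter (fun z : s => z.1 v = 1)).sigma
          (fun z => (Finset.univ : Finset (Fin (n z)))) := by
        ext i
        constructor
        · intro hi
          exact Finset.mem_sigma.2 ⟨Finset.mem_filter.2 ⟨Finset.mem_univ _,
            (Finset.mem_filter.1 hi).2⟩, Finset.mem_univ _⟩
        · intro hi
          exact Finset.mem_filter.2 ⟨Finset.mem_univ _,
            (Finset.mem_filter.1 (Finset.mem_sigma.1 hi).1).2⟩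
      rw [e1, Finset.card_sigma]
      push_cast
      simp only [Finset.card_univ, Fintype.card_fin]
      rw [Finset.sum_filter, ← Finset.sum_coe_sort s (fun z => z v * (n z : ℝ))]
      apply Finset.sum_congr rfl
      intro z _
      rcases hs01 z.1 z.2 v with e | e
      · rw [if_neg (by rw [e]; norm_num), e, zero_mul]
      · rw [if_pos e, e, one_mul]
    have h2 : (N : ℝ) ≤ ∑ z ∈ s, z v * n z := by
      calc (N : ℝ) = N * P * (1 / P) := by field_simp
        _ ≤ N * P * x v := mul_le_mul_of_nonneg_left (hxv v)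
            (mul_nonneg (Nat.cast_nonneg _) (Nat.cast_nonneg _))
        _ = ∑ z ∈ s, z v * (N * P * y z) := by
            rw [← hyx, Finset.sum_apply, Finset.mul_sum]
            apply Finset.sum_congr rfl
            intro z _
            simp only [Pi.smul_apply, smul_eq_mul]
            ring
        _ ≤ ∑ z ∈ s, z v * n z := by
            apply Finset.sum_le_sum
            intro z hz
            apply mul_le_mul_of_nonneg_left (Nat.le_ceil _)
            rcases hs01 z hz v with e | e
            · rw [e]
            · rw [e]; norm_num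
    rw [← h1] at h2
    exact_mod_cast h2
  have hI : (Fintype.card I : ℝ) ≤ 2 * P * N := by
    have e1 : Fintype.card I = ∑ z ∈ s, n z := by
      simp only [I, Fintype.card_sigma, Fintype.card_fin]
      exact Finset.sum_coe_sort s n
    rw [e1]
    push_cast
    calc ∑ z ∈ s, (n z : ℝ) ≤ ∑ z ∈ s, (N * P * y z + 1) := by
          apply Finset.sum_le_sum
          intro z hz
          exact (Nat.ceil_lt_add_one (mul_nonneg (mul_nonneg (Nat.cast_nonneg _)
            (Nat.cast_nonneg _)) (hy0 z hz))).le
      _ = N * P + N := by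
          rw [Finset.sum_add_distrib, ← Finset.mul_sum, hy1, mul_one, Finset.sum_const,
            nsmul_eq_mul, mul_one]
      _ ≤ 2 * P * N := by
          have : (0 : ℝ) ≤ N := Nat.cast_nonneg N
          nlinarith
  have hI' : Fintype.card I ≤ 2 * P * N := by exact_mod_cast hI
  choose g hg1 hg2 using fun v => Finset.exists_subset_card_eq (hcol v)
  refine ⟨Fintype.card I, N, hsne, hI', fun v => (g v).map (Fintype.equivFin I).toEmbedding, ?_, ?_⟩
  · intro v
    rw [Finset.card_map, hg2]
  · intro u v huv
    rw [Finset.disjoint_map, Finset.disjoint_left]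
    intro i hi1 hi2
    have h1 := (Finset.mem_filter.1 (hg1 u hi1)).2
    have h2 := (Finset.mem_filter.1 (hg1 v hi2)).2
    exact hs i.1.1 i.1.2 u v huv h1 h2

end Pool.Agent.Work.MP_41f3d4_co
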