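import Mathlib
import Pool.Agent.Work.MP_41f3d4_co.Decomp
import Pool.Agent.Work.MP_41f3d4_co.Measure

set_option autoImplicit false

namespace Pool.Agent.Work.MP_41f3d4_co

open SimpleGraph

/-- Weighted Turán / Motzkin–Straus inequality. -/
theorem motzkin {V : Type} [DecidableEq V] (S : V → V → Prop) [DecidableRel S]
    (hsymm : ∀ u v, S u v → S v u) (hrefl : ∀ v, S v v) (ρ : V → ℝ) (hρ : ∀ v, 0 ≤ ρ v) :
    ∀ (K : ℕ) (C : Finset V),
      (∀ s ⊆ C, (∀ u ∈ s, ∀ v ∈ s, u ≠ v → ¬ S u v) → s.card ≤ K) →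
      (∑ v ∈ C, ρ v) ^ 2 ≤ K * ∑ v ∈ C, ∑ u ∈ C with S v u, ρ v * ρ u := by
  intro K
  induction K with
  | zero =>
    intro C hC
    have : C = ∅ := by
      by_contra hne
      obtain ⟨v, hv⟩ := Finset.nonempty_iff_ne_empty.2 hne
      have := hC {v} (by simpa using hv) (by
        intro a ha b hb hab
        rw [Finset.mem_singleton] at ha hb
        exact absurd (ha.trans hb.symm) hab)
      simp at this
    subst this
    simp
  | succ K ih =>
    intro C hC
    rcases C.eq_empty_or_nonempty with rfl | hne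
    · simp
    let d : V → ℝ := fun v => ∑ u ∈ C with S v u, ρ u
    obtain ⟨v, hv, hvmin⟩ := C.exists_min_image d hne
    let N := C.filter (fun u => S v u)
    let C' := C.filter (fun u => ¬ S v u)
    have hC' : ∀ s ⊆ C', (∀ u ∈ s, ∀ v ∈ s, u ≠ v → ¬ S u v) → s.card ≤ K := by
      intro s hs hind
      have hvs : v ∉ s := fun h => (Finset.mem_filter.1 (hs h)).2 (hrefl v)
      have := hC (insert v s) ?_ ?_
      · rw [Finset.card_insert_of_notMem hvs] at this
        omega
      · intro x hx
        rcases Finset.mem_insert.1 hx with e | hx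
        · exact e ▸ hv
        · exact (Finset.mem_filter.1 (hs hx)).1
      · intro a ha b hb hab
        rcases Finset.mem_insert.1 ha with e | ha
        · rcases Finset.mem_insert.1 hb with e' | hb
          · exact absurd (e.trans e'.symm) hab
          · rw [e]; exact (Finset.mem_filter.1 (hs hb)).2
        · rcases Finset.mem_insert.1 hb with e' | hb
          · rw [e']; exact fun h => (Finset.mem_filter.1 (hs ha)).2 (hsymm _ _ h)
          · exact hind a ha b hb hab
    have ih' := ih C' hC'
    set Q := ∑ v ∈ C, ∑ u ∈ C with S v u, ρ v * ρ u with hQ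
    set Q' := ∑ v ∈ C', ∑ u ∈ C' with S v u, ρ v * ρ u with hQ'
    have hsplit : ∑ u ∈ C, ρ u = d v + ∑ u ∈ C', ρ u := by
      rw [← Finset.sum_filter_add_sum_filter_not C (fun u => S v u)]
    have hQQ : d v * d v + Q' ≤ Q := by
      have e1 : Q = ∑ u ∈ N, ρ u * d u + ∑ u ∈ C', ρ u * d u := by
        rw [hQ, ← Finset.sum_filter_add_sum_filter_not C (fun u => S v u)]
        simp only [← Finset.mul_sum]
        rfl
      rw [e1]
      apply add_le_add
      · have : d v * d v = ∑ u ∈ N, ρ u * d v := by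
          rw [← Finset.sum_mul]
        rw [this]
        exact Finset.sum_le_sum (fun u hu =>
          mul_le_mul_of_nonneg_left (hvmin u (Finset.mem_filter.1 hu).1) (hρ u))
      · rw [hQ']
        apply Finset.sum_le_sum
        intro u _
        rw [← Finset.mul_sum]
        apply mul_le_mul_of_nonneg_left _ (hρ u)
        apply Finset.sum_le_sum_of_subset_of_nonneg
        · intro x hx
          rw [Finset.mem_filter] at hx ⊢
          exact ⟨(Finset.mem_filter.1 hx.1).1, hx.2⟩
        · intro x _ _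
          exact hρ x
    have hQ'0 : 0 ≤ Q' := Finset.sum_nonneg (fun u _ => Finset.sum_nonneg (fun w _ =>
      mul_nonneg (hρ u) (hρ w)))
    rw [hsplit]
    push_cast
    set x := d v
    set y := ∑ u ∈ C', ρ u
    have hK : (0 : ℝ) ≤ K := Nat.cast_nonneg K
    have h1 : 2 * x * y ≤ K * x ^ 2 + Q' := by
      rcases eq_or_lt_of_le hK with e | hpos
      · rw [← e] at ih' ⊢
        have hy : y ^ 2 ≤ 0 := by simpa using ih'
        have hy0 : y = 0 := by nlinarith
        rw [hy0]
        simpa using hQ'0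
      · by_contra hcon
        push Not at hcon
        nlinarith [sq_nonneg (K * x - y)]
    calc (x + y) ^ 2 = x ^ 2 + 2 * x * y + y ^ 2 := by ring
      _ ≤ x ^ 2 + (K * x ^ 2 + Q') + K * Q' := by linarith
      _ = (K + 1) * (x * x + Q') := by ring
      _ ≤ (K + 1) * Q := by
        apply mul_le_mul_of_nonneg_left hQQ
        linarith

section step

variable {V ι : Type} [Fintype V] [DecidableEq V] [Fintype ι] [DecidableEq ι]

/-- the relation `v ⊴ u`: `v` is not adjacent to `u`, and the subtree of `u` carries at least a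
`1/K` fraction of the mass of the subtree of `v` -/
def Rel (G : SimpleGraph V) (B : V → Finset ι) (α : ι → ℝ) (K : ℕ) (v u : V) : Prop :=
  (v = u ∨ ¬ G.Adj v u) ∧ (∃ i, i ∈ B v ∧ i ∈ B u) ∧
    ∑ i ∈ B v, α i ≤ K * ∑ i ∈ B v ∩ B u, α i

omit [Fintype ι] in
open Classical in
/-- In one bag, many pairs are related. -/
theorem bag_ineq {R : RT ι} {G : SimpleGraph V} {B : V → Finset ι} {K m : ℕ}
    (hTD : IsTD R G B) (hmu : MuLE G B K) (hmin : IsMin R G B) (hK : 1 ≤ K)
    (hcf : G.CliqueFree (m + 1)) (α : ι → ℝ) (hα : ∀ t, 0 ≤ α t) (ρ : V → ℝ)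
    (hρ : ∀ v, 0 ≤ ρ v) (t : ι) :
    (∑ v with t ∈ B v, ρ v) ^ 2 ≤ (2 * K * m ^ (2 * K) : ℕ) *
      ∑ v with t ∈ B v, ∑ u with (t ∈ B u ∧ Rel G B α K v u), ρ v * ρ u := by
  set X : Finset V := Finset.univ.filter (fun v => t ∈ B v) with hX
  have hXm : ∀ v, v ∈ X ↔ t ∈ B v := fun v => by simp [hX]
  obtain ⟨f, hf1, hf2⟩ := bag_coloring hmu hcf X t (fun v hv => (hXm v).1 hv)
  set w := m ^ (2 * K) with hw
  have hsum : ∀ g : V → ℝ, ∑ v ∈ X, g v = ∑ c ∈ Finset.range w, ∑ v ∈ X with f v = c, g v := by
    intro g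
    exact (Finset.sum_fiberwise_of_maps_to (fun v hv => Finset.mem_range.2 (hf1 v hv)) g).symm
  have hclass : ∀ c, (∑ v ∈ X with f v = c, ρ v) ^ 2 ≤ 2 * K *
      ∑ v ∈ X with f v = c, ∑ u with (t ∈ B u ∧ Rel G B α K v u), ρ v * ρ u := by
    intro c
    set C := X.filter (fun v => f v = c) with hC
    have hCX : ∀ v ∈ C, v ∈ X ∧ f v = c := fun v hv => Finset.mem_filter.1 hv
    have hmz := motzkin (fun v u => v = u ∨ (Rel G B α K v u ∨ Rel G B α K u v))
      (fun u v h => by
        rcases h with h | h | h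
        · exact Or.inl h.symm
        · exact Or.inr (Or.inr h)
        · exact Or.inr (Or.inl h)) (fun v => Or.inl rfl) ρ hρ K C ?_
    · refine hmz.trans ?_
      rw [mul_comm (2 : ℝ) (K : ℝ), mul_assoc]
      apply mul_le_mul_of_nonneg_left _ (Nat.cast_nonneg K)
      have h1 : ∑ v ∈ C, ∑ u ∈ C with (v = u ∨ (Rel G B α K v u ∨ Rel G B α K u v)),
          ρ v * ρ u ≤ ∑ v ∈ C, ∑ u ∈ C, ((if Rel G B α K v u then ρ v * ρ u else 0) +
            (if Rel G B α K u v then ρ v * ρ u else 0)) := by
        apply Finset.sum_le_sum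
        intro v hv
        rw [Finset.sum_filter]
        apply Finset.sum_le_sum
        intro u hu
        have hnn := mul_nonneg (hρ v) (hρ u)
        by_cases h : v = u ∨ (Rel G B α K v u ∨ Rel G B α K u v)
        · rw [if_pos h]
          rcases h with h | h | h
          · subst h
            have hrel : Rel G B α K v v := by
              refine ⟨Or.inl rfl, ⟨t, ?_, ?_⟩, ?_⟩
              · exact (hXm v).1 (hCX v hv).1
              · exact (hXm v).1 (hCX v hv).1
              · rw [Finset.inter_self]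
                have h0 : 0 ≤ ∑ i ∈ B v, α i := Finset.sum_nonneg (fun i _ => hα i)
                have h1 : (1 : ℝ) ≤ K := by exact_mod_cast hK
                nlinarith
            rw [if_pos hrel]
            linarith
          · rw [if_pos h]
            split_ifs <;> linarith
          · rw [if_pos h]
            split_ifs <;> linarith
        · rw [if_neg h]
          split_ifs <;> linarith
      refine h1.trans ?_
      simp only [Finset.sum_add_distrib]
      have h2 : ∑ v ∈ C, ∑ u ∈ C, (if Rel G B α K u v then ρ v * ρ u else 0) =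
          ∑ v ∈ C, ∑ u ∈ C, (if Rel G B α K v u then ρ v * ρ u else 0) := by
        rw [Finset.sum_comm]
        apply Finset.sum_congr rfl
        intro v _
        apply Finset.sum_congr rfl
        intro u _
        rw [mul_comm (ρ u) (ρ v)]
      rw [h2, ← two_mul]
      apply mul_le_mul_of_nonneg_left _ (by norm_num)
      apply Finset.sum_le_sum
      intro v hv
      rw [← Finset.sum_filter]
      apply Finset.sum_le_sum_of_subset_of_nonneg
      · intro u hu
        rw [Finset.mem_filter] at hu ⊢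
        exact ⟨Finset.mem_univ _, (hXm u).1 (hCX u hu.1).1, hu.2⟩
      · intro u _ _
        exact mul_nonneg (hρ v) (hρ u)
    · intro s hs hind
      by_contra hcard
      push Not at hcard
      obtain ⟨s', hs', hs'card⟩ := Finset.exists_subset_card_eq (show K + 1 ≤ s.card by omega)
      have hst : ∀ v ∈ s', t ∈ B v := fun v hv => (hXm v).1 (hCX v (hs (hs' hv))).1
      have hsadj : ∀ u ∈ s', ∀ v ∈ s', ¬ G.Adj u v := by
        intro u hu v hv huv
        have h1 := hCX u (hs (hs' hu))
        have h2 := hCX v (hs (hs' hv))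
        exact hf2 u h1.1 v h2.1 huv (h1.2.trans h2.2.symm)
      apply absurd (irred_card hTD hmu hmin hK s' t hst hsadj ?_) (by omega)
      intro v hv
      by_contra hcon
      push Not at hcon
      -- `B v` is covered by the others
      have h1 : ∑ i ∈ B v, α i ≤ ∑ u ∈ s'.erase v, ∑ i ∈ B v ∩ B u, α i := by
        calc ∑ i ∈ B v, α i ≤ ∑ i ∈ B v, ∑ u ∈ s'.erase v, (if i ∈ B u then α i else 0) := by
              apply Finset.sum_le_sum
              intro i hi
              obtain ⟨u, hu1, hu2, hu3⟩ := hcon i hi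
              calc α i = (if i ∈ B u then α i else 0) := by rw [if_pos hu3]
                _ ≤ _ := Finset.single_le_sum (f := fun u => if i ∈ B u then α i else 0)
                  (fun u _ => by split_ifs; exact hα i; exact le_refl _)
                  (Finset.mem_erase.2 ⟨hu2, hu1⟩)
          _ = ∑ u ∈ s'.erase v, ∑ i ∈ B v, (if i ∈ B u then α i else 0) := Finset.sum_comm
          _ = _ := by
              apply Finset.sum_congr rfl
              intro u _
              rw [← Finset.sum_filter, Finset.filter_mem_eq_inter]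
      have h2 : ∀ u ∈ s'.erase v, K * ∑ i ∈ B v ∩ B u, α i < ∑ i ∈ B v, α i := by
        intro u hu
        rw [Finset.mem_erase] at hu
        by_contra hle
        push Not at hle
        apply hind v (hs' hv) u (hs' hu.2) hu.1.symm
        refine Or.inr (Or.inl ⟨Or.inr (hsadj v hv u hu.2), ⟨t, hst v hv, hst u hu.2⟩, hle⟩)
      have hcard : (s'.erase v).card = K := by
        rw [Finset.card_erase_of_mem hv, hs'card]
        rfl
      have hne : (s'.erase v).Nonempty := by
        rw [← Finset.card_pos]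
        omega
      have h3 := Finset.sum_lt_sum_of_nonempty hne h2
      rw [Finset.sum_const, ← Finset.mul_sum, hcard, nsmul_eq_mul] at h3
      have h4 := mul_le_mul_of_nonneg_left h1 (Nat.cast_nonneg (α := ℝ) K)
      linarith
  calc (∑ v ∈ X, ρ v) ^ 2 = (∑ c ∈ Finset.range w, ∑ v ∈ X with f v = c, ρ v) ^ 2 := by
        rw [hsum ρ]
    _ ≤ w * ∑ c ∈ Finset.range w, (∑ v ∈ X with f v = c, ρ v) ^ 2 := by
        have := sq_sum_le_card_mul_sum_sq (s := Finset.range w)
          (f := fun c => ∑ v ∈ X with f v = c, ρ v)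
        rw [Finset.card_range] at this
        exact this
    _ ≤ w * ∑ c ∈ Finset.range w, (2 * K *
      ∑ v ∈ X with f v = c, ∑ u with (t ∈ B u ∧ Rel G B α K v u), ρ v * ρ u) := by
        apply mul_le_mul_of_nonneg_left _ (Nat.cast_nonneg w)
        exact Finset.sum_le_sum (fun c _ => hclass c)
    _ = _ := by
        rw [← Finset.mul_sum, ← hsum]
        push_cast
        ring

omit [Fintype V] [Fintype ι] in
/-- An independent set of vertices related to `u` has small weight. -/
theorem indep_bound {R : RT ι} {G : SimpleGraph V} {B : V → Finset ι} {K : ℕ}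
    (hTD : IsTD R G B) (hmu : MuLE G B K) (hmin : IsMin R G B) (hK : 1 ≤ K)
    (α : ι → ℝ) (hα : ∀ t, 0 ≤ α t) (b : V → ℝ)
    (hαb : ∀ (S : Finset ι) (t : ι), R.IsSub S t → ∀ C : Finset V, Indep G C →
      (∀ v ∈ C, B v ⊆ S) → ∑ v ∈ C, b v ≤ ∑ s ∈ S, α s)
    (u : V) (C : Finset V) (hC : Indep G C) (hCu : ∀ v ∈ C, Rel G B α K v u) :
    ∑ v ∈ C, b v ≤ (K ^ 2 + 1) * ∑ i ∈ B u, α i := by
  classical
  obtain ⟨C', hC', hC'min⟩ := (C.powerset.filter (fun D => D.biUnion B = C.biUnion B)).exists_min_image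
    (fun D => D.card) ⟨C, by simp⟩
  rw [Finset.mem_filter, Finset.mem_powerset] at hC'
  obtain ⟨hC'C, hC'U⟩ := hC'
  have hirr : ∀ v ∈ C', ∃ a ∈ B v, ∀ x ∈ C', x ≠ v → a ∉ B x := by
    intro v hv
    by_contra hcon
    push Not at hcon
    have h1 := hC'min (C'.erase v) ?_
    · have := Finset.card_erase_lt_of_mem hv
      have h1' : C'.card ≤ (C'.erase v).card := h1
      omega
    · rw [Finset.mem_filter, Finset.mem_powerset]
      refine ⟨(Finset.erase_subset _ _).trans hC'C, ?_⟩
      rw [← hC'U]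
      ext i
      simp only [Finset.mem_biUnion, Finset.mem_erase]
      constructor
      · rintro ⟨x, ⟨_, hx⟩, hi⟩
        exact ⟨x, hx, hi⟩
      · rintro ⟨x, hx, hi⟩
        by_cases hxv : x = v
        · subst hxv
          obtain ⟨y, hy1, hy2, hy3⟩ := hcon i hi
          exact ⟨y, ⟨hy2, hy1⟩, hy3⟩
        · exact ⟨x, ⟨hxv, hx⟩, hi⟩
  -- each bag contains at most `K` elements of `C'`
  have hthin : ∀ i, (C'.filter (fun v => i ∈ B v)).card ≤ K := by
    intro i
    apply irred_card hTD hmu hmin hK _ i (fun v hv => (Finset.mem_filter.1 hv).2)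
    · intro x hx y hy
      exact hC x (hC'C (Finset.mem_filter.1 hx).1) y (hC'C (Finset.mem_filter.1 hy).1)
    · intro v hv
      obtain ⟨a, ha1, ha2⟩ := hirr v (Finset.mem_filter.1 hv).1
      exact ⟨a, ha1, fun x hx hxv => ha2 x (Finset.mem_filter.1 hx).1 hxv⟩
  -- the union is a subtree
  have hsub : ∀ D : Finset V, (∀ v ∈ D, ∃ i, i ∈ B v ∧ i ∈ B u) →
      ∃ t, R.IsSub (B u ∪ D.biUnion B) t := by
    intro D
    induction D using Finset.induction_on with
    | empty =>
      intro _
      simpa using hTD.sub u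
    | insert v D hvD ih =>
      intro hD
      obtain ⟨t1, ht1⟩ := ih (fun x hx => hD x (Finset.mem_insert_of_mem hx))
      obtain ⟨t2, ht2⟩ := hTD.sub v
      obtain ⟨i, hi1, hi2⟩ := hD v (Finset.mem_insert_self _ _)
      obtain ⟨t3, ht3⟩ := ht1.union ht2 (Finset.mem_union_left _ hi2) hi1
      refine ⟨t3, ?_⟩
      have : B u ∪ (insert v D).biUnion B = B u ∪ D.biUnion B ∪ B v := by
        rw [Finset.biUnion_insert, Finset.union_comm (B v), Finset.union_assoc]
      rw [this]
      exact ht3
  obtain ⟨t, ht⟩ := hsub C (fun v hv => (hCu v hv).2.1)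
  have h1 := hαb _ t ht C hC (fun v hv => (Finset.subset_biUnion_of_mem B hv).trans
    Finset.subset_union_right)
  have h2 : ∑ i ∈ B u ∪ C.biUnion B, α i ≤ ∑ i ∈ B u, α i + ∑ i ∈ C.biUnion B, α i := by
    rw [← Finset.sum_union_inter]
    have : 0 ≤ ∑ i ∈ B u ∩ C.biUnion B, α i := Finset.sum_nonneg (fun i _ => hα i)
    linarith
  have h3 : ∑ i ∈ C.biUnion B, α i ≤ ∑ v ∈ C', ∑ i ∈ B v, α i := by
    rw [← hC'U]
    calc ∑ i ∈ C'.biUnion B, α i
        ≤ ∑ i ∈ C'.biUnion B, ∑ v ∈ C', (if i ∈ B v then α i else 0) := by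
          apply Finset.sum_le_sum
          intro i hi
          obtain ⟨v, hv, hiv⟩ := Finset.mem_biUnion.1 hi
          calc α i = (if i ∈ B v then α i else 0) := by rw [if_pos hiv]
            _ ≤ _ := Finset.single_le_sum (f := fun u => if i ∈ B u then α i else 0)
              (fun u _ => by split_ifs; exact hα i; exact le_refl _) hv
      _ = ∑ v ∈ C', ∑ i ∈ C'.biUnion B, (if i ∈ B v then α i else 0) := Finset.sum_comm
      _ = _ := by
          apply Finset.sum_congr rfl
          intro v hv
          rw [← Finset.sum_filter, Finset.filter_mem_eq_inter,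
            Finset.inter_eq_right.2 (Finset.subset_biUnion_of_mem B hv)]
  have h4 : ∑ v ∈ C', ∑ i ∈ B v, α i ≤ K * ∑ v ∈ C', ∑ i ∈ B v ∩ B u, α i := by
    rw [Finset.mul_sum]
    exact Finset.sum_le_sum (fun v hv => (hCu v (hC'C hv)).2.2)
  have h5 : ∑ v ∈ C', ∑ i ∈ B v ∩ B u, α i ≤ K * ∑ i ∈ B u, α i := by
    calc ∑ v ∈ C', ∑ i ∈ B v ∩ B u, α i
        = ∑ v ∈ C', ∑ i ∈ B u, (if i ∈ B v then α i else 0) := by
          apply Finset.sum_congr rfl
          intro v _
          rw [← Finset.sum_filter, Finset.filter_mem_eq_inter, Finset.inter_comm]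
      _ = ∑ i ∈ B u, ∑ v ∈ C', (if i ∈ B v then α i else 0) := Finset.sum_comm
      _ ≤ ∑ i ∈ B u, K * α i := by
          apply Finset.sum_le_sum
          intro i _
          rw [← Finset.sum_filter, Finset.sum_const, nsmul_eq_mul]
          apply mul_le_mul_of_nonneg_right _ (hα i)
          exact_mod_cast hthin i
      _ = _ := by rw [Finset.mul_sum]
  have h6 := mul_le_mul_of_nonneg_left h5 (Nat.cast_nonneg (α := ℝ) K)
  nlinarith

omit [Fintype ι] in
open Classical in
/-- The set of all vertices related to `u` has small weight. -/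
theorem degree_bound {R : RT ι} {G : SimpleGraph V} {B : V → Finset ι} {k m P : ℕ}
    (hTD : IsTD R G B) (hmu : MuLE G B (k + 1)) (hmin : IsMin R G B)
    (hcf : G.CliqueFree (m + 1))
    (IH : ∀ (G' : SimpleGraph V) (B' : V → Finset ι), IsTD R G' B' → MuLE G' B' k →
      G'.CliqueFree (m + 1) → ∀ b' : V → ℝ, (∀ v, 0 ≤ b' v) →
        ∃ C, Indep G' C ∧ ∑ v, b' v ≤ P * ∑ v ∈ C, b' v)
    (α : ι → ℝ) (hα : ∀ t, 0 ≤ α t) (b : V → ℝ) (hb : ∀ v, 0 ≤ b v)
    (hαb : ∀ (S : Finset ι) (t : ι), R.IsSub S t → ∀ C : Finset V, Indep G C →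
      (∀ v ∈ C, B v ⊆ S) → ∑ v ∈ C, b v ≤ ∑ s ∈ S, α s)
    (u : V) :
    ∑ v with Rel G B α (k + 1) v u, b v ≤
      (P + m ^ (2 * (k + 1)) + 1 : ℕ) * ((((k + 1) ^ 2 + 1 : ℕ)) * ∑ i ∈ B u, α i) := by
  set w := m ^ (2 * (k + 1)) with hw
  set Z := ((((k + 1) ^ 2 + 1 : ℕ)) : ℝ) * ∑ i ∈ B u, α i with hZ
  have hA : 0 ≤ ∑ i ∈ B u, α i := Finset.sum_nonneg (fun i _ => hα i)
  have hZ0 : 0 ≤ Z := mul_nonneg (Nat.cast_nonneg _) hA
  have hind : ∀ C, Indep G C → (∀ v ∈ C, Rel G B α (k + 1) v u) → ∑ v ∈ C, b v ≤ Z := by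
    intro C h1 h2
    have := indep_bound hTD hmu hmin (by omega) α hα b hαb u C h1 h2
    rw [hZ]
    push_cast at this ⊢
    exact this
  have hbag : ∀ a, ∀ D : Finset V, (∀ v ∈ D, a ∈ B v) → (∀ v ∈ D, Rel G B α (k + 1) v u) →
      ∑ v ∈ D, b v ≤ w * Z := by
    intro a D hDa hDr
    obtain ⟨f, hf1, hf2⟩ := bag_coloring hmu hcf D a hDa
    have h1 : ∑ v ∈ D, b v = ∑ c ∈ Finset.range w, ∑ v ∈ D with f v = c, b v :=
      (Finset.sum_fiberwise_of_maps_to (fun v hv => Finset.mem_range.2 (hf1 v hv)) b).symm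
    rw [h1]
    calc ∑ c ∈ Finset.range w, ∑ v ∈ D with f v = c, b v ≤ ∑ c ∈ Finset.range w, Z := by
          apply Finset.sum_le_sum
          intro c _
          apply hind
          · intro x hx y hy hxy
            rw [Finset.mem_filter] at hx hy
            exact hf2 x hx.1 y hy.1 hxy (hx.2.trans hy.2.symm)
          · intro v hv
            exact hDr v (Finset.mem_filter.1 hv).1
      _ = w * Z := by rw [Finset.sum_const, Finset.card_range, nsmul_eq_mul]
  have hM : ∀ y, G.Adj u y → ∀ D : Finset V,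
      (∀ v ∈ D, Rel G B α (k + 1) v u ∧ v ≠ u ∧ ¬ G.Adj v y) → ∑ v ∈ D, b v ≤ P * Z := by
    intro y huy D hD
    obtain ⟨B', hB'1, hB'2⟩ := restrict_edge hTD hmu huy D (fun v hv => by
      obtain ⟨⟨h1, ⟨i, hi1, hi2⟩, _⟩, h2, h3⟩ := hD v hv
      refine ⟨?_, h3, i, hi1, Finset.mem_union_left _ hi2⟩
      rcases h1 with h1 | h1
      · exact absurd h1 h2
      · exact h1)
    obtain ⟨C, hC1, hC2⟩ := IH (restrictTo G D) B' hB'1 hB'2
      (hcf.anti (fun x y h => h.1)) (fun v => if v ∈ D then b v else 0) (fun v => by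
        split_ifs
        · exact hb v
        · exact le_refl _)
    have h1 : ∑ v, (if v ∈ D then b v else 0) = ∑ v ∈ D, b v := by
      rw [← Finset.sum_filter]
      congr 1
      ext v
      simp
    have h2 : ∑ v ∈ C, (if v ∈ D then b v else 0) = ∑ v ∈ C ∩ D, b v := by
      rw [← Finset.sum_filter, Finset.filter_mem_eq_inter]
    rw [h1, h2] at hC2
    refine hC2.trans (mul_le_mul_of_nonneg_left ?_ (Nat.cast_nonneg P))
    apply hind
    · intro x hx y hy hxy
      rw [Finset.mem_inter] at hx hy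
      exact hC1 x hx.1 y hy.1 ⟨hxy, hx.2, hy.2⟩
    · intro v hv
      exact (hD v (Finset.mem_inter.1 hv).2).1
  have hu1 : b u ≤ Z := by
    obtain ⟨tu, htu⟩ := hTD.sub u
    have h1 := hαb (B u) tu htu {u} (by
      intro x hx y hy
      rw [Finset.mem_singleton] at hx hy
      rw [hx, hy]
      exact G.loopless.irrefl u) (by
      intro v hv
      rw [Finset.mem_singleton] at hv
      rw [hv])
    rw [Finset.sum_singleton] at h1
    refine h1.trans ?_
    rw [hZ]
    have : (1 : ℝ) ≤ (((k + 1) ^ 2 + 1 : ℕ) : ℝ) := by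
      have : 1 ≤ (k + 1) ^ 2 + 1 := by omega
      exact_mod_cast this
    nlinarith
  set D := Finset.univ.filter (fun v => Rel G B α (k + 1) v u) with hD
  have hDr : ∀ v ∈ D, Rel G B α (k + 1) v u := fun v hv => (Finset.mem_filter.1 hv).2
  obtain ⟨a, ha, hcase | ⟨y, hy1, hy2⟩⟩ := exists_private hTD hmin u
  · have := hbag a D (fun v hv => by
      obtain ⟨i, hi1, hi2⟩ := (hDr v hv).2.1
      exact hcase v ⟨i, hi2, hi1⟩) hDr
    refine this.trans ?_
    push_cast
    nlinarith [mul_nonneg (Nat.cast_nonneg (α := ℝ) P) hZ0]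
  · have hP := hM y hy1 (D.filter (fun v => v ≠ u ∧ ¬ G.Adj v y)) (fun v hv => by
      rw [Finset.mem_filter] at hv
      exact ⟨hDr v hv.1, hv.2⟩)
    have hW := hbag a (D.filter (fun v => G.Adj v y)) (fun v hv => by
      rw [Finset.mem_filter] at hv
      obtain ⟨i, hi1, hi2⟩ := (hDr v hv.1).2.1
      exact hy2 v ⟨i, hi2, hi1⟩ hv.2) (fun v hv => hDr v (Finset.mem_filter.1 hv).1)
    have hsub : D ⊆ (D.filter (fun v => v ≠ u ∧ ¬ G.Adj v y)) ∪
        ((D.filter (fun v => G.Adj v y)) ∪ {u}) := by
      intro v hv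
      simp only [Finset.mem_union, Finset.mem_filter, Finset.mem_singleton]
      tauto
    have h1 : ∑ v ∈ D, b v ≤ ∑ v ∈ (D.filter (fun v => v ≠ u ∧ ¬ G.Adj v y)), b v +
        (∑ v ∈ (D.filter (fun v => G.Adj v y)), b v + b u) := by
      have hun : ∀ s t : Finset V, ∑ v ∈ s ∪ t, b v ≤ ∑ v ∈ s, b v + ∑ v ∈ t, b v := by
        intro s t
        rw [← Finset.sum_union_inter]
        have : 0 ≤ ∑ v ∈ s ∩ t, b v := Finset.sum_nonneg (fun v _ => hb v)
        linarith
      refine (Finset.sum_le_sum_of_subset_of_nonneg hsub (fun v _ _ => hb v)).trans ?_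
      refine (hun _ _).trans ?_
      have := hun (D.filter (fun v => G.Adj v y)) {u}
      rw [Finset.sum_singleton] at this
      linarith
    push_cast
    nlinarith

/-- the polynomial bound (a polynomial in `m` for every fixed `k`) -/
def P : ℕ → ℕ → ℕ
  | 0, _ => 1
  | k + 1, m => (2 * (k + 1) * m ^ (2 * (k + 1))) *
      ((P k m + m ^ (2 * (k + 1)) + 1) * ((k + 1) ^ 2 + 1))

/-- **Weighted form**: the heaviest independent set carries at least a `1 / P k m` fraction of the
total weight. -/
theorem frac_main {R : RT ι} {r : ι} (hr : ∀ i, R.anc r i) (m : ℕ) :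
    ∀ (k : ℕ) (G : SimpleGraph V) (B : V → Finset ι), IsTD R G B → MuLE G B k →
      G.CliqueFree (m + 1) → ∀ b : V → ℝ, (∀ v, 0 ≤ b v) →
        ∃ C, Indep G C ∧ ∑ v, b v ≤ P k m * ∑ v ∈ C, b v := by
  classical
  intro k
  induction k with
  | zero =>
    intro G B hTD hmu _ b _
    refine ⟨Finset.univ, ?_, by simp [P]⟩
    intro x _ y _ hxy
    obtain ⟨i, hi1, hi2⟩ := hTD.edge _ _ hxy
    have := hmu i {x} (fun _ => y) (by simpa using hi1) ⟨by simpa using hxy, by
      intro a ha c hc hac
      rw [Finset.mem_singleton] at ha hc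
      exact absurd (ha.trans hc.symm) hac⟩
    simp at this
  | succ k IH =>
    intro G B0 hTD0 hmu0 hcf b hb
    obtain ⟨B, hTD, hmu, hmin⟩ := exists_min R G B0 (k + 1) hTD0 hmu0
    obtain ⟨α, hα, ⟨C0, hC0, hC0α⟩, hαb⟩ := exists_measure hr hTD b
    let A : V → ℝ := fun v => ∑ i ∈ B v, α i
    have hA0 : ∀ v, 0 ≤ A v := fun v => Finset.sum_nonneg (fun i _ => hα i)
    have hbA : ∀ v, b v ≤ A v := by
      intro v
      obtain ⟨tv, htv⟩ := hTD.sub v
      have h1 := hαb (B v) tv htv {v} (by
        intro x hx y hy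
        rw [Finset.mem_singleton] at hx hy
        rw [hx, hy]
        exact G.loopless.irrefl v) (by
        intro x hx
        rw [Finset.mem_singleton] at hx
        rw [hx])
      rwa [Finset.sum_singleton] at h1
    let ρ : V → ℝ := fun v => b v / A v
    have hρ : ∀ v, 0 ≤ ρ v := fun v => div_nonneg (hb v) (hA0 v)
    have hρA : ∀ v, ρ v * A v = b v := by
      intro v
      by_cases h : A v = 0
      · have : b v = 0 := le_antisymm (h ▸ hbA v) (hb v)
        simp [h, this]
      · exact div_mul_cancel₀ _ h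
    set β := ∑ v, b v with hβ
    obtain ⟨Z, hZ⟩ : ∃ Z : ℝ, Z =
      (((P k m + m ^ (2 * (k + 1)) + 1) * ((k + 1) ^ 2 + 1) : ℕ) : ℝ) := ⟨_, rfl⟩
    obtain ⟨w, hw⟩ : ∃ w : ℝ, w = ((2 * (k + 1) * m ^ (2 * (k + 1)) : ℕ) : ℝ) := ⟨_, rfl⟩
    have hdeg : ∀ u, ∑ v with Rel G B α (k + 1) v u, b v ≤ Z * A u := by
      intro u
      have := degree_bound hTD hmu hmin hcf IH α hα b hb hαb u
      rw [hZ]
      push_cast at this ⊢
      rw [mul_assoc]
      exact this
    have S1 : ∑ t, α t * ∑ v with t ∈ B v, ρ v = β := by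
      calc ∑ t, α t * ∑ v with t ∈ B v, ρ v = ∑ t, ∑ v, (if t ∈ B v then ρ v * α t else 0) := by
            apply Finset.sum_congr rfl
            intro t _
            rw [Finset.mul_sum, Finset.sum_filter]
            apply Finset.sum_congr rfl
            intro v _
            rw [mul_comm]
        _ = ∑ v, ∑ t, (if t ∈ B v then ρ v * α t else 0) := Finset.sum_comm
        _ = ∑ v, ρ v * A v := by
            apply Finset.sum_congr rfl
            intro v _
            rw [← Finset.sum_filter, Finset.filter_mem_eq_inter, Finset.univ_inter,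
              ← Finset.mul_sum]
        _ = β := Finset.sum_congr rfl (fun v _ => hρA v)
    have S2 : ∑ t, α t * ∑ v with t ∈ B v, ∑ u with (t ∈ B u ∧ Rel G B α (k + 1) v u),
        ρ v * ρ u ≤ Z * β := by
      calc ∑ t, α t * ∑ v with t ∈ B v, ∑ u with (t ∈ B u ∧ Rel G B α (k + 1) v u), ρ v * ρ u
          = ∑ t, ∑ v, ∑ u, (if t ∈ B v ∩ B u ∧ Rel G B α (k + 1) v u then
              ρ v * ρ u * α t else 0) := by
            apply Finset.sum_congr rfl
            intro t _
            rw [Finset.mul_sum, Finset.sum_filter]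
            apply Finset.sum_congr rfl
            intro v _
            split_ifs with h
            · rw [Finset.mul_sum, Finset.sum_filter]
              apply Finset.sum_congr rfl
              intro u _
              simp only [Finset.mem_inter, h, true_and]
              split_ifs
              · ring
              · rfl
            · symm
              apply Finset.sum_eq_zero
              intro u _
              rw [if_neg]
              rintro ⟨h1, _⟩
              exact h (Finset.mem_inter.1 h1).1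
        _ = ∑ v, ∑ u, ∑ t, (if t ∈ B v ∩ B u ∧ Rel G B α (k + 1) v u then
              ρ v * ρ u * α t else 0) := by
            rw [Finset.sum_comm]
            apply Finset.sum_congr rfl
            intro v _
            rw [Finset.sum_comm]
        _ ≤ ∑ v, ∑ u, (if Rel G B α (k + 1) v u then ρ u * b v else 0) := by
            apply Finset.sum_le_sum
            intro v _
            apply Finset.sum_le_sum
            intro u _
            split_ifs with h
            · simp only [h, and_true]
              rw [← Finset.sum_filter, Finset.filter_mem_eq_inter, Finset.univ_inter,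
                ← Finset.mul_sum]
              have h1 : ∑ i ∈ B v ∩ B u, α i ≤ A v :=
                Finset.sum_le_sum_of_subset_of_nonneg Finset.inter_subset_left
                  (fun i _ _ => hα i)
              calc ρ v * ρ u * ∑ i ∈ B v ∩ B u, α i ≤ ρ v * ρ u * A v :=
                    mul_le_mul_of_nonneg_left h1 (mul_nonneg (hρ v) (hρ u))
                _ = ρ u * (ρ v * A v) := by ring
                _ = ρ u * b v := by rw [hρA]
            · apply le_of_eq
              apply Finset.sum_eq_zero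
              intro t _
              rw [if_neg]
              exact fun h' => h h'.2
        _ = ∑ u, ∑ v, (if Rel G B α (k + 1) v u then ρ u * b v else 0) := Finset.sum_comm
        _ = ∑ u, ρ u * ∑ v with Rel G B α (k + 1) v u, b v := by
            apply Finset.sum_congr rfl
            intro u _
            rw [← Finset.sum_filter, Finset.mul_sum]
        _ ≤ ∑ u, ρ u * (Z * A u) :=
            Finset.sum_le_sum (fun u _ => mul_le_mul_of_nonneg_left (hdeg u) (hρ u))
        _ = Z * β := by
            rw [hβ, Finset.mul_sum]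
            apply Finset.sum_congr rfl
            intro u _
            rw [← hρA u]
            ring
    have hbag : ∀ t, (∑ v with t ∈ B v, ρ v) ^ 2 ≤
        w * ∑ v with t ∈ B v, ∑ u with (t ∈ B u ∧ Rel G B α (k + 1) v u), ρ v * ρ u :=
      fun t => hw ▸ bag_ineq hTD hmu hmin (by omega) hcf α hα ρ hρ t
    have hw0 : 0 ≤ w := hw ▸ Nat.cast_nonneg _
    have hCS : β ^ 2 ≤ (∑ t, α t) * (w * (Z * β)) := by
      calc β ^ 2 = (∑ t, α t * ∑ v with t ∈ B v, ρ v) ^ 2 := by rw [S1]
        _ ≤ (∑ t, α t) * ∑ t, α t * (∑ v with t ∈ B v, ρ v) ^ 2 := by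
            apply Finset.sum_sq_le_sum_mul_sum_of_sq_le_mul
            · intro t _
              exact hα t
            · intro t _
              exact mul_nonneg (hα t) (sq_nonneg _)
            · intro t _
              apply le_of_eq
              ring
        _ ≤ (∑ t, α t) * (w * (Z * β)) := by
            apply mul_le_mul_of_nonneg_left _ (Finset.sum_nonneg (fun t _ => hα t))
            refine le_trans ?_ (mul_le_mul_of_nonneg_left S2 hw0)
            rw [Finset.mul_sum]
            apply Finset.sum_le_sum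
            intro t _
            calc α t * (∑ v with t ∈ B v, ρ v) ^ 2 ≤ α t * (w * ∑ v with t ∈ B v,
                  ∑ u with (t ∈ B u ∧ Rel G B α (k + 1) v u), ρ v * ρ u) :=
                  mul_le_mul_of_nonneg_left (hbag t) (hα t)
              _ = _ := by ring
    refine ⟨C0, hC0, ?_⟩
    rw [← hC0α]
    have hPe : ((P (k + 1) m : ℕ) : ℝ) = w * Z := by
      rw [hw, hZ, P]
      push_cast
      ring
    rw [hPe]
    have hβ0 : 0 ≤ β := Finset.sum_nonneg (fun v _ => hb v)
    have hZ0 : 0 ≤ Z := hZ ▸ Nat.cast_nonneg _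
    rcases eq_or_lt_of_le hβ0 with e | hpos
    · rw [← e]
      exact mul_nonneg (mul_nonneg hw0 hZ0) (Finset.sum_nonneg (fun t _ => hα t))
    · nlinarith

end step

end Pool.Agent.Work.MP_41f3d4_co
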