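import Mathlib
import Pool.Agent.Work.MP_41f3d4_co.Convert
import Pool.Agent.Work.MP_41f3d4_co.Frac
import Pool.Agent.Work.MP_41f3d4_co.Duality

set_option autoImplicit false

namespace Pool.Agent.Work.MP_41f3d4_co

theorem P_pos (k m : ℕ) (hm : 1 ≤ m) : 1 ≤ P k m := by
  cases k with
  | zero => simp [P]
  | succ k =>
    rw [P]
    apply Nat.one_le_iff_ne_zero.2
    have : m ^ (2 * (k + 1)) ≠ 0 := pow_ne_zero _ (by omega)
    positivity

theorem P_le (k : ℕ) : ∃ c : ℕ, ∀ m, 1 ≤ m → P k m ≤ c * m ^ (k ^ 2 + k + 2) := by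
  induction k with
  | zero =>
    refine ⟨1, fun m hm => ?_⟩
    simp only [P]
    have : 1 ≤ m ^ (0 ^ 2 + 0 + 2) := Nat.one_le_pow _ _ hm
    omega
  | succ k ih =>
    obtain ⟨c, hc⟩ := ih
    refine ⟨2 * (k + 1) * ((c + 2) * ((k + 1) ^ 2 + 1)), fun m hm => ?_⟩
    rw [P]
    have h1 := hc m hm
    have h2 : m ^ (2 * (k + 1)) ≤ m ^ (k ^ 2 + k + 2) :=
      Nat.pow_le_pow_right hm (by nlinarith [Nat.le_self_pow (n := 2) (by norm_num) k])
    have h3 : 1 ≤ m ^ (k ^ 2 + k + 2) := Nat.one_le_pow _ _ hm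
    have h4 : P k m + m ^ (2 * (k + 1)) + 1 ≤ (c + 2) * m ^ (k ^ 2 + k + 2) := by
      have : (c + 2) * m ^ (k ^ 2 + k + 2) = c * m ^ (k ^ 2 + k + 2) + m ^ (k ^ 2 + k + 2) +
        m ^ (k ^ 2 + k + 2) := by ring
      omega
    calc 2 * (k + 1) * m ^ (2 * (k + 1)) *
          ((P k m + m ^ (2 * (k + 1)) + 1) * ((k + 1) ^ 2 + 1))
        ≤ 2 * (k + 1) * m ^ (2 * (k + 1)) *
          (((c + 2) * m ^ (k ^ 2 + k + 2)) * ((k + 1) ^ 2 + 1)) := by
          apply Nat.mul_le_mul_left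
          exact Nat.mul_le_mul_right _ h4
      _ = 2 * (k + 1) * ((c + 2) * ((k + 1) ^ 2 + 1)) * m ^ ((k + 1) ^ 2 + (k + 1) + 2) := by
          ring

end Pool.Agent.Work.MP_41f3d4_co

namespace Pool.Agent.Work.MP_41f3d4_co.FractionalPoly

open Pool.Agent.Work.MP_41f3d4_co

/-- **Fractional version of Q1, for every k.**  Graphs with a tree decomposition of induced
matching width at most `k` have an `a : b` colouring (a homomorphism to a Kneser graph: every
vertex receives `b` of the `a` colours, adjacent vertices disjoint sets) with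
`a / b ≤ c * ω ^ (k ^ 2 + k + 2)`: their fractional chromatic number is at most a polynomial
in the clique number. -/
theorem result : ∀ k : ℕ, ∃ c : ℕ, ∀ (V : Type) [Fintype V] (G : SimpleGraph V),
    (∃ n : ℕ, ∃ T : SimpleGraph (Fin n), ∃ bag : Fin n → Finset V,
      T.IsTree ∧
      (∀ v : V, ∃ i : Fin n, v ∈ bag i) ∧
      (∀ u v : V, G.Adj u v → ∃ i : Fin n, u ∈ bag i ∧ v ∈ bag i) ∧
      (∀ v : V, ∀ i j : Fin n, v ∈ bag i → v ∈ bag j →
        ∃ p : T.Walk i j, ∀ x ∈ p.support, v ∈ bag x) ∧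
      (∀ i : Fin n, ∀ S : Finset V,
        (∀ v ∈ S, ∃! u : V, u ∈ S ∧ G.Adj v u) →
        (∀ v ∈ S, ∃ u ∈ S, G.Adj v u ∧ (v ∈ bag i ∨ u ∈ bag i)) →
        S.card ≤ 2 * k)) →
    ∃ a b : ℕ, 0 < b ∧ a ≤ c * G.cliqueNum ^ (k ^ 2 + k + 2) * b ∧
      ∃ f : V → Finset (Fin a),
        (∀ v, (f v).card = b) ∧ ∀ u v, G.Adj u v → Disjoint (f u) (f v) := by
  intro k
  obtain ⟨c, hc⟩ := P_le k
  refine ⟨2 * c, ?_⟩
  intro V _ G hyp
  classical
  by_cases hm : 1 ≤ G.cliqueNum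
  · obtain ⟨n, T, bag, hT, h1, h2, h3, h4⟩ := hyp
    obtain ⟨R, r, B, hr, hTD, hmu⟩ := convert G k n T bag hT h1 h2 h3 h4
    have hcf : G.CliqueFree (G.cliqueNum + 1) := by
      intro s hs
      have := hs.isClique.card_le_cliqueNum
      rw [hs.card_eq] at this
      omega
    obtain ⟨a, b, hb, hab, f, hf⟩ := multicoloring_of_weighted G (P k G.cliqueNum)
      (P_pos k _ hm) (fun b hb => frac_main hr G.cliqueNum k G B hTD hmu hcf b hb)
    refine ⟨a, b, hb, hab.trans ?_, f, hf⟩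
    apply Nat.mul_le_mul_right
    rw [mul_assoc]
    exact Nat.mul_le_mul_left 2 (hc _ hm)
  · have hV : IsEmpty V := by
      by_contra hne
      rw [not_isEmpty_iff] at hne
      obtain ⟨v⟩ := hne
      apply hm
      have h : G.IsClique ({v} : Finset V) := by simp
      have := h.card_le_cliqueNum
      simpa using this
    exact ⟨0, 1, by norm_num, by omega, fun v => (hV.false v).elim, fun v => (hV.false v).elim,
      fun v => (hV.false v).elim⟩

end Pool.Agent.Work.MP_41f3d4_co.FractionalPoly
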