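import Mathlib
import Pool.Agent.Work.MP_41f3d4_co.Decomp
import Pool.Agent.Work.MP_41f3d4_co.Label

set_option autoImplicit false

namespace Pool.Agent.Work.MP_41f3d4_co

open SimpleGraph

variable {V ι : Type} [Fintype V] [DecidableEq V] [Fintype ι] [DecidableEq ι]

omit [Fintype V] [DecidableEq V] [Fintype ι] [DecidableEq ι] in
theorem no_edge {R : RT ι} {G : SimpleGraph V} {B : V → Finset ι} (hTD : IsTD R G B)
    (hmu : MuLE G B 0) (x y : V) : ¬ G.Adj x y := by
  intro hxy
  obtain ⟨i, hi1, hi2⟩ := hTD.edge _ _ hxy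
  have := hmu i {x} (fun _ => y) (by simpa using hi1) ⟨by simpa using hxy, by
    intro a ha c hc hac
    rw [Finset.mem_singleton] at ha hc
    exact absurd (ha.trans hc.symm) hac⟩
  simp at this

omit [Fintype V] [Fintype ι] in
/-- For `k = 1` the subtrees of two nonadjacent vertices which meet are nested. -/
theorem nested {R : RT ι} {G : SimpleGraph V} {B : V → Finset ι} (hTD : IsTD R G B)
    (hmu : MuLE G B 1) (hmin : IsMin R G B) {u v : V} (huv : u ≠ v) (hadj : ¬ G.Adj u v)
    (hi : ∃ i, i ∈ B u ∧ i ∈ B v) : B u ⊆ B v ∨ B v ⊆ B u := by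
  obtain ⟨t, htu, htv⟩ := hi
  by_contra hcon
  push Not at hcon
  obtain ⟨h1, h2⟩ := hcon
  rw [Finset.not_subset] at h1 h2
  obtain ⟨a, ha1, ha2⟩ := h1
  obtain ⟨c, hc1, hc2⟩ := h2
  have := irred_card hTD hmu hmin le_rfl {u, v} t (by
    intro w hw
    rcases Finset.mem_insert.1 hw with e | hw
    · exact e ▸ htu
    · exact (Finset.mem_singleton.1 hw) ▸ htv) (by
    intro x hx y hy
    rcases Finset.mem_insert.1 hx with e | hx
    · rcases Finset.mem_insert.1 hy with e' | hy
      · rw [e, e']; exact G.loopless.irrefl u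
      · rw [e, Finset.mem_singleton.1 hy]; exact hadj
    · rcases Finset.mem_insert.1 hy with e' | hy
      · rw [e', Finset.mem_singleton.1 hx]; exact fun h => hadj h.symm
      · rw [Finset.mem_singleton.1 hx, Finset.mem_singleton.1 hy]; exact G.loopless.irrefl v) (by
    intro w hw
    rcases Finset.mem_insert.1 hw with e | hw
    · refine ⟨a, e ▸ ha1, fun x hx hxw => ?_⟩
      rcases Finset.mem_insert.1 hx with e' | hx
      · exact absurd (e'.trans e.symm) hxw
      · rw [Finset.mem_singleton.1 hx]; exact ha2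
    · have e := Finset.mem_singleton.1 hw
      refine ⟨c, e ▸ hc1, fun x hx hxw => ?_⟩
      rcases Finset.mem_insert.1 hx with e' | hx
      · rw [e']; exact hc2
      · exact absurd ((Finset.mem_singleton.1 hx).trans e.symm) hxw)
  rw [Finset.card_pair huv] at this
  omega

omit [Fintype V] [Fintype ι] in
/-- greedy choice of the dominating family -/
theorem exists_kernel {R : RT ι} {G : SimpleGraph V} {B : V → Finset ι} (hTD : IsTD R G B)
    (hmu : MuLE G B 1) (hmin : IsMin R G B) : ∀ (n : ℕ) (W : Finset V), W.card = n →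
      ∃ K ⊆ W, (∀ u ∈ K, ∀ v ∈ K, u ≠ v → (∃ i, i ∈ B u ∧ i ∈ B v) → G.Adj u v) ∧
        ∀ v ∈ W, v ∉ K → ∃ u ∈ K, v ≠ u ∧ ¬ G.Adj v u ∧ B v ⊆ B u := by
  classical
  intro n
  induction n using Nat.strong_induction_on with
  | _ n ih =>
    intro W hW
    rcases W.eq_empty_or_nonempty with rfl | hne
    · exact ⟨∅, Finset.Subset.refl _, by simp, by simp⟩
    obtain ⟨u, hu, humax⟩ := W.exists_max_image (fun v => (B v).card) hne
    let W' := W.filter (fun v => v ≠ u ∧ ((∃ i, i ∈ B u ∧ i ∈ B v) → G.Adj v u))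
    have hlt : W'.card < W.card := by
      apply Finset.card_lt_card
      refine ⟨Finset.filter_subset _ _, fun h => ?_⟩
      exact (Finset.mem_filter.1 (h hu)).2.1 rfl
    obtain ⟨K, hK1, hK2, hK3⟩ := ih W'.card (hW ▸ hlt) W' rfl
    refine ⟨insert u K, ?_, ?_, ?_⟩
    · intro v hv
      rcases Finset.mem_insert.1 hv with e | hv
      · exact e ▸ hu
      · exact (Finset.mem_filter.1 (hK1 hv)).1
    · intro a ha c hc hac hi
      rcases Finset.mem_insert.1 ha with e | ha
      · rcases Finset.mem_insert.1 hc with e' | hc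
        · exact absurd (e.trans e'.symm) hac
        · rw [e] at hi ⊢
          exact ((Finset.mem_filter.1 (hK1 hc)).2.2 hi).symm
      · rcases Finset.mem_insert.1 hc with e' | hc
        · rw [e'] at hi ⊢
          obtain ⟨i, hi1, hi2⟩ := hi
          exact (Finset.mem_filter.1 (hK1 ha)).2.2 ⟨i, hi2, hi1⟩
        · exact hK2 a ha c hc hac hi
    · intro v hv hvK
      rw [Finset.mem_insert] at hvK
      push Not at hvK
      by_cases hvW' : v ∈ W'
      · obtain ⟨x, hx, h1⟩ := hK3 v hvW' hvK.2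
        exact ⟨x, Finset.mem_insert_of_mem hx, h1⟩
      · refine ⟨u, Finset.mem_insert_self _ _, hvK.1, ?_⟩
        have h1 : ¬ ((∃ i, i ∈ B u ∧ i ∈ B v) → G.Adj v u) := by
          intro h
          exact hvW' (Finset.mem_filter.2 ⟨hv, hvK.1, h⟩)
        rw [Classical.not_imp] at h1
        refine ⟨h1.2, ?_⟩
        obtain ⟨i, hi1, hi2⟩ := h1.1
        rcases nested hTD hmu hmin hvK.1 h1.2 ⟨i, hi2, hi1⟩ with h | h
        · exact h
        · exact (Finset.eq_of_subset_of_card_le h (humax v hv)).ge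

omit [Fintype ι] in
/-- colouring of the vertices meeting the subtree of `u` and not adjacent to `u` (`k = 1`) -/
theorem fake_coloring_one {R : RT ι} {G : SimpleGraph V} {B : V → Finset ι} {m : ℕ}
    (hTD : IsTD R G B) (hmu : MuLE G B 1) (hmin : IsMin R G B) (hcf : G.CliqueFree (m + 1))
    (u : V) : ∃ f : V → ℕ, (∀ v, (v ≠ u ∧ ¬ G.Adj v u ∧ ∃ i, i ∈ B u ∧ i ∈ B v) → f v < m ^ 2 + 1) ∧
      ∀ v w, (v ≠ u ∧ ¬ G.Adj v u ∧ ∃ i, i ∈ B u ∧ i ∈ B v) →
        (w ≠ u ∧ ¬ G.Adj w u ∧ ∃ i, i ∈ B u ∧ i ∈ B w) → G.Adj v w → f v ≠ f w := by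
  classical
  obtain ⟨a, ha, hcase | ⟨y, hy1, hy2⟩⟩ := exists_private hTD hmin u
  · obtain ⟨f, hf1, hf2⟩ := bag_coloring hmu hcf
      (Finset.univ.filter (fun v => v ≠ u ∧ ¬ G.Adj v u ∧ ∃ i, i ∈ B u ∧ i ∈ B v)) a (by
        intro v hv
        exact hcase v (Finset.mem_filter.1 hv).2.2.2)
    refine ⟨f, ?_, ?_⟩
    · intro v hv
      have := hf1 v (Finset.mem_filter.2 ⟨Finset.mem_univ _, hv⟩)
      simp only [mul_one] at this
      omega
    · intro v w hv hw hvw
      exact hf2 v (Finset.mem_filter.2 ⟨Finset.mem_univ _, hv⟩) w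
        (Finset.mem_filter.2 ⟨Finset.mem_univ _, hw⟩) hvw
  · obtain ⟨f, hf1, hf2⟩ := bag_coloring hmu hcf
      (Finset.univ.filter (fun v => (v ≠ u ∧ ¬ G.Adj v u ∧ ∃ i, i ∈ B u ∧ i ∈ B v) ∧
        G.Adj v y)) a (by
        intro v hv
        have := (Finset.mem_filter.1 hv).2
        exact hy2 v this.1.2.2 this.2)
    have hf1' : ∀ v, (v ≠ u ∧ ¬ G.Adj v u ∧ ∃ i, i ∈ B u ∧ i ∈ B v) → G.Adj v y →
        f v < m ^ 2 := by
      intro v hv hvy
      have := hf1 v (Finset.mem_filter.2 ⟨Finset.mem_univ _, hv, hvy⟩)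
      simpa using this
    refine ⟨fun v => if G.Adj v y then f v else m ^ 2, ?_, ?_⟩
    · intro v hv
      beta_reduce
      split_ifs with h
      · have := hf1' v hv h
        omega
      · omega
    · intro v w hv hw hvw
      beta_reduce
      by_cases h1 : G.Adj v y
      · rw [if_pos h1]
        by_cases h2 : G.Adj w y
        · rw [if_pos h2]
          exact hf2 v (Finset.mem_filter.2 ⟨Finset.mem_univ _, hv, h1⟩) w
            (Finset.mem_filter.2 ⟨Finset.mem_univ _, hw, h2⟩) hvw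
        · rw [if_neg h2]
          have := hf1' v hv h1
          omega
      · rw [if_neg h1]
        by_cases h2 : G.Adj w y
        · rw [if_pos h2]
          have := hf1' w hw h2
          omega
        · exfalso
          obtain ⟨B', hB'1, hB'2⟩ := restrict_edge (k := 0) hTD hmu hy1 {v, w} (by
            intro x hx
            rcases Finset.mem_insert.1 hx with e | hx
            · rw [e]
              obtain ⟨i, hi1, hi2⟩ := hv.2.2
              exact ⟨hv.2.1, h1, i, hi2, Finset.mem_union_left _ hi1⟩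
            · rw [Finset.mem_singleton.1 hx]
              obtain ⟨i, hi1, hi2⟩ := hw.2.2
              exact ⟨hw.2.1, h2, i, hi2, Finset.mem_union_left _ hi1⟩)
          exact no_edge hB'1 hB'2 v w ⟨hvw, by simp, by simp⟩

/-- **The case `k = 1`.** -/
theorem mu_one {R : RT ι} {G : SimpleGraph V} {B0 : V → Finset ι} {m : ℕ}
    (hTD0 : IsTD R G B0) (hmu0 : MuLE G B0 1) (hcf : G.CliqueFree (m + 1)) :
    G.Colorable (m * (m ^ 2 + 2)) := by
  classical
  obtain ⟨B, hTD, hmu, hmin⟩ := exists_min R G B0 1 hTD0 hmu0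
  obtain ⟨K, _, hK2, hK3⟩ := exists_kernel hTD hmu hmin _ Finset.univ rfl
  have hK3' : ∀ v, v ∉ K → ∃ u ∈ K, v ≠ u ∧ ¬ G.Adj v u ∧ B v ⊆ B u :=
    fun v hv => hK3 v (Finset.mem_univ v) hv
  choose! dom hdom1 hdom2 hdom3 hdom4 using hK3'
  choose c hc1 hc2 using fun u => fake_coloring_one hTD hmu hmin hcf u
  have hF : ∀ v, v ∉ K → (v ≠ dom v ∧ ¬ G.Adj v (dom v) ∧ ∃ i, i ∈ B (dom v) ∧ i ∈ B v) := by
    intro v hv
    obtain ⟨t, ht⟩ := hTD.sub v
    exact ⟨hdom2 v hv, hdom3 v hv, t, hdom4 v hv ht.1, ht.1⟩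
  let L : V → V × ℕ := fun v => if v ∈ K then (v, m ^ 2 + 1) else (dom v, c (dom v) v)
  have hL1 : ∀ v, v ∈ K → L v = (v, m ^ 2 + 1) := fun v hv => by simp only [L, if_pos hv]
  have hL2 : ∀ v, v ∉ K → L v = (dom v, c (dom v) v) := fun v hv => by simp only [L, if_neg hv]
  apply label_coloring hTD L
  · intro u v huv h
    by_cases hu : u ∈ K
    · rw [hL1 u hu] at h
      by_cases hv : v ∈ K
      · rw [hL1 v hv] at h
        exact huv.ne (congrArg Prod.fst h)
      · rw [hL2 v hv] at h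
        have h1 := congrArg Prod.snd h
        simp only at h1
        have := hc1 (dom v) v (hF v hv)
        omega
    · rw [hL2 u hu] at h
      by_cases hv : v ∈ K
      · rw [hL1 v hv] at h
        have h1 := congrArg Prod.snd h
        simp only at h1
        have := hc1 (dom u) u (hF u hu)
        omega
      · rw [hL2 v hv] at h
        have h1 := congrArg Prod.fst h
        have h2 := congrArg Prod.snd h
        simp only at h1 h2
        have h3 := hF u hu
        rw [h1] at h2 h3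
        exact hc2 (dom v) u v h3 (hF v hv) huv h2
  · intro t
    have h1 : (Finset.univ.filter (fun v => t ∈ B v)).image L ⊆
        (K.filter (fun v => t ∈ B v)) ×ˢ Finset.range (m ^ 2 + 2) := by
      intro l hl
      obtain ⟨v, hv, rfl⟩ := Finset.mem_image.1 hl
      have hv' := (Finset.mem_filter.1 hv).2
      rw [Finset.mem_product, Finset.mem_filter, Finset.mem_range]
      by_cases hvK : v ∈ K
      · rw [hL1 v hvK]
        exact ⟨⟨hvK, hv'⟩, by omega⟩
      · rw [hL2 v hvK]
        have := hc1 (dom v) v (hF v hvK)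
        exact ⟨⟨hdom1 v hvK, hdom4 v hvK hv'⟩, by simp only; omega⟩
    refine (Finset.card_le_card h1).trans ?_
    rw [Finset.card_product, Finset.card_range]
    apply Nat.mul_le_mul_right
    have h2 : G.IsClique ((K.filter (fun v => t ∈ B v) : Finset V) : Set V) := by
      intro x hx y hy hxy
      rw [Finset.mem_coe, Finset.mem_filter] at hx hy
      exact hK2 x hx.1 y hy.1 hxy ⟨t, hx.2, hy.2⟩
    by_contra hcon
    push Not at hcon
    obtain ⟨s, hs, hscard⟩ := Finset.exists_subset_card_eq (show m + 1 ≤ _ from hcon)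
    exact hcf s ⟨h2.subset (Finset.coe_subset.2 hs), hscard⟩

end Pool.Agent.Work.MP_41f3d4_co
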