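import Mathlib
import Pool.Agent.Work.MP_41f3d4_co.Convert
import Pool.Agent.Work.MP_41f3d4_co.MuOne

set_option autoImplicit false

namespace Pool.Agent.Work.MP_41f3d4_co.MuOneCubic

open Pool.Agent.Work.MP_41f3d4_co

/-- **The case `k = 1` of Q1.**  Every finite graph with a tree decomposition of induced matching
width at most `1` satisfies `χ ≤ ω * (ω ^ 2 + 2)`. -/
theorem result : ∀ (V : Type) [Fintype V] (G : SimpleGraph V),
    (∃ n : ℕ, ∃ T : SimpleGraph (Fin n), ∃ bag : Fin n → Finset V,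
      T.IsTree ∧
      (∀ v : V, ∃ i : Fin n, v ∈ bag i) ∧
      (∀ u v : V, G.Adj u v → ∃ i : Fin n, u ∈ bag i ∧ v ∈ bag i) ∧
      (∀ v : V, ∀ i j : Fin n, v ∈ bag i → v ∈ bag j →
        ∃ p : T.Walk i j, ∀ x ∈ p.support, v ∈ bag x) ∧
      (∀ i : Fin n, ∀ S : Finset V,
        (∀ v ∈ S, ∃! u : V, u ∈ S ∧ G.Adj v u) →
        (∀ v ∈ S, ∃ u ∈ S, G.Adj v u ∧ (v ∈ bag i ∨ u ∈ bag i)) →
        S.card ≤ 2 * 1)) →
    G.chromaticNumber ≤ ((G.cliqueNum * (G.cliqueNum ^ 2 + 2) : ℕ) : ℕ∞) := by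
  intro V _ G hyp
  classical
  obtain ⟨n, T, bag, hT, h1, h2, h3, h4⟩ := hyp
  obtain ⟨R, r, B, hr, hTD, hmu⟩ := convert G 1 n T bag hT h1 h2 h3 h4
  have hcf : G.CliqueFree (G.cliqueNum + 1) := by
    intro s hs
    have := hs.isClique.card_le_cliqueNum
    rw [hs.card_eq] at this
    omega
  exact (mu_one hTD hmu hcf).chromaticNumber_le

end Pool.Agent.Work.MP_41f3d4_co.MuOneCubic
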